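import Pool.Agent.H92.SN.Tau
import Pool.Agent.H83.SK.P29.CircProb
import Pool.Agent.H83.SK.P29.NoArm
import Pool.Agent.H29.Sep.Ring

/-!
# Uniform decay of the four-arm probability
-/

set_option autoImplicit false

open MeasureTheory ProbabilityTheory unitInterval Filter Topology

namespace Pool.Agent.H92.SN

open Pool.Agent.H89.Perc
open Pool.Agent.H29.Sep (Circ eCirc mem_eCirc localOn_circ incr_circ circ_ring ann)
open Pool.Agent.H83.SK (sv sit)

/-- An open ring joins the arms. -/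
theorem notMem_A4_of_circ {ω : Config} {s r : ℕ} (hs : 1 ≤ s) (hr : 3 * s ≤ r)
    (h : ω ∈ Circ 0 s) : ω ∉ A4 0 r := by
  rintro ⟨a, b, ha, hb, ⟨u, hu, h1⟩, ⟨u', hu', h2⟩, h3⟩
  obtain ⟨g1, g2, g3⟩ := circ_ring hs h
  have hout : ∀ u ∈ sphere (0 : Vert) r, u ∈ sphere 0 (3 * s) ∨ u ∉ ball (0 : Vert) (3 * s) := by
    rintro u ⟨hu1, hu2⟩
    by_cases hm : u ∈ ball (0 : Vert) (3 * s)
    · left
      refine ⟨hm, ?_⟩
      rw [mem_ball] at hm
      push_cast at hm ⊢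
      have : (3 * s : ℤ) ≤ r := by exact_mod_cast hr
      omega
    · exact Or.inr hm
  obtain ⟨w, hw, c1⟩ := g3 _ _ _ _ h1 (ha.mem_ball hs) (hout u hu)
  obtain ⟨w', hw', c2⟩ := g3 _ _ _ _ h2 (hb.mem_ball hs) (hout u' hu')
  have h0 : ∀ x ∈ ann (0 : Vert) s (3 * s), x ≠ 0 := by
    rintro x ⟨-, hx⟩ rfl
    exact hx self_mem_ball
  have c3 : Conn (closeV 0 ω) (ann 0 s (3 * s)) w w' := by
    refine (g2 w hw w' hw').congr fun e k1 k2 => ?_
    simp only [closeV, h0 _ k1, h0 _ k2, ne_eq, not_false_eq_true, and_self, decide_true,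
      Bool.and_true]
  have c4 : Conn (closeV 0 ω) (ball 0 r) w w' := c3.mono_set fun x hx => ball_mono 0 hr hx.1
  exact h3 ((c1.trans c4).trans c2.symm)

theorem a4_le_circ (q : I) {k r : ℕ} (hr : 3 * 4 ^ k ≤ r) {c : ℝ} (hc1 : c ≤ 1)
    (h : ∀ m, m ≤ k → c ≤ Pool.Agent.H83.SK.Pr q (Circ 0 (4 ^ m))) :
    a4 q r ≤ (1 - c) ^ (k + 1) := by
  classical
  -- the events
  have hloc : ∀ k : ℕ, LocalOn ((Finset.range (k + 1)).biUnion fun m => eCirc 0 (4 ^ m))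
      {ω | ∀ m, m ≤ k → ω ∉ Circ 0 (4 ^ m)} := by
    intro k ω ω' hω h1 m hm h2
    refine h1 m hm (localOn_circ 0 (4 ^ m) _ _ (fun e he => ?_) h2)
    exact (hω e (Finset.mem_biUnion.2 ⟨m, Finset.mem_range.2 (by omega), he⟩)).symm
  have key : ∀ k : ℕ, (∀ m, m ≤ k → c ≤ Pool.Agent.H83.SK.Pr q (Circ 0 (4 ^ m))) →
      Pool.Agent.H83.SK.Pr q {ω | ∀ m, m ≤ k → ω ∉ Circ 0 (4 ^ m)} ≤ (1 - c) ^ (k + 1) := by
    intro k
    induction k with
    | zero =>
      intro h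
      have e : {ω : Config | ∀ m, m ≤ 0 → ω ∉ Circ 0 (4 ^ m)} = (Circ 0 (4 ^ 0))ᶜ := by
        ext ω
        simp only [Set.mem_ofPred_eq, Set.mem_compl_iff]
        exact ⟨fun h => h 0 le_rfl, fun h m hm => by
          have : m = 0 := by omega
          subst this
          exact h⟩
      rw [e, Pool.Agent.H83.SK.Pr_compl (localOn_circ 0 (4 ^ 0)), zero_add, pow_one]
      linarith [h 0 le_rfl]
    | succ k ih =>
      intro h
      have e : {ω : Config | ∀ m, m ≤ k + 1 → ω ∉ Circ 0 (4 ^ m)} =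
          {ω | ∀ m, m ≤ k → ω ∉ Circ 0 (4 ^ m)} ∩ (Circ 0 (4 ^ (k + 1)))ᶜ := by
        ext ω
        simp only [Set.mem_ofPred_eq, Set.mem_inter_iff, Set.mem_compl_iff]
        constructor
        · intro h
          exact ⟨fun m hm => h m (by omega), h (k + 1) le_rfl⟩
        · rintro ⟨h1, h2⟩ m hm
          rcases Nat.lt_or_ge m (k + 1) with h3 | h3
          · exact h1 m (by omega)
          · have : m = k + 1 := by omega
            subst this
            exact h2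
      rw [e, Pool.Agent.H83.SK.Pr_inter_of_disjoint (hloc k) (localOn_circ 0 (4 ^ (k + 1))).compl,
        Pool.Agent.H83.SK.Pr_compl (localOn_circ 0 (4 ^ (k + 1))), pow_succ (1 - c)]
      · refine mul_le_mul (ih fun m hm => h m (by omega)) ?_ ?_ (pow_nonneg (by linarith) _)
        · linarith [h (k + 1) le_rfl]
        · have : Pool.Agent.H83.SK.Pr q (Circ 0 (4 ^ (k + 1))) ≤ 1 := Pool.Agent.H83.SK.Pr_le_one
          linarith
      · refine Pool.Agent.H83.SK.disj_hull_of (S := ball 0 (4 ^ (k + 1))) ?_ ?_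
        · intro e he
          obtain ⟨m, hm, hem⟩ := Finset.mem_biUnion.1 he
          rw [mem_eCirc] at hem
          have hm' : 3 * 4 ^ m ≤ 4 ^ (k + 1) := by
            have h1 : 4 ^ m ≤ 4 ^ k := Nat.pow_le_pow_right (by norm_num)
              (by have := Finset.mem_range.1 hm; omega)
            rw [pow_succ]
            omega
          exact ⟨ball_mono 0 hm' hem.1.1, ball_mono 0 hm' hem.2.1⟩
        · intro e he
          rw [mem_eCirc] at he
          exact ⟨he.1.2, he.2.2⟩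
  refine le_trans ?_ (key k h)
  refine Pool.Agent.H83.SK.Pr_mono ?_
  intro ω hω m hm hcirc
  have h4 : 1 ≤ 4 ^ m := Nat.one_le_pow _ _ (by norm_num)
  have h5 : 4 ^ m ≤ 4 ^ k := Nat.pow_le_pow_right (by norm_num) hm
  exact notMem_A4_of_circ h4 (by omega) hcirc hω

theorem A4_sub_armBox (r : ℕ) : A4 0 r ⊆ ArmBox 0 1 r := by
  rintro ω ⟨a, -, ha, -, ⟨u, hu, h1⟩, -, -⟩
  exact ⟨a, ha.mem_ball le_rfl, u, hu, h1.mono le_rfl closeV_le⟩

theorem a4_unif {pc : I} (hpc : ∃ c : ℝ, 0 < c ∧ ∀ n, SReg c n pc) :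
    ∀ ε : ℝ, 0 < ε → ∃ r : ℕ, 1 ≤ r ∧ ∀ q : I, a4 q r ≤ ε := by
  obtain ⟨c, hc, hreg⟩ := hpc
  intro ε hε
  obtain ⟨c₁, hc₁, hcirc⟩ := Pool.Agent.H83.SK.circ_lower c hc 1
  obtain ⟨C, κ, hC, hκ, harm⟩ := Pool.Agent.H83.SK.armBox_decay c hc 1
  have hcirc' : ∀ m : ℕ, c₁ ≤ Pool.Agent.H83.SK.Pr pc (Circ 0 (4 ^ m)) := fun m =>
    hcirc (4 ^ m) pc (Nat.one_le_pow _ _ (by norm_num)) (hreg _) 0 (4 ^ m)
      (Nat.one_le_pow _ _ (by norm_num)) (by omega)
  have hc1 : c₁ ≤ 1 := (hcirc' 0).trans Pool.Agent.H83.SK.Pr_le_one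
  -- the choice of the scales
  have h1 : Tendsto (fun k : ℕ => (1 - c₁) ^ (k + 1)) atTop (𝓝 0) :=
    (tendsto_pow_atTop_nhds_zero_of_lt_one (by linarith) (by linarith)).comp
      (tendsto_add_atTop_nat 1)
  obtain ⟨k, hk⟩ := (h1.eventually (gt_mem_nhds hε)).exists
  have h2 : Tendsto (fun r : ℕ => C * ((1 : ℝ) / r) ^ κ) atTop (𝓝 0) := by
    have h3 : Tendsto (fun r : ℕ => (1 : ℝ) / r) atTop (𝓝 0) := tendsto_one_div_atTop_nhds_zero_nat
    have h4 := (h3.rpow_const (Or.inr hκ.le)).const_mul C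
    rw [Real.zero_rpow hκ.ne', mul_zero] at h4
    exact h4
  obtain ⟨r, hr1, hr2⟩ := ((h2.eventually (gt_mem_nhds hε)).and
    (eventually_ge_atTop (3 * 4 ^ k))).exists
  have h4k : 1 ≤ 4 ^ k := Nat.one_le_pow _ _ (by norm_num)
  refine ⟨r, by omega, fun q => ?_⟩
  rcases le_total q pc with hq | hq
  · have h5 : a4 q r ≤ Pool.Agent.H83.SK.Pr q (ArmBox 0 1 r) :=
      Pool.Agent.H83.SK.Pr_mono (A4_sub_armBox r)
    have h6 : Pool.Agent.H83.SK.Pr q (ArmBox 0 1 r) ≤ Pool.Agent.H83.SK.Pr pc (ArmBox 0 1 r) :=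
      Pool.Agent.H83.SK.Pr_mono_param (localOn_armBox 0 1 r) (incr_armBox 0 1 r) hq
    have h7 := harm r pc (by omega) (hreg r) 0 1 r le_rfl (by omega) (by omega)
    rw [Nat.cast_one] at h7
    exact (h5.trans (h6.trans h7)).trans hr1.le
  · refine (a4_le_circ q hr2 hc1 fun m _ => ?_).trans hk.le
    exact (hcirc' m).trans
      (Pool.Agent.H83.SK.Pr_mono_param (localOn_circ 0 (4 ^ m)) (incr_circ 0 (4 ^ m)) hq)

end Pool.Agent.H92.SN
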