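import Pool.Agent.H92.SN.TSym

/-!
# The connection of the neighbours of a site
-/

set_option autoImplicit false

open MeasureTheory ProbabilityTheory unitInterval Filter Topology

namespace Pool.Agent.H92.SN

open Pool.Agent.H89.Perc
open Pool.Agent.H61.NC (modE PrR' hasDerivAt_PrR_eq)
open Pool.Agent.H83.SK (sv sit)

theorem Dn_mono {S T : Set Vert} (h : S ⊆ T) (v : Vert) (i : ℕ) : Dn S v i ⊆ Dn T v i := by
  rintro ω ⟨j, hj, hc⟩
  exact ⟨j, hj, hc.mono_set h⟩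

theorem incr_Dn (S : Set Vert) (v : Vert) (i : ℕ) : Incr (Dn S v i) := by
  rintro ω ω' h ⟨j, hj, hc⟩
  exact ⟨j, hj, hc.mono le_rfl (closeV_mono h)⟩

theorem Dn_congr {S : Set Vert} {v : Vert} {i : ℕ} {ω ω' : Config}
    (h : ∀ e, src e ∈ S → tgt e ∈ S → ω e = ω' e) (hω : ω ∈ Dn S v i) : ω' ∈ Dn S v i := by
  obtain ⟨j, hj, hc⟩ := hω
  exact ⟨j, hj, hc.congr fun e h1 h2 => closeV_congr (h e h1 h2)⟩

theorem localOn_Dn_ball (v : Vert) (r i : ℕ) :
    LocalOn (eRect (v.1 - r) (v.1 + r) (v.2 - r) (v.2 + r)) (Dn (ball v r) v i) := by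
  intro ω ω' h hω
  exact Dn_congr (fun e h1 _ => h e (mem_eRect.2 h1)) hω

theorem localOn_sitDn (v : Vert) (r i : ℕ) :
    LocalOn (sBall v r) {w | sit w ∈ Dn (ball v r) v i} := by
  intro w w' h hw
  exact Dn_congr (fun e h1 h2 => sit_congr_ball h h1 h2) hw

theorem nb_shift (v z : Vert) (i : ℕ) : nb (v.1 + z.1, v.2 + z.2) i =
    ((nb v i).1 + z.1, (nb v i).2 + z.2) := by
  rcases i with _ | _ | _ | i <;> simp only [nb] <;> ext <;> (simp only; try ring)

private theorem tau_shift (v : Vert) (r i : ℕ) :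
    {ω : Config | (fun f => ω (shiftE v f)) ∈ Dn (ball 0 r) 0 i} = Dn (ball v r) v i := by
  have hb : {w : Vert | (w.1 - v.1, w.2 - v.2) ∈ ball (0 : Vert) r} = ball v r := by
    ext w
    simp only [Set.mem_ofPred_eq, mem_ball, Prod.fst_zero, Prod.snd_zero]
    omega
  have hv : ((0 : Vert).1 + v.1, (0 : Vert).2 + v.2) = v := by simp
  have hn : ∀ j, ((nb (0 : Vert) j).1 + v.1, (nb (0 : Vert) j).2 + v.2) = nb v j := by
    intro j
    rw [← nb_shift, hv]
  ext ω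
  simp only [Dn, Set.mem_ofPred_eq]
  constructor
  · rintro ⟨j, hj, hc⟩
    rw [closeV_shift, conn_shift, hb, hv, hn, hn] at hc
    exact ⟨j, hj, hc⟩
  · rintro ⟨j, hj, hc⟩
    refine ⟨j, hj, ?_⟩
    rw [closeV_shift, conn_shift, hb, hv, hn, hn]
    exact hc

/-- The finite volume version of the summands of `tau`. -/
noncomputable def tl (i m : ℕ) (q : I) : ℝ := Pool.Agent.H83.SK.Pr q (Dn (ball 0 m) 0 i)

theorem Pr_Dn_ball (q : I) (v : Vert) (m i : ℕ) :
    Pool.Agent.H83.SK.Pr q (Dn (ball v m) v i) = tl i m q := by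
  rw [← tau_shift v m i, Pool.Agent.H83.SK.Pr_comp (localOn_Dn_ball 0 m i)
    (Pool.Agent.H83.SK.isAut_shift v), tl]

theorem conn_ball_of_univ {ω : Config} {u v : Vert} (z : Vert) (h : Conn ω Set.univ u v) :
    ∃ m : ℕ, Conn ω (ball z m) u v := by
  refine h.induction_right (P := fun w => ∃ m : ℕ, Conn ω (ball z m) u w) ?_ ?_
  · refine ⟨(u.1 - z.1).natAbs + (u.2 - z.2).natAbs, Conn.refl ?_⟩
    rw [mem_ball]
    omega
  · rintro a b _ hs ⟨m, hm⟩
    have hb : ball z m ⊆ ball z (m + 1) := by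
      intro w hw
      rw [mem_ball] at hw ⊢
      omega
    have ha := hm.mem_right
    have h1 := hs.fst_le
    have h2 := hs.symm.fst_le
    have h3 := hs.snd_le
    obtain ⟨-, -, f, hf, ho⟩ := hs
    refine ⟨m + 1, (hm.mono_set hb).tail ⟨hb ha, ?_, f, hf, ho⟩⟩
    rw [mem_ball] at ha ⊢
    omega

theorem ball_mono (v : Vert) {r r' : ℕ} (h : r ≤ r') : ball v r ⊆ ball v r' := by
  intro w hw
  rw [mem_ball] at hw ⊢
  omega

theorem Dn_univ_eq (v : Vert) (i : ℕ) : Dn Set.univ v i = ⋃ m : ℕ, Dn (ball v m) v i := by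
  ext ω
  rw [Set.mem_iUnion]
  constructor
  · rintro ⟨j, hj, hc⟩
    obtain ⟨m, hm⟩ := conn_ball_of_univ v hc
    exact ⟨m, j, hj, hm⟩
  · rintro ⟨m, hm⟩
    exact Dn_mono (Set.subset_univ _) v i hm

theorem Dn_univ_tendsto (q : I) (v : Vert) (i : ℕ) :
    Tendsto (fun m => tl i m q) atTop (𝓝 (Pool.Agent.H83.SK.Pr q (Dn Set.univ v i))) := by
  have hm : Monotone (fun m : ℕ => {w : Config | sit w ∈ Dn (ball v m) v i}) := by
    intro a b hab w hw
    exact Dn_mono (ball_mono v hab) v i hw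
  have h := tendsto_measure_iUnion_atTop (μ := μ q) hm
  have he : (⋃ m : ℕ, {w : Config | sit w ∈ Dn (ball v m) v i}) =
      {w | sit w ∈ Dn Set.univ v i} := by
    rw [Dn_univ_eq]
    ext w
    simp only [Set.mem_iUnion, Set.mem_ofPred_eq]
  rw [he] at h
  have h2 := (ENNReal.tendsto_toReal (measure_ne_top (μ q) {w | sit w ∈ Dn Set.univ v i})).comp h
  refine h2.congr fun m => ?_
  rw [← Pr_Dn_ball q v m i]
  rfl

theorem Pr_Dn_univ (q : I) (v : Vert) (i : ℕ) : Pool.Agent.H83.SK.Pr q (Dn Set.univ v i) =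
    Pool.Agent.H83.SK.Pr q (Dn Set.univ 0 i) :=
  tendsto_nhds_unique (Dn_univ_tendsto q v i) (Dn_univ_tendsto q 0 i)

theorem tl_le (i m : ℕ) (q : I) : tl i m q ≤ Pool.Agent.H83.SK.Pr q (Dn Set.univ 0 i) :=
  Pool.Agent.H83.SK.Pr_mono (Dn_mono (Set.subset_univ _) _ _)

theorem tl_mono_param (i m : ℕ) {p q : I} (h : p ≤ q) : tl i m p ≤ tl i m q :=
  Pool.Agent.H83.SK.Pr_mono_param (localOn_Dn_ball 0 m i) (incr_Dn _ _ _) h

theorem Pr_Dn_mono_param (i : ℕ) {p q : I} (h : p ≤ q) :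
    Pool.Agent.H83.SK.Pr p (Dn Set.univ 0 i) ≤ Pool.Agent.H83.SK.Pr q (Dn Set.univ 0 i) :=
  le_of_tendsto_of_tendsto' (Dn_univ_tendsto p 0 i) (Dn_univ_tendsto q 0 i) fun m =>
    tl_mono_param i m h

theorem tau_nonneg (q : I) : 0 ≤ tau q :=
  Finset.sum_nonneg fun _ _ => Pool.Agent.H83.SK.Pr_nonneg

theorem tau_le_three (q : I) : tau q ≤ 3 := by
  have : tau q ≤ ∑ i ∈ Finset.Icc 1 3, (1 : ℝ) :=
    Finset.sum_le_sum fun _ _ => Pool.Agent.H83.SK.Pr_le_one
  simpa using this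

theorem tau_mono {p q : I} (h : p ≤ q) : tau p ≤ tau q :=
  Finset.sum_le_sum fun i _ => Pr_Dn_mono_param i h

/-- A connection between two vertices of a ball which is not realised inside the ball. -/
lemma reach_sphere {ω : Config} {z : Vert} {r : ℕ} {u v : Vert} (h : Conn ω Set.univ u v)
    (hu : u ∈ ball z r) (hn : ¬ Conn ω (ball z r) u v) :
    ∃ x ∈ sphere z r, Conn ω (ball z r) u x := by
  obtain ⟨w, w', h1, h2, h3, -⟩ := h.exists_exit (T := {w | Conn ω (ball z r) u w})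
    (Conn.refl hu) hn
  have h4 : Conn ω (ball z r) u w := h1.mem_right.2
  have h5 : w' ∉ ball z r := by
    intro h6
    apply h3
    obtain ⟨-, -, g, g1, g2⟩ := h2
    exact h4.tail ⟨h4.mem_right, h6, g, g1, g2⟩
  have h6 : Conn ω Set.univ u w' := (h1.mono_set (Set.subset_univ _)).tail h2
  obtain ⟨x, hx, hc⟩ := h6.to_sphere hu (Or.inl h5)
  exact ⟨x, hx, hc.mono_set Set.inter_subset_right⟩

theorem Dn_sub (v : Vert) {r : ℕ} (hr : 1 ≤ r) (i : ℕ) :
    Dn Set.univ v i ⊆ Dn (ball v r) v i ∪ A4 v r := by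
  rintro ω ⟨j, hj, hc⟩
  by_cases h0 : Conn (closeV v ω) (ball v r) (nb v j) (nb v i)
  · exact Or.inl ⟨j, hj, h0⟩
  · exact Or.inr ⟨nb v j, nb v i, nb_Nb v j, nb_Nb v i,
      reach_sphere hc ((nb_Nb v j).mem_ball hr) h0,
      reach_sphere hc.symm ((nb_Nb v i).mem_ball hr) fun h => h0 h.symm, h0⟩

/-- Comparison with the finite volume. -/
theorem tl_near (q : I) {r : ℕ} (hr : 1 ≤ r) (i : ℕ) :
    Pool.Agent.H83.SK.Pr q (Dn Set.univ 0 i) ≤ tl i r q + a4 q r := by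
  rw [← Pr_A4 q 0 r]
  exact (Pool.Agent.H83.SK.Pr_mono (Dn_sub 0 hr i)).trans Pool.Agent.H83.SK.Pr_union_le

theorem tl_continuous (i m : ℕ) : Continuous (tl i m) := by
  have hloc := localOn_sitDn 0 m i
  have h1 : tl i m = fun q : I => PrR (sBall 0 m) {w | sit w ∈ Dn (ball 0 m) 0 i} (q : ℝ) := by
    funext q
    rw [← Pr_eq_PrR hloc]
    rfl
  rw [h1]
  rw [continuous_iff_continuousAt]
  intro q
  exact (hasDerivAt_PrR_eq hloc q).continuousAt.comp continuous_subtype_val.continuousAt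

/-- Continuity of `tau` from the uniform decay of the four-arm probability. -/
theorem tau_continuous (hU : ∀ ε : ℝ, 0 < ε → ∃ r : ℕ, 1 ≤ r ∧ ∀ q : I, a4 q r ≤ ε) :
    Continuous tau := by
  refine continuous_finsetSum _ fun i _ => ?_
  refine continuous_of_uniform_approx_of_continuous (fun u hu => ?_)
  obtain ⟨ε, hε, hεu⟩ := Metric.mem_uniformity_dist.1 hu
  obtain ⟨r, hr, h⟩ := hU (ε / 2) (half_pos hε)
  refine ⟨tl i r, tl_continuous i r, fun q => hεu ?_⟩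
  have h1 := tl_near q hr i
  have h2 := tl_le i r q
  have h3 := h q
  rw [Real.dist_eq, abs_lt]
  constructor <;> linarith

end Pool.Agent.H92.SN
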