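import Pool.Agent.H92.SN.A4B

/-!
# The winding event of the torus and its translation invariance
-/

set_option autoImplicit false

open MeasureTheory ProbabilityTheory unitInterval

namespace Pool.Agent.H92.SN

open Pool.Agent.H89.Perc
open Pool.Agent.H61.NC (fill mid upd Joint PrR' dist0)
open Pool.Agent.H83.SK (sv sit)

/-- The configuration on the torus determines the induced periodic configuration. -/
theorem sit_per_congr {N : ℕ} (hN : 1 ≤ N) {w w' : Config} (h : ∀ e ∈ tSites N, w e = w' e) :
    sit (per N w) = sit (per N w') := by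
  have hN' : (0 : ℤ) < N := by exact_mod_cast hN
  have key : ∀ v : Vert, per N w (sv v) = per N w' (sv v) := by
    intro v
    refine h _ ?_
    rw [mem_tSites]
    exact ⟨⟨Int.emod_nonneg _ hN'.ne', Int.emod_lt_of_pos _ hN'⟩,
      ⟨Int.emod_nonneg _ hN'.ne', Int.emod_lt_of_pos _ hN'⟩, rfl⟩
  funext e
  simp only [sit]
  rw [key, key]

theorem localOn_WindS {N : ℕ} (hN : 1 ≤ N) : LocalOn (tSites N) (WindS N) := by
  rintro w w' h ⟨u, a, b, ha, hc⟩
  exact ⟨u, a, b, ha, sit_per_congr hN h ▸ hc⟩

theorem incr_WindS (N : ℕ) : Incr (WindS N) := by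
  rintro w w' h ⟨u, a, b, ha, hc⟩
  exact ⟨u, a, b, ha, hc.mono le_rfl (Pool.Agent.H83.SK.sit_mono fun e he => h _ he)⟩

theorem cE_mem {N : ℕ} (hN : 1 ≤ N) : cE N ∈ tSites N := by
  rw [mem_tSites]
  simp only [cE, mid, and_true]
  omega

theorem sv_cV (N : ℕ) : sv (cV N) = cE N := rfl

theorem card_tSites (N : ℕ) : ((tSites N).card : ℝ) = (N : ℝ) ^ 2 := by
  unfold tSites
  rw [Finset.card_product, Finset.card_product, Finset.card_singleton, Int.card_Ico]
  simp only [sub_zero, Int.toNat_natCast, mul_one]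
  push_cast
  ring

theorem sit_shiftE (z : Vert) (ω : Config) :
    sit (fun f => ω (shiftE z f)) = fun f => sit ω (shiftE z f) := by
  funext f
  obtain ⟨x, y, t⟩ := f
  cases t
  · simp only [sit, sv, src, tgt, shiftE, Bool.false_eq_true, if_false]
    rw [show x + 1 + z.1 = x + z.1 + 1 by ring]
  · simp only [sit, sv, src, tgt, shiftE, if_true]
    rw [show y + 1 + z.2 = y + z.2 + 1 by ring]

/-- Translations of the torus. -/
theorem windS_tau (N : ℕ) (z : Vert) (w : Config) :
    (fun f => w (torusSym_tau N z f)) ∈ WindS N ↔ w ∈ WindS N := by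
  constructor
  · rintro ⟨u, a, b, ha, hc⟩
    rw [torusSym_per, sit_shiftE, conn_shift] at hc
    refine ⟨(u.1 + z.1, u.2 + z.2), a, b, ha, ?_⟩
    have h := hc.mono_set (Set.subset_univ _)
    convert h using 2
    · simp only; ring
    · simp only; ring
  · rintro ⟨u, a, b, ha, hc⟩
    refine ⟨(u.1 - z.1, u.2 - z.2), a, b, ha, ?_⟩
    rw [torusSym_per, sit_shiftE, conn_shift]
    have h1 : {w : Vert | (w.1 - z.1, w.2 - z.2) ∈ (Set.univ : Set Vert)} = Set.univ := by
      ext w; simp
    rw [h1]
    convert hc using 2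
    · simp
    · simp
    · simp only; ring
    · simp only; ring

theorem tau_injOn (N : ℕ) (z : Vert) : Set.InjOn (torusSym_tau N z) (tSites N) :=
  (torusSym_tau_injOn N z).mono (by
    intro e he
    exact tSites_sub N he)

private theorem tSym_mem_upd {A : Set Config} {e f : Edge} {a b : Bool} {w : Config} :
    w ∈ upd (upd A e a) f b ↔ Function.update (Function.update w f b) e a ∈ A := Iff.rfl

private theorem tSym_upd {N : ℕ} (hN : 1 ≤ N) (z : Vert) {e f : Edge} (he : e ∈ tSites N)
    (hf : f ∈ tSites N) (a b : Bool) (w : Config) :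
    (fun x => w (torusSym_tau N z x)) ∈ upd (upd (WindS N) e a) f b ↔
      w ∈ upd (upd (WindS N) (torusSym_tau N z e) a) (torusSym_tau N z f) b := by
  rw [tSym_mem_upd, tSym_mem_upd, ← windS_tau N z
    (Function.update (Function.update w (torusSym_tau N z f) b) (torusSym_tau N z e) a)]
  have key : ∀ x ∈ tSites N,
      Function.update (Function.update w (torusSym_tau N z f) b) (torusSym_tau N z e) a
        (torusSym_tau N z x) =
      Function.update (Function.update (fun x => w (torusSym_tau N z x)) f b) e a x := by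
    intro x hx
    by_cases hxe : x = e
    · subst hxe
      rw [Function.update_self, Function.update_self]
    · have h2 : torusSym_tau N z x ≠ torusSym_tau N z e := fun h =>
        hxe (tau_injOn N z hx he h)
      rw [Function.update_of_ne h2, Function.update_of_ne hxe]
      by_cases hxf : x = f
      · subst hxf
        rw [Function.update_self, Function.update_self]
      · have h3 : torusSym_tau N z x ≠ torusSym_tau N z f := fun h =>
          hxf (tau_injOn N z hx hf h)
        rw [Function.update_of_ne h3, Function.update_of_ne hxf]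
  exact ⟨fun h1 => localOn_WindS hN _ _ (fun x hx => (key x hx).symm) h1,
    fun h1 => localOn_WindS hN _ _ key h1⟩

theorem localOn_Joint {s : Finset Edge} {A : Set Config} (hA : LocalOn s A) (e f : Edge) :
    LocalOn s (Joint A e f) := by
  have hl : ∀ (A : Set Config), LocalOn s A → ∀ (e : Edge) (b : Bool),
      LocalOn s (upd A e b) := by
    intro A hA e b ω ω' h hω
    refine hA _ _ (fun x hx => ?_) hω
    by_cases hxe : x = e
    · subst hxe; simp
    · rw [Function.update_of_ne hxe, Function.update_of_ne hxe]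
      exact h x hx
  have hl2 : ∀ (a b : Bool), LocalOn s (upd (upd A e a) f b) := fun a b =>
    hl _ (hl _ hA e a) f b
  unfold Joint
  rw [Set.sdiff_eq, Set.sdiff_eq]
  exact ((hl2 _ _).inter ((hl2 _ _).union (hl2 _ _)).compl).union
    (((hl2 _ _).inter (hl2 _ _)).inter (hl2 _ _).compl)

private theorem tSym_joint {N : ℕ} (hN : 1 ≤ N) (q : I) (z : Vert) {e f : Edge}
    (he : e ∈ tSites N) (hf : f ∈ tSites N) :
    Pr q (Joint (WindS N) (torusSym_tau N z e) (torusSym_tau N z f)) =
      Pr q (Joint (WindS N) e f) := by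
  rw [← Pr_comp (localOn_Joint (localOn_WindS hN) e f) (tau_injOn N z)]
  congr 1
  ext ω
  have h := fun a b => tSym_upd hN z he hf a b ω
  unfold Joint
  rw [Set.mem_ofPred_eq]
  simp only [Set.mem_union, Set.mem_sdiff, Set.mem_inter_iff, h]

theorem tau_mem {N : ℕ} (hN : 1 ≤ N) (z : Vert) {e : Edge} (he : e.2.2 = false) :
    torusSym_tau N z e ∈ tSites N := by
  have hN' : (0 : ℤ) < N := by exact_mod_cast hN
  rw [mem_tSites]
  exact ⟨⟨Int.emod_nonneg _ hN'.ne', Int.emod_lt_of_pos _ hN'⟩,
      ⟨Int.emod_nonneg _ hN'.ne', Int.emod_lt_of_pos _ hN'⟩, he⟩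

theorem tau_cE {N : ℕ} {e : Edge} (he : e ∈ tSites N) :
    torusSym_tau N (e.1 - mid N, e.2.1 - mid N) (cE N) = e := by
  rw [mem_tSites] at he
  obtain ⟨x, y, d⟩ := e
  simp only at he
  simp only [torusSym_tau, cE, Prod.mk.injEq]
  refine ⟨?_, ?_, he.2.2.symm⟩
  · rw [show mid N + (x - mid N) = x by ring, Int.emod_eq_of_lt he.1.1 he.1.2]
  · rw [show mid N + (y - mid N) = y by ring, Int.emod_eq_of_lt he.2.1.1 he.2.1.2]

private theorem tSym_image {N : ℕ} (hN : 1 ≤ N) (z : Vert) :
    (tSites N).image (torusSym_tau N z) = tSites N := by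
  refine Finset.eq_of_subset_of_card_le ?_ ?_
  · intro x hx
    obtain ⟨y, hy, rfl⟩ := Finset.mem_image.1 hx
    exact tau_mem hN z (mem_tSites.1 hy).2.2
  · rw [Finset.card_image_of_injOn (tau_injOn N z)]

private theorem tSym_update {N : ℕ} (hN : 1 ≤ N) (q : I) {e : Edge} (he : e ∈ tSites N)
    (b : Bool) : Pr q {w | Function.update w e b ∈ WindS N} =
      Pr q {w | Function.update w (cE N) b ∈ WindS N} := by
  have hloc : LocalOn (tSites N) {w | Function.update w (cE N) b ∈ WindS N} := by
    intro ω ω' hω h1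
    refine localOn_WindS hN _ _ (fun f hf => ?_) h1
    by_cases hfe : f = cE N
    · subst hfe; simp
    · simp only [Function.update_of_ne hfe]; exact hω f hf
  set z : Vert := (e.1 - mid N, e.2.1 - mid N) with hz
  have hτ : torusSym_tau N z (cE N) = e := tau_cE he
  rw [← Pr_comp hloc (tau_injOn N z)]
  congr 1
  ext ω
  simp only [Set.mem_ofPred_eq]
  rw [← windS_tau N z (Function.update ω e b)]
  have key : ∀ f ∈ tSites N, Function.update ω e b (torusSym_tau N z f) =
      Function.update (fun f => ω (torusSym_tau N z f)) (cE N) b f := by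
    intro f hf
    by_cases hfe : f = cE N
    · subst hfe
      rw [hτ]; simp
    · have h2 : torusSym_tau N z f ≠ e := by
        intro h3
        rw [← hτ] at h3
        exact hfe (tau_injOn N z hf (cE_mem hN) h3)
      rw [Function.update_of_ne h2, Function.update_of_ne hfe]
  exact ⟨fun h1 => localOn_WindS hN _ _ key h1,
    fun h1 => localOn_WindS hN _ _ (fun f hf => (key f hf).symm) h1⟩

theorem pivot_windS {N : ℕ} (hN : 1 ≤ N) (q : I) {e : Edge} (he : e ∈ tSites N) :
    pivot q (WindS N) e = sT q N := by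
  unfold sT pivot
  rw [tSym_update hN q he true, tSym_update hN q he false]

theorem sum_pivot {N : ℕ} (hN : 1 ≤ N) (q : I) :
    ∑ e ∈ tSites N, pivot q (WindS N) e = (N : ℝ) ^ 2 * sT q N := by
  rw [Finset.sum_congr rfl fun e he => pivot_windS hN q he, Finset.sum_const, nsmul_eq_mul,
    card_tSites]

theorem pivot_nonneg_of_incr {A : Set Config} (iA : Incr A) (q : I) (e : Edge) :
    0 ≤ pivot q A e := by
  unfold pivot
  rw [sub_nonneg]
  refine Pr_mono ?_
  intro ω hω
  refine iA _ _ ?_ hω
  intro f hf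
  by_cases h : f = e
  · subst h; simp
  · rw [Function.update_of_ne h] at hf ⊢
    exact hf

theorem sT_nonneg (q : I) (N : ℕ) : 0 ≤ sT q N := pivot_nonneg_of_incr (incr_WindS N) q _

/-- The sum over pairs is a sum over pairs with first site in the middle. -/
theorem sum_joint {N : ℕ} (hN : 1 ≤ N) (q : I) :
    ∑ e ∈ tSites N, ∑ f ∈ (tSites N).erase e, Pr q (Joint (WindS N) e f) =
      (N : ℝ) ^ 2 * ∑ f ∈ (tSites N).erase (cE N), Pr q (Joint (WindS N) (cE N) f) := by
  rw [← card_tSites, ← nsmul_eq_mul, ← Finset.sum_const]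
  refine Finset.sum_congr rfl fun e he => ?_
  set z : Vert := (e.1 - mid N, e.2.1 - mid N) with hz
  have hτ : torusSym_tau N z (cE N) = e := tau_cE he
  symm
  refine Finset.sum_bij (fun f _ => torusSym_tau N z f) ?_ ?_ ?_ ?_
  · intro f hf
    rw [Finset.mem_erase] at hf ⊢
    refine ⟨fun h => hf.1 ?_, tau_mem hN z (mem_tSites.1 hf.2).2.2⟩
    refine tau_injOn N z hf.2 (cE_mem hN) ?_
    rw [h, hτ]
  · intro f hf f' hf' h
    exact tau_injOn N z (Finset.mem_of_mem_erase hf) (Finset.mem_of_mem_erase hf') h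
  · intro f hf
    rw [Finset.mem_erase] at hf
    have h1 : f ∈ (tSites N).image (torusSym_tau N z) := by rw [tSym_image hN z]; exact hf.2
    obtain ⟨g, hg, hgf⟩ := Finset.mem_image.1 h1
    refine ⟨g, Finset.mem_erase.2 ⟨fun h => hf.1 ?_, hg⟩, hgf⟩
    rw [← hgf, h, hτ]
  · intro f hf
    have h1 := tSym_joint hN q z (cE_mem hN) (Finset.mem_of_mem_erase hf)
    rw [hτ] at h1
    exact h1.symm

theorem fill_mem {s : Finset Edge} {b : Bool} {ω : Config} {e : Edge} (h : e ∈ s) :
    fill s b ω e = b := by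
  classical
  unfold fill
  rw [if_pos h]

theorem fill_notMem {s : Finset Edge} {b : Bool} {ω : Config} {e : Edge}
    (h : e ∉ s) : fill s b ω e = ω e := by
  classical
  unfold fill
  rw [if_neg h]

/-- The block event depends only on the sites outside the block. -/
theorem localOn_BlockPiv {N : ℕ} (hN : 1 ≤ N) (R : ℕ) :
    LocalOn (tSites N \ blkS N R) (BlockPiv N R) := by
  intro ω ω' h hω
  have key : ∀ b, ∀ e ∈ tSites N, fill (blkS N R) b ω e = fill (blkS N R) b ω' e := by
    intro b e he
    by_cases hb : e ∈ blkS N R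
    · rw [fill_mem hb, fill_mem hb]
    · rw [fill_notMem hb, fill_notMem hb]
      exact h e (Finset.mem_sdiff.2 ⟨he, hb⟩)
  exact ⟨localOn_WindS hN _ _ (key true) hω.1,
    fun h' => hω.2 (localOn_WindS hN _ _ (fun e he => (key false e he).symm) h')⟩

theorem BlockPiv_mono {N r r' : ℕ} (h : r ≤ r') : BlockPiv N r ⊆ BlockPiv N r' := by
  have hsub : ∀ e, e ∈ blkS N r → e ∈ blkS N r' := by
    intro e he
    rw [mem_blkS] at he ⊢
    exact ⟨⟨by omega, by omega⟩, ⟨by omega, by omega⟩, he.2.2⟩
  intro w hw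
  constructor
  · refine incr_WindS N _ _ (fun x hx => ?_) hw.1
    by_cases hxb : x ∈ blkS N r'
    · exact fill_mem hxb
    · rw [fill_notMem hxb]
      rwa [fill_notMem fun h' => hxb (hsub x h')] at hx
  · intro h'
    refine hw.2 (incr_WindS N _ _ (fun x hx => ?_) h')
    by_cases hxb : x ∈ blkS N r'
    · rw [fill_mem hxb] at hx
      exact absurd hx (by decide)
    · rw [fill_notMem hxb] at hx
      rwa [fill_notMem fun h' => hxb (hsub x h')]

end Pool.Agent.H92.SN
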