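import Pool.Agent.H83.SK.Base
import Pool.Agent.H29.Sep.Iface
import Pool.Agent.H61.NC.Second

/-!
# Near-critical site percolation: definitions and interfaces

Four-arm events are sets of bond configurations (used for `sit w`), torus events are sets of site
configurations. `a4 q r` is the probability that the origin has two neighbours which are joined to
distance `r` by open paths avoiding the origin and which are not joined to each other by such a
path.
-/

set_option autoImplicit false

open MeasureTheory ProbabilityTheory unitInterval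

namespace Pool.Agent.H92.SN

open Pool.Agent.H89.Perc Pool.Agent.H61.NC
open Pool.Agent.H83.SK (sv sit)

/-- Box-crossing regime for site percolation. -/
abbrev SReg := Pool.Agent.H83.SK.RSWreg

/-- The site `v` is closed. -/
def shut (v : Vert) (w : Config) : Config := Function.update w (sv v) false

/-- Close the edges at the vertex `v`. -/
def closeV (v : Vert) (ω : Config) : Config := fun e => ω e && decide (src e ≠ v ∧ tgt e ≠ v)

/-- `a` is a neighbour of `v`. -/
def Nb (v a : Vert) : Prop := ∃ e, Joins e v a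

/-- Four-arm event of the site `v`, for the induced bond configuration: two neighbours of `v` are
joined to the sphere of radius `r` around `v` and not joined to each other, off `v`, inside the
ball. -/
def A4 (v : Vert) (r : ℕ) : Set Config :=
  {ω | ∃ a b, Nb v a ∧ Nb v b ∧ (∃ u ∈ sphere v r, Conn (closeV v ω) (ball v r) a u) ∧
    (∃ u ∈ sphere v r, Conn (closeV v ω) (ball v r) b u) ∧ ¬ Conn (closeV v ω) (ball v r) a b}

/-- Four-arm probability. -/
noncomputable def a4 (q : I) (r : ℕ) : ℝ := Pool.Agent.H83.SK.Pr q (A4 0 r)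

/-- Sites of the torus. -/
noncomputable def tSites (N : ℕ) : Finset Edge :=
  Finset.Ico (0 : ℤ) N ×ˢ Finset.Ico (0 : ℤ) N ×ˢ {false}

/-- There is an open path on the torus which winds around it horizontally (site percolation). -/
def WindS (N : ℕ) : Set Config :=
  {w | ∃ (u : Vert) (a b : ℤ), a ≠ 0 ∧ Conn (sit (per N w)) Set.univ u (u.1 + a * N, u.2 + b * N)}

/-- The site in the middle of the torus, as a vertex. -/
def cV (N : ℕ) : Vert := (mid N, mid N)

/-- The site in the middle of the torus. -/
def cE (N : ℕ) : Edge := (mid N, mid N, false)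

/-- The influence of a site on the winding event. -/
noncomputable def sT (q : I) (N : ℕ) : ℝ := pivot q (WindS N) (cE N)

/-- The block of radius `r` in the middle of the torus. -/
noncomputable def blkS (N r : ℕ) : Finset Edge :=
  Finset.Icc (mid N - r) (mid N + r) ×ˢ Finset.Icc (mid N - r) (mid N + r) ×ˢ {false}

/-- The block of radius `r` is pivotal for the winding event. -/
def BlockPiv (N r : ℕ) : Set Config :=
  {w | fill (blkS N r) true w ∈ WindS N ∧ fill (blkS N r) false w ∉ WindS N}

/-- The four-arm event of a site of the torus. -/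
def A4T (N : ℕ) (v : Vert) (r : ℕ) : Set Config := {w | sit (per N w) ∈ A4 v r}

/-- The derivative of the winding probability. -/
noncomputable def FT' (N : ℕ) (q : I) : ℝ := PrR' (tSites N) (WindS N) (q : ℝ)

/-! ### Interfaces -/

/-- Separation and gluing on the torus. -/
def GLTorus : Prop :=
  ∀ c : ℝ, 0 < c → ∃ C : ℝ, 0 < C ∧ ∀ (N r : ℕ) (q : I), 1 ≤ r → 64 * r ≤ N →
    SReg c N q → a4 q r * Pr q (BlockPiv N (16 * r)) ≤ C * sT q N

/-- Block OSSS on the torus, lower bound. -/
def BlockLow : Prop :=
  ∀ c : ℝ, 0 < c → ∃ C δ : ℝ, 0 < C ∧ 0 < δ ∧ ∀ (N r : ℕ) (q : I), 1 ≤ r → 4 * r ≤ N →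
    SReg c N q → ((r : ℝ) / N) ^ (2 - δ) ≤ C * Pr q (BlockPiv N r)

/-- Level-one inequality for blocks, upper bound. -/
def BlockUp : Prop :=
  ∀ c : ℝ, 0 < c → ∃ C δ : ℝ, 0 < C ∧ 0 < δ ∧ ∀ (N r : ℕ) (q : I), 1 ≤ r → 4 * r ≤ N →
    SReg c N q → Pr q (BlockPiv N r) ≤ C * ((r : ℝ) / N) ^ (1 + δ)

/-- Quasi-multiplicativity for the planar annulus. -/
def QMann : Prop :=
  ∀ c : ℝ, 0 < c → ∃ C : ℝ, 0 < C ∧ ∀ (n r R : ℕ) (q : I), 1 ≤ r → 16 * r ≤ R → 64 * R ≤ n →
    SReg c n q →
      a4 q r * Pool.Agent.H83.SK.Pr q (Pool.Agent.H29.Sep.A2 (16 * r) R) ≤ C * a4 q R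

/-- Regularity of the four-arm probability. -/
def RegA4 : Prop :=
  ∀ c : ℝ, 0 < c → ∃ C : ℝ, 0 < C ∧ ∀ (n r : ℕ) (q : I), 1 ≤ r → 64 * r ≤ n → SReg c n q →
    a4 q r ≤ C * a4 q (4 * r)

/-! ### The connection of the neighbours of a site -/

/-- The neighbours of `v`. -/
def nb (v : Vert) : ℕ → Vert
  | 0 => (v.1 + 1, v.2)
  | 1 => (v.1, v.2 + 1)
  | 2 => (v.1 - 1, v.2)
  | _ => (v.1, v.2 - 1)

/-- The `i`-th neighbour of `v` is joined to an earlier one off `v`, in `S` (bond
configurations). -/
def Dn (S : Set Vert) (v : Vert) (i : ℕ) : Set Config :=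
  {ω | ∃ j < i, Conn (closeV v ω) S (nb v j) (nb v i)}

/-- `E(N₀) = 4 p - tau p` is the expected number of open clusters adjacent to the origin (off the
origin). -/
noncomputable def tau (p : I) : ℝ := ∑ i ∈ Finset.Icc 1 3, Pool.Agent.H83.SK.Pr p (Dn Set.univ 0 i)

/-- `tau` as a function on the real line (`0` outside the unit interval). -/
noncomputable def tauR (x : ℝ) : ℝ := by
  classical exact if h : x ∈ I then tau ⟨x, h⟩ else 0

/-- The same event on the torus, for the site in the middle: in the periodic extension the `i`-th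
neighbour is joined to a translate of an earlier one, off the translates of the middle site. -/
def DT (N i : ℕ) : Set Config :=
  {w | ∃ j < i, ∃ a b : ℤ, Conn (sit (per N (shut (cV N) w))) Set.univ (nb (cV N) j)
    ((nb (cV N) i).1 + a * N, (nb (cV N) i).2 + b * N)}

/-- The torus version of `tau`. -/
noncomputable def tauT (N : ℕ) (q : I) : ℝ := ∑ i ∈ Finset.Icc 1 3, Pr q (DT N i)

end Pool.Agent.H92.SN
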