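import Pool.Agent.H92.SN.Defs
import Pool.Agent.H61.NC.A4Basic
import Pool.Agent.H90.AL.Dist

/-!
# Basic properties of the four-arm event of a site, in the plane and on the torus
-/

set_option autoImplicit false

open MeasureTheory ProbabilityTheory unitInterval

namespace Pool.Agent.H92.SN

open Pool.Agent.H89.Perc
open Pool.Agent.H61.NC (modE fill mid)
open Pool.Agent.H83.SK (sv sit)
open Pool.Agent.H90.AL (dT)

/-- The sites of the square with centre `v` and half side `r`. -/
noncomputable def sBall (v : Vert) (r : ℕ) : Finset Edge :=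
  Finset.Icc (v.1 - r) (v.1 + r) ×ˢ Finset.Icc (v.2 - r) (v.2 + r) ×ˢ {false}

theorem mem_tSites {N : ℕ} {e : Edge} :
    e ∈ tSites N ↔ (0 ≤ e.1 ∧ e.1 < N) ∧ (0 ≤ e.2.1 ∧ e.2.1 < N) ∧ e.2.2 = false := by
  simp only [tSites, Finset.mem_product, Finset.mem_Ico, Finset.mem_singleton]

theorem mem_blkS {N r : ℕ} {e : Edge} : e ∈ blkS N r ↔
    (mid N - r ≤ e.1 ∧ e.1 ≤ mid N + r) ∧ (mid N - r ≤ e.2.1 ∧ e.2.1 ≤ mid N + r) ∧
      e.2.2 = false := by
  simp only [blkS, Finset.mem_product, Finset.mem_Icc, Finset.mem_singleton]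

theorem mem_sBall {v : Vert} {r : ℕ} {e : Edge} :
    e ∈ sBall v r ↔ src e ∈ ball v r ∧ e.2.2 = false := by
  simp only [sBall, Finset.mem_product, Finset.mem_Icc, Finset.mem_singleton, mem_ball, src]
  tauto

theorem sv_src {e : Edge} (h : e.2.2 = false) : sv (src e) = e := by
  obtain ⟨x, y, t⟩ := e
  simp only at h
  subst h
  rfl

theorem src_sv (v : Vert) : src (sv v) = v := rfl

theorem sv_ne {u v : Vert} (h : u ≠ v) : sv u ≠ sv v :=
  fun h' => h (Pool.Agent.H83.SK.sv_injective h')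

theorem tSites_sub (N : ℕ) : tSites N ⊆ tEdges N := by
  intro e he
  rw [mem_tSites] at he
  simp only [tEdges, Finset.mem_product, Finset.mem_Ico, Finset.mem_univ, and_true]
  exact ⟨he.1, he.2.1⟩

/-- The induced configuration with the site `v` closed. -/
theorem sit_shut (v : Vert) (w : Config) : sit (shut v w) = closeV v (sit w) := by
  funext e
  simp only [sit, shut, closeV]
  by_cases h1 : src e = v
  · subst h1
    simp
  · by_cases h2 : tgt e = v
    · subst h2
      simp
    · rw [Function.update_of_ne (sv_ne h1), Function.update_of_ne (sv_ne h2)]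
      simp [h1, h2]

theorem closeV_mono {v : Vert} {ω ω' : Config} (h : ∀ e, ω e = true → ω' e = true) :
    ∀ e, closeV v ω e = true → closeV v ω' e = true := by
  intro e he
  simp only [closeV, Bool.and_eq_true] at he ⊢
  exact ⟨h e he.1, he.2⟩

theorem closeV_le {v : Vert} {ω : Config} : ∀ e, closeV v ω e = true → ω e = true := by
  intro e he
  simp only [closeV, Bool.and_eq_true] at he
  exact he.1

theorem closeV_congr {v : Vert} {e : Edge} {ω ω' : Config} (h : ω e = ω' e) :
    closeV v ω e = closeV v ω' e := by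
  unfold closeV
  rw [h]

/-- A site configuration determines the induced configuration inside a ball. -/
theorem sit_congr_ball {w w' : Config} {v : Vert} {r : ℕ} (h : ∀ e ∈ sBall v r, w e = w' e)
    {e : Edge} (h1 : src e ∈ ball v r) (h2 : tgt e ∈ ball v r) : sit w e = sit w' e := by
  have k1 : sv (src e) ∈ sBall v r := mem_sBall.2 ⟨by rw [src_sv]; exact h1, rfl⟩
  have k2 : sv (tgt e) ∈ sBall v r := mem_sBall.2 ⟨by rw [src_sv]; exact h2, rfl⟩
  simp only [sit]
  rw [h _ k1, h _ k2]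

private theorem a4B_local {v : Vert} {r : ℕ} {ω ω' : Config}
    (h : ∀ e, src e ∈ ball v r → tgt e ∈ ball v r → ω e = ω' e) (hω : ω ∈ A4 v r) :
    ω' ∈ A4 v r := by
  have key : ∀ x y, Conn (closeV v ω) (ball v r) x y → Conn (closeV v ω') (ball v r) x y :=
    fun x y hc => hc.congr fun e h1 h2 => closeV_congr (h e h1 h2)
  have key' : ∀ x y, Conn (closeV v ω') (ball v r) x y → Conn (closeV v ω) (ball v r) x y :=
    fun x y hc => hc.congr fun e h1 h2 => closeV_congr (h e h1 h2).symm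
  obtain ⟨a, b, ha, hb, ⟨u, hu, h1⟩, ⟨u', hu', h2⟩, h3⟩ := hω
  exact ⟨a, b, ha, hb, ⟨u, hu, key _ _ h1⟩, ⟨u', hu', key _ _ h2⟩, fun h4 => h3 (key' _ _ h4)⟩

theorem localOn_A4 (v : Vert) (r : ℕ) :
    LocalOn (eRect (v.1 - r) (v.1 + r) (v.2 - r) (v.2 + r)) (A4 v r) := by
  intro ω ω' h hω
  exact a4B_local (fun e h1 _ => h e (mem_eRect.2 h1)) hω

theorem localOn_sitA4 (v : Vert) (r : ℕ) : LocalOn (sBall v r) {w | sit w ∈ A4 v r} := by
  intro w w' h hw
  exact a4B_local (fun e h1 h2 => sit_congr_ball h h1 h2) hw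

theorem Nb.cases {v a : Vert} (h : Nb v a) : a = (v.1 + 1, v.2) ∨ a = (v.1, v.2 + 1) ∨
    a = (v.1 - 1, v.2) ∨ a = (v.1, v.2 - 1) := by
  obtain ⟨e, h | h⟩ := h
  · obtain ⟨h1, h2⟩ := h
    subst h1 h2
    obtain ⟨x, y, t⟩ := e
    cases t
    · left; simp [src, tgt]
    · right; left; simp [src, tgt]
  · obtain ⟨h1, h2⟩ := h
    subst h1 h2
    obtain ⟨x, y, t⟩ := e
    cases t
    · right; right; left; simp [src, tgt]
    · right; right; right; simp [src, tgt]

theorem nb_Nb (v : Vert) (i : ℕ) : Nb v (nb v i) := by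
  rcases i with _ | _ | _ | i
  · exact ⟨(v.1, v.2, false), Or.inl ⟨rfl, by simp [tgt, nb]⟩⟩
  · exact ⟨(v.1, v.2, true), Or.inl ⟨rfl, by simp [tgt, nb]⟩⟩
  · exact ⟨(v.1 - 1, v.2, false), Or.inr ⟨by simp [tgt], by simp [src, nb]⟩⟩
  · exact ⟨(v.1, v.2 - 1, true), Or.inr ⟨by simp [tgt], by simp [src, nb]⟩⟩

theorem Nb.exists_nb {v a : Vert} (h : Nb v a) : ∃ i < 4, a = nb v i := by
  rcases h.cases with h | h | h | h
  · exact ⟨0, by norm_num, h⟩
  · exact ⟨1, by norm_num, h⟩
  · exact ⟨2, by norm_num, h⟩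
  · exact ⟨3, by norm_num, h⟩

theorem Nb.mem_ball {v a : Vert} (h : Nb v a) {r : ℕ} (hr : 1 ≤ r) : a ∈ ball v r := by
  rcases h.cases with h | h | h | h <;> subst h <;>
    simp only [Pool.Agent.H89.Perc.mem_ball] <;> omega

theorem Nb.ne {v a : Vert} (h : Nb v a) : a ≠ v := by
  rintro rfl
  rcases h.cases with h | h | h | h
  · have := congrArg Prod.fst h; simp at this
  · have := congrArg Prod.snd h; simp at this
  · have := congrArg Prod.fst h; simp only at this; omega
  · have := congrArg Prod.snd h; simp only at this; omega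

theorem Nb.shift {v a : Vert} (h : Nb v a) (z : Vert) :
    Nb (v.1 + z.1, v.2 + z.2) (a.1 + z.1, a.2 + z.2) := by
  obtain ⟨e, he⟩ := h
  exact ⟨shiftE z e, joins_shift z he⟩

theorem Step.nb {ω : Config} {S : Set Vert} {u v : Vert} (h : Step ω S u v) : Nb u v :=
  ⟨h.2.2.choose, h.2.2.choose_spec.1⟩

theorem A4_anti {v : Vert} {r r' : ℕ} (h1 : 1 ≤ r) (h : r ≤ r') : A4 v r' ⊆ A4 v r := by
  rcases h.eq_or_lt with h0 | h0
  · subst h0; exact le_rfl
  have hsub : ball v r ⊆ ball v r' := by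
    intro w hw
    simp only [Pool.Agent.H89.Perc.mem_ball] at hw ⊢
    omega
  have hout : ∀ u ∈ sphere v r', u ∉ ball v r := by
    rintro u ⟨hu1, hu2⟩ hu3
    simp only [Pool.Agent.H89.Perc.mem_ball] at hu1 hu3
    omega
  rintro ω ⟨a, b, ha, hb, ⟨u, hu, h2⟩, ⟨u', hu', h3⟩, h4⟩
  obtain ⟨x, hx, hcx⟩ := h2.to_sphere (v := v) (r := r) (ha.mem_ball h1) (Or.inl (hout u hu))
  obtain ⟨x', hx', hcx'⟩ := h3.to_sphere (v := v) (r := r) (hb.mem_ball h1)
    (Or.inl (hout u' hu'))
  exact ⟨a, b, ha, hb, ⟨x, hx, hcx.mono_set Set.inter_subset_right⟩,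
    ⟨x', hx', hcx'.mono_set Set.inter_subset_right⟩, fun h5 => h4 (h5.mono_set hsub)⟩

theorem closeV_shift (v z : Vert) (ω : Config) : closeV v (fun f => ω (shiftE z f)) =
    fun f => closeV (v.1 + z.1, v.2 + z.2) ω (shiftE z f) := by
  funext f
  have h1 : ∀ w : Vert, (w.1 + z.1, w.2 + z.2) = (v.1 + z.1, v.2 + z.2) ↔ w = v := by
    intro w
    simp only [Prod.mk.injEq, add_left_inj, Prod.ext_iff]
  have h2 : src (shiftE z f) = ((src f).1 + z.1, (src f).2 + z.2) := rfl
  have h3 : tgt (shiftE z f) = ((tgt f).1 + z.1, (tgt f).2 + z.2) := by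
    obtain ⟨x, y, t⟩ := f
    cases t
    · simp only [tgt, shiftE]
      ext <;> (simp; try ring)
    · simp only [tgt, shiftE]
      ext <;> (simp; try ring)
  simp only [closeV]
  rw [h2, h3]
  simp only [ne_eq, h1]

private theorem a4B_shift (v : Vert) (r : ℕ) :
    {ω : Config | (fun f => ω (shiftE v f)) ∈ A4 0 r} = A4 v r := by
  have hb : {w : Vert | (w.1 - v.1, w.2 - v.2) ∈ ball (0 : Vert) r} = ball v r := by
    ext w
    simp only [Set.mem_ofPred_eq, Pool.Agent.H89.Perc.mem_ball, Prod.fst_zero, Prod.snd_zero]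
    omega
  have key : ∀ (ω : Config) (a b : Vert),
      Conn (closeV 0 (fun f => ω (shiftE v f))) (ball (0 : Vert) r) a b ↔
      Conn (closeV v ω) (ball v r) (a.1 + v.1, a.2 + v.2) (b.1 + v.1, b.2 + v.2) := by
    intro ω a b
    rw [closeV_shift, conn_shift, hb]
    simp
  have hex : ∀ (ω : Config) (a : Vert),
      (∃ u ∈ sphere (0 : Vert) r, Conn (closeV 0 (fun f => ω (shiftE v f))) (ball 0 r) a u) ↔
      ∃ u ∈ sphere v r, Conn (closeV v ω) (ball v r) (a.1 + v.1, a.2 + v.2) u := by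
    intro ω a
    constructor
    · rintro ⟨u, hu, hc⟩
      refine ⟨(u.1 + v.1, u.2 + v.2), ?_, (key ω a u).1 hc⟩
      obtain ⟨hu1, hu2⟩ := hu
      simp only [sphere, Set.mem_ofPred_eq, Pool.Agent.H89.Perc.mem_ball, Prod.fst_zero,
        Prod.snd_zero] at hu1 hu2 ⊢
      omega
    · rintro ⟨u, hu, hc⟩
      refine ⟨(u.1 - v.1, u.2 - v.2), ?_, (key ω a _).2 (by simpa using hc)⟩
      obtain ⟨hu1, hu2⟩ := hu
      simp only [sphere, Set.mem_ofPred_eq, Pool.Agent.H89.Perc.mem_ball, Prod.fst_zero,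
        Prod.snd_zero] at hu1 hu2 ⊢
      omega
  ext ω
  simp only [A4, Set.mem_ofPred_eq]
  constructor
  · rintro ⟨a, b, ha, hb', h1, h2, h3⟩
    refine ⟨(a.1 + v.1, a.2 + v.2), (b.1 + v.1, b.2 + v.2), ?_, ?_, (hex ω a).1 h1,
      (hex ω b).1 h2, fun h => h3 ((key ω a b).2 h)⟩
    · simpa using ha.shift v
    · simpa using hb'.shift v
  · rintro ⟨a, b, ha, hb', h1, h2, h3⟩
    refine ⟨(a.1 - v.1, a.2 - v.2), (b.1 - v.1, b.2 - v.2), ?_, ?_, (hex ω _).2 (by simpa using h1),
      (hex ω _).2 (by simpa using h2), fun h => h3 (by simpa using (key ω _ _).1 h)⟩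
    · have := ha.shift (-v)
      have e0 : (0 : Vert) = (0, 0) := rfl
      rw [e0]
      simpa [sub_eq_add_neg] using this
    · have := hb'.shift (-v)
      have e0 : (0 : Vert) = (0, 0) := rfl
      rw [e0]
      simpa [sub_eq_add_neg] using this

/-- The four-arm probability does not depend on the site. -/
theorem Pr_A4 (q : I) (v : Vert) (r : ℕ) : Pool.Agent.H83.SK.Pr q (A4 v r) = a4 q r := by
  rw [← a4B_shift v r, Pool.Agent.H83.SK.Pr_comp (localOn_A4 0 r)
    (Pool.Agent.H83.SK.isAut_shift v), a4]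

theorem a4_nonneg (q : I) (r : ℕ) : 0 ≤ a4 q r := Pool.Agent.H83.SK.Pr_nonneg

theorem a4_le_one (q : I) (r : ℕ) : a4 q r ≤ 1 := Pool.Agent.H83.SK.Pr_le_one

theorem a4_anti (q : I) {r r' : ℕ} (h1 : 1 ≤ r) (h : r ≤ r') : a4 q r' ≤ a4 q r :=
  Pool.Agent.H83.SK.Pr_mono (A4_anti h1 h)

theorem pow_le_closed (q : I) {m : ℝ} (hm : 0 ≤ m) (h : m ≤ 1 - (q : ℝ)) (s : Finset Edge) :
    m ^ s.card ≤ Pr q {w | ∀ e ∈ s, w e = false} := by
  classical
  induction s using Finset.induction_on with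
  | empty =>
    have : {w : Config | ∀ e ∈ (∅ : Finset Edge), w e = false} = Set.univ := by
      ext w; simp
    rw [this, Pr_univ]
    simp
  | @insert a s ha ih =>
    have hloc : LocalOn (insert a s) {w : Config | ∀ e ∈ insert a s, w e = false} := by
      intro w w' h' hw e he
      rw [← h' e he]
      exact hw e he
    have hne : ∀ e ∈ s, e ≠ a := fun e he hea => ha (hea ▸ he)
    have hup : {w : Config | Function.update w a false ∈
        {w : Config | ∀ e ∈ insert a s, w e = false}} = {w | ∀ e ∈ s, w e = false} := by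
      ext w
      simp only [Set.mem_ofPred_eq, Finset.mem_insert, forall_eq_or_imp, Function.update_self,
        true_and]
      constructor
      · intro h' e he
        have := h' e he
        rwa [Function.update_of_ne (hne e he)] at this
      · intro h' e he
        rw [Function.update_of_ne (hne e he)]
        exact h' e he
    rw [Pr_eq_update hloc a, Finset.card_insert_of_notMem ha, pow_succ, hup]
    have h3 : 0 ≤ Pr q {w | Function.update w a true ∈
        {w : Config | ∀ e ∈ insert a s, w e = false}} := Pr_nonneg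
    have h4 : 0 ≤ (q : ℝ) * Pr q {w | Function.update w a true ∈
        {w : Config | ∀ e ∈ insert a s, w e = false}} := mul_nonneg q.2.1 h3
    have h5 : m * m ^ s.card ≤ (1 - (q : ℝ)) * Pr q {w | ∀ e ∈ s, w e = false} :=
      mul_le_mul h ih (by positivity) (by linarith [q.2.2])
    linarith

/-- All sites of the square of half side `1` are closed. -/
theorem a4_one (q : I) {m : ℝ} (hm : 0 ≤ m) (h : m ≤ 1 - (q : ℝ)) : m ^ 9 ≤ a4 q 1 := by
  have hcard : (sBall 0 1).card = 9 := by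
    simp [sBall]
  have hle := pow_le_closed q hm h (sBall 0 1)
  rw [hcard] at hle
  refine hle.trans (Pr_mono ?_)
  intro w hw
  have hno : ∀ x y, ¬ Step (closeV 0 (sit w)) (ball (0 : Vert) 1) x y := by
    rintro x y ⟨h1, h2, e, he, ho⟩
    have ho' := closeV_le e ho
    have hs : src e ∈ ball (0 : Vert) 1 := by
      rcases he with ⟨h3, _⟩ | ⟨_, h3⟩
      · rw [← h3]; exact h1
      · rw [← h3]; exact h2
    rw [Pool.Agent.H83.SK.sit_true] at ho'
    have := hw (sv (src e)) (mem_sBall.2 ⟨by rw [src_sv]; exact hs, rfl⟩)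
    rw [ho'.1] at this
    exact absurd this (by decide)
  have hball : ∀ x : Vert, x ∈ ball (0 : Vert) 1 ↔
      (-1 ≤ x.1 ∧ x.1 ≤ 1 ∧ -1 ≤ x.2 ∧ x.2 ≤ 1) := by
    intro x
    simp only [Pool.Agent.H89.Perc.mem_ball, Prod.fst_zero, Prod.snd_zero, Nat.cast_one, zero_sub,
      zero_add]
  refine ⟨(1, 0), (0, 1), ⟨(0, 0, false), Or.inl ⟨rfl, by simp [tgt]⟩⟩,
    ⟨(0, 0, true), Or.inl ⟨rfl, by simp [tgt]⟩⟩, ⟨(1, 0), ?_, ?_⟩, ⟨(0, 1), ?_, ?_⟩, ?_⟩
  · exact ⟨(hball _).2 (by norm_num), Or.inr (Or.inl (by simp))⟩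
  · exact Conn.refl ((hball _).2 (by norm_num))
  · exact ⟨(hball _).2 (by norm_num), Or.inr (Or.inr (Or.inr (by simp)))⟩
  · exact Conn.refl ((hball _).2 (by norm_num))
  · intro hc
    have : ((0 : ℤ), (1 : ℤ)) = ((1 : ℤ), (0 : ℤ)) :=
      hc.induction_right (P := fun x => x = ((1 : ℤ), (0 : ℤ))) rfl
        fun a b _ hab _ => absurd hab (hno a b)
    simp at this

theorem localOn_A4T (N : ℕ) (v : Vert) (r : ℕ) :
    LocalOn ((sBall v r).image (modE N)) (A4T N v r) := by
  intro w w' h hw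
  refine localOn_sitA4 v r _ _ (fun e he => ?_) hw
  exact h _ (Finset.mem_image_of_mem (modE N) he)

theorem localOn_A4T' {N : ℕ} (hN : 1 ≤ N) (v : Vert) (r : ℕ) :
    LocalOn ((tSites N).filter fun g => dT N (src g) v ≤ r) (A4T N v r) := by
  refine (localOn_A4T N v r).mono ?_
  intro g hg
  rw [Finset.mem_image] at hg
  obtain ⟨e, he, rfl⟩ := hg
  rw [mem_sBall] at he
  have h1 := Pool.Agent.H90.AL.modE_mem hN e
  rw [Pool.Agent.H90.AL.mem_tEdges_iff] at h1
  rw [Finset.mem_filter, mem_tSites]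
  refine ⟨⟨h1.1, h1.2, ?_⟩, ?_⟩
  · exact he.2
  · obtain ⟨a, b, h⟩ := Pool.Agent.H90.AL.src_modE (N := N) e
    exact Pool.Agent.H90.AL.dT_le_of hN a b (by rw [h]; exact he.1)

private theorem a4B_int {N : ℕ} {a b c : ℤ} {r : ℕ} (h : 2 * r < N) (ha1 : c - r ≤ a)
    (ha2 : a ≤ c + r) (hb1 : c - r ≤ b) (hb2 : b ≤ c + r) (hab : a % N = b % N) : a = b := by
  have h1 : (N : ℤ) ∣ a - b := Int.ModEq.dvd (show b ≡ a [ZMOD N] from hab.symm)
  have h2 : |a - b| < N := by
    rw [abs_lt]
    constructor <;> omega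
  have h3 := Int.eq_zero_of_abs_lt_dvd h1 h2
  omega

theorem modE_injOn_sBall {N : ℕ} (v : Vert) {r : ℕ} (h : 2 * r < N) :
    Set.InjOn (modE N) (sBall v r) := by
  intro e he e' he' hee
  rw [Finset.mem_coe, mem_sBall] at he he'
  simp only [src, Pool.Agent.H89.Perc.mem_ball] at he he'
  simp only [modE, Prod.mk.injEq] at hee
  obtain ⟨x, y, d⟩ := e
  obtain ⟨x', y', d'⟩ := e'
  simp only at he he' hee
  obtain ⟨hx, hy, hd⟩ := hee
  rw [a4B_int h he.1.1 he.1.2.1 he'.1.1 he'.1.2.1 hx,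
    a4B_int h he.1.2.2.1 he.1.2.2.2 he'.1.2.2.1 he'.1.2.2.2 hy, hd]

theorem Pr_A4T (q : I) {N : ℕ} (v : Vert) {r : ℕ} (h : 2 * r < N) :
    Pr q (A4T N v r) = a4 q r := by
  rw [← Pr_A4 q v r]
  unfold Pool.Agent.H83.SK.Pr
  rw [← Pr_comp (localOn_sitA4 v r) (modE_injOn_sBall v h)]
  rfl

/-- The density in the box-crossing regime is bounded away from `0` and `1`. -/
theorem sreg_mem {c : ℝ} (hc : 0 < c) {n : ℕ} (hn : 1 ≤ n) {q : I} (h : SReg c n q) :
    c / 10 ≤ (q : ℝ) ∧ c / 10 ≤ 1 - (q : ℝ) := by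
  obtain ⟨h1, h2⟩ := h 1 le_rfl hn
  have k1 : ∀ e : Edge, Pr q {w | w e = true} = q := by
    intro e
    have hloc : LocalOn {e} {w : Config | w e = true} := by
      intro w w' h' hw
      rw [Set.mem_ofPred_eq, ← h' e (Finset.mem_singleton_self e)]
      exact hw
    rw [Pr_eq_update hloc e]
    have e1 : {w : Config | Function.update w e true ∈ {w : Config | w e = true}} = Set.univ := by
      ext w; simp
    have e2 : {w : Config | Function.update w e false ∈ {w : Config | w e = true}} = ∅ := by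
      ext w; simp
    rw [e1, e2, Pr_univ]
    simp [Pool.Agent.H89.Perc.Pr]
  have k2 : ∀ e : Edge, Pr q {w | w e = false} = 1 - q := by
    intro e
    have hloc : LocalOn {e} {w : Config | w e = false} := by
      intro w w' h' hw
      rw [Set.mem_ofPred_eq, ← h' e (Finset.mem_singleton_self e)]
      exact hw
    rw [Pr_eq_update hloc e]
    have e1 : {w : Config | Function.update w e true ∈ {w : Config | w e = false}} = ∅ := by
      ext w; simp
    have e2 : {w : Config | Function.update w e false ∈ {w : Config | w e = false}} =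
        Set.univ := by
      ext w; simp
    rw [e1, e2, Pr_univ]
    simp [Pool.Agent.H89.Perc.Pr]
  constructor
  · have h3 : Pool.Agent.H83.SK.Pr q {ω | HCross ω 0 (4 * (1 : ℕ)) 0 (1 : ℕ)} ≤
        Pr q ({w | w (0, 0, false) = true} ∪ {w | w (0, 1, false) = true}) := by
      refine Pr_mono ?_
      rintro w ⟨u, v, hu, hv, hc'⟩
      have huv : u ≠ v := by
        rintro rfl
        rw [hu] at hv
        simp at hv
      obtain ⟨w1, w2, -, hst, -, -⟩ := hc'.exists_exit (T := {u}) rfl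
        (by simpa using Ne.symm huv)
      have hmem := hc'.mem_left
      obtain ⟨x, x', h4, h5, h6, -⟩ := hc'.exists_exit (T := {u}) rfl (by simpa using Ne.symm huv)
      have hx : x = u := h4.mem_right.2
      subst hx
      obtain ⟨-, -, e, he, ho⟩ := h5
      rw [Pool.Agent.H83.SK.sit_true] at ho
      have hopen : w (sv x) = true := by
        rcases he with ⟨h7, -⟩ | ⟨h7, -⟩
        · rw [h7]; exact ho.1
        · rw [h7]; exact ho.2
      simp only [rect, Set.mem_ofPred_eq] at hmem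
      obtain ⟨a, b⟩ := x
      simp only at hu hmem
      subst hu
      have hb : b = 0 ∨ b = 1 := by
        have := hmem.2.2.1
        have := hmem.2.2.2
        push_cast at this
        omega
      rcases hb with hb | hb
      · left
        subst hb
        exact hopen
      · right
        subst hb
        exact hopen
    have h4 := Pr_union_le (p := q) (A := {w : Config | w (0, 0, false) = true})
      (B := {w : Config | w (0, 1, false) = true})
    rw [k1, k1] at h4
    have := q.2.1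
    linarith
  · have h3 : Pool.Agent.H83.SK.Pr q {ω | ¬ VCross ω 0 (4 * (1 : ℕ)) 0 (1 : ℕ)} ≤
        Pr q ({w | w (0, 0, false) = false} ∪ {w | w (0, 1, false) = false}) := by
      refine Pr_mono ?_
      intro w hw
      by_contra hno
      simp only [Set.mem_union, Set.mem_ofPred_eq, not_or, Bool.not_eq_false] at hno
      apply hw
      refine ⟨(0, 0), (0, 1), rfl, by simp, Step.conn ⟨?_, ?_, (0, 0, true), Or.inl ⟨rfl, ?_⟩, ?_⟩⟩
      · simp [rect]
      · simp [rect]
      · simp [tgt]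
      · rw [Pool.Agent.H83.SK.sit_true]
        exact ⟨hno.1, by simpa [tgt, sv] using hno.2⟩
    have h4 := Pr_union_le (p := q) (A := {w : Config | w (0, 0, false) = false})
      (B := {w : Config | w (0, 1, false) = false})
    rw [k2, k2] at h4
    have := q.2.2
    linarith

theorem sreg_anti {c : ℝ} {n m : ℕ} {q : I} (h : SReg c n q) (hm : m ≤ n) : SReg c m q :=
  Pool.Agent.H83.SK.rswreg_mono h hm

end Pool.Agent.H92.SN
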