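import Pool.Agent.H92.SN.Ret

/-!
# A pivotal site for the winding event has four arms
-/

set_option autoImplicit false

open MeasureTheory ProbabilityTheory unitInterval

namespace Pool.Agent.H92.SN

open Pool.Agent.H89.Perc
open Pool.Agent.H83.SK (sv sit)

/-- If there are no four arms then all neighbours which reach the sphere are joined. -/
theorem noFour_of_notMem {N : ℕ} {v : Vert} (hv : sv v ∈ tSites N) {r : ℕ} (hN : 2 * r < N)
    {w : Config} (h : w ∉ A4T N v r) :
    NoFour v r (sit (per N (Function.update w (sv v) false)))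
      (sit (per N (Function.update w (sv v) true))) := by
  have key : ∀ x y, Conn (sit (per N (Function.update w (sv v) false))) (ball v r) x y ↔
      Conn (closeV v (sit (per N w))) (ball v r) x y := by
    intro x y
    exact ⟨fun h => h.congr fun e h1 h2 => sit_per_ball hN hv w h1 h2,
      fun h => h.congr fun e h1 h2 => (sit_per_ball hN hv w h1 h2).symm⟩
  rintro p q hp hq ⟨u, hu, h1⟩ ⟨u', hu', h2⟩
  by_contra h3
  apply h
  rw [key] at h1 h2 h3
  exact ⟨p, q, Step.nb hp, Step.nb hq, ⟨u, hu, h1⟩, ⟨u', hu', h2⟩, h3⟩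

theorem A4T_of_pivot {N : ℕ} {v : Vert} (hv : sv v ∈ tSites N) {r : ℕ} (hr : 1 ≤ r)
    (hN : 2 * r + 2 ≤ N) {w : Config} (h1 : Function.update w (sv v) true ∈ WindS N)
    (h2 : Function.update w (sv v) false ∉ WindS N) : w ∈ A4T N v r := by
  by_contra h
  obtain ⟨u, a, b, ha, hc⟩ := h1
  obtain ⟨u', hc'⟩ := wind_of_noFour hr hN (addSite_sit hv w)
    (noFour_of_notMem hv (by omega) h) (Or.inl ha) hc
  exact h2 ⟨u', a, b, ha, hc'⟩

end Pool.Agent.H92.SN
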