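import Mathlib

/-!
# Analysis: first-order expansion from linear approximations at all dyadic scales
-/

set_option autoImplicit false

open Filter Topology

namespace Pool.Agent.H92.SN

/-- `hup` and `hlow` with powers of `q = 2 ^ (-δ)`. -/
private theorem dyad_pow {δ : ℝ} (j n : ℕ) :
    (2 : ℝ) ^ (-((1 + δ) * (((j + n : ℕ) : ℝ) - j))) = ((2 : ℝ) ^ (-δ) / 2) ^ n ∧
    (2 : ℝ) ^ ((2 - δ) * (((j + n : ℕ) : ℝ) - j)) = (4 * (2 : ℝ) ^ (-δ)) ^ n := by
  have e1 : (((j + n : ℕ) : ℝ) - j) = n := by push_cast; ring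
  have h2 : (0 : ℝ) < 2 := by norm_num
  rw [e1]
  constructor
  · have : (2 : ℝ) ^ (-δ) / 2 = (2 : ℝ) ^ (-(1 + δ)) := by
      rw [show -(1 + δ) = -δ - 1 by ring, Real.rpow_sub h2, Real.rpow_one]
    rw [this, ← Real.rpow_natCast, ← Real.rpow_mul h2.le]
    congr 1
    ring
  · have : 4 * (2 : ℝ) ^ (-δ) = (2 : ℝ) ^ (2 - δ) := by
      rw [show 2 - δ = 2 + -δ by ring, Real.rpow_add h2]
      norm_num
    rw [this, ← Real.rpow_natCast, ← Real.rpow_mul h2.le]

/-- The core of `dyad` with integer powers. -/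
private theorem dyad_core {f : ℝ → ℝ} (hf0 : f 0 = 0) {a w S b : ℕ → ℝ} {C c q : ℝ} {k₀ : ℕ}
    (hc : 0 < c) (hC : 0 < C) (hq : 0 < q) (hq1 : q < 1)
    (ha : ∀ k, 0 < a k) (hanti : ∀ k, a (k + 1) ≤ a k)
    (hw : ∀ k, w k = c / ((4 : ℝ) ^ k * a k))
    (hS : ∀ k, S k = ∑ i ∈ Finset.range (k + 1), (16 : ℝ) ^ i * a i ^ 3)
    (hup : ∀ j n : ℕ, a (j + n) ≤ C * (q / 2) ^ n * a j)
    (hlow : ∀ j n : ℕ, a j ≤ C * (4 * q) ^ n * a (j + n))
    (h : ∀ k, k₀ ≤ k → ∀ t : ℝ, |t| ≤ w k → |f t - b k * t| ≤ C * (a k + t ^ 2 * S k)) :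
    ∃ β C' : ℝ, 0 < C' ∧ HasDerivAt f β 0 ∧
      ∀ k, k₀ ≤ k → ∀ t : ℝ, |t| ≤ w k → |f t - β * t| ≤ C' * (a k + |t| * (w k * S k)) := by
  have hw0 : ∀ k, 0 < w k := by
    intro k
    rw [hw]
    have := ha k
    positivity
  have hwa : ∀ k, w k * (4 ^ k * a k) = c := by
    intro k
    rw [hw]
    have := ha k
    field_simp
  have hS0 : ∀ k, 0 < S k := by
    intro k
    rw [hS]
    refine Finset.sum_pos (fun i _ => ?_) ⟨0, by simp⟩
    have := ha i
    positivity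
  -- the ratio of consecutive windows
  have hw4 : ∀ k, w k ≤ 4 * w (k + 1) := by
    intro k
    have h1 := ha k
    have h2 := ha (k + 1)
    rw [hw, hw, pow_succ]
    rw [show 4 * (c / ((4 : ℝ) ^ k * 4 * a (k + 1))) = c / ((4 : ℝ) ^ k * a (k + 1)) by
      field_simp]
    refine div_le_div_of_nonneg_left hc.le (by positivity) ?_
    exact mul_le_mul_of_nonneg_left (hanti k) (by positivity)
  have hwq : ∀ j n : ℕ, w (j + n) ≤ C * q ^ n * w j := by
    intro j n
    have h1 := ha j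
    have h2 := ha (j + n)
    have h3 := hlow j n
    rw [hw, hw, div_le_iff₀ (by positivity)]
    have e : C * q ^ n * (c / (4 ^ j * a j)) * (4 ^ (j + n) * a (j + n)) =
        c * ((C * (4 * q) ^ n * a (j + n)) / a j) := by
      rw [pow_add, mul_pow]
      field_simp
    rw [e]
    have h4 : 1 ≤ (C * (4 * q) ^ n * a (j + n)) / a j := by
      rw [le_div_iff₀ h1]
      linarith
    nlinarith
  -- the quantity T = w S
  have hST : ∀ k, c * (4 ^ k * a k ^ 2) ≤ w k * S k := by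
    intro k
    have h1 : (16 : ℝ) ^ k * a k ^ 3 ≤ S k := by
      rw [hS, Finset.sum_range_succ]
      have : 0 ≤ ∑ i ∈ Finset.range k, (16 : ℝ) ^ i * a i ^ 3 :=
        Finset.sum_nonneg (fun i _ => by have := ha i; positivity)
      linarith
    have h2 := mul_le_mul_of_nonneg_left h1 (hw0 k).le
    refine le_trans (le_of_eq ?_) h2
    rw [← hwa k, show (16 : ℝ) = 4 * 4 by norm_num, mul_pow]
    ring
  have haT : ∀ k, a k ≤ w k * (w k * S k) / c ^ 2 := by
    intro k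
    rw [le_div_iff₀ (by positivity)]
    have h1 := mul_le_mul_of_nonneg_left (hST k) (hw0 k).le
    refine le_trans (le_of_eq ?_) h1
    have h2 := hwa k
    have : w k * (c * (4 ^ k * a k ^ 2)) = c * a k * (w k * (4 ^ k * a k)) := by ring
    rw [this, h2]
    ring
  have hS17 : ∀ k, S (k + 1) ≤ 17 * S k := by
    intro k
    have h1 : (16 : ℝ) ^ k * a k ^ 3 ≤ S k := by
      rw [hS, Finset.sum_range_succ]
      have : 0 ≤ ∑ i ∈ Finset.range k, (16 : ℝ) ^ i * a i ^ 3 :=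
        Finset.sum_nonneg (fun i _ => by have := ha i; positivity)
      linarith
    have h2 : S (k + 1) = S k + (16 : ℝ) ^ (k + 1) * a (k + 1) ^ 3 := by
      rw [hS, hS, Finset.sum_range_succ _ (k + 1)]
    have h3 : a (k + 1) ^ 3 ≤ a k ^ 3 := pow_le_pow_left₀ (ha _).le (hanti k) 3
    have h4 : (16 : ℝ) ^ (k + 1) * a (k + 1) ^ 3 ≤ 16 * (16 ^ k * a k ^ 3) := by
      rw [pow_succ]
      have h5 : (0 : ℝ) < 16 ^ k := by positivity
      nlinarith [mul_le_mul_of_nonneg_left h3 h5.le]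
    linarith
  -- step 1
  obtain ⟨C1, hC1, hb⟩ : ∃ C1 : ℝ, 0 < C1 ∧
      ∀ k, k₀ ≤ k → |b k - b (k + 1)| ≤ C1 * (w k * S k) := by
    refine ⟨C * (8 / c ^ 2 + 5), by positivity, fun k hk => ?_⟩
    have h1 := hw0 k
    set t : ℝ := w k / 4 with ht
    have ht0 : 0 < t := by positivity
    have ht1 : |t| ≤ w k := by rw [abs_of_pos ht0, ht]; linarith
    have ht2 : |t| ≤ w (k + 1) := by rw [abs_of_pos ht0, ht]; linarith [hw4 k]
    have h2 := h k hk t ht1
    have h3 := h (k + 1) (by omega) t ht2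
    have h4 : |b k - b (k + 1)| * t ≤ |f t - b k * t| + |f t - b (k + 1) * t| := by
      have : |b k - b (k + 1)| * t = |(f t - b (k + 1) * t) - (f t - b k * t)| := by
        rw [← abs_of_pos ht0, ← abs_mul, abs_of_pos ht0]
        congr 1
        ring
      rw [this]
      have := abs_sub (f t - b (k + 1) * t) (f t - b k * t)
      linarith
    have h5 : |b k - b (k + 1)| * t ≤ (C * (8 / c ^ 2 + 5) * (w k * S k)) * t := by
      refine h4.trans ((add_le_add h2 h3).trans ?_)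
      have h6 : a (k + 1) ≤ a k := hanti k
      have h7 := hS17 k
      have h8 := haT k
      have h9 : t ^ 2 * S (k + 1) ≤ t ^ 2 * (17 * S k) :=
        mul_le_mul_of_nonneg_left h7 (by positivity)
      have h10 : C * (a k + t ^ 2 * S k) + C * (a (k + 1) + t ^ 2 * S (k + 1)) ≤
          C * (2 * a k + 18 * (t ^ 2 * S k)) := by
        rw [← mul_add]
        refine mul_le_mul_of_nonneg_left ?_ hC.le
        linarith
      refine h10.trans ?_
      rw [mul_assoc, mul_assoc]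
      refine mul_le_mul_of_nonneg_left ?_ hC.le
      have h11 : w k * (w k * S k) / c ^ 2 = 4 * t * (w k * S k) / c ^ 2 := by
        rw [ht]; ring
      rw [h11] at h8
      have h12 : 18 * (t ^ 2 * S k) = 18 / 4 * ((w k * S k) * t) := by
        rw [ht]; ring
      rw [h12]
      have h13 : 0 < (w k * S k) * t := mul_pos (mul_pos h1 (hS0 k)) ht0
      have h14 : (8 / c ^ 2 + 5) * (w k * S k * t) =
          2 * (4 * t * (w k * S k) / c ^ 2) + 5 * (w k * S k * t) := by ring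
      rw [h14]
      linarith
    exact le_of_mul_le_mul_right h5 ht0
  -- step 2
  obtain ⟨C2, hC2, hT⟩ : ∃ C2 : ℝ, 0 < C2 ∧
      ∀ K n : ℕ, w (K + n) * S (K + n) ≤ C2 * (w K * S K) * q ^ n := by
    have h1q : 0 < 1 - q := by linarith
    refine ⟨C + C ^ 3 * (1 / (1 - q)), by positivity, fun K n => ?_⟩
    have hTK : 0 < w K * S K := mul_pos (hw0 K) (hS0 K)
    have e1 : S (K + n) = S K +
        ∑ m ∈ Finset.range n, (16 : ℝ) ^ (K + 1 + m) * a (K + 1 + m) ^ 3 := by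
      rw [hS, hS, show K + n + 1 = (K + 1) + n by ring, Finset.sum_range_add]
    have h1 : w (K + n) * S K ≤ C * q ^ n * (w K * S K) := by
      have := mul_le_mul_of_nonneg_right (hwq K n) (hS0 K).le
      linarith
    have h2 : ∀ m ∈ Finset.range n, w (K + n) * ((16 : ℝ) ^ (K + 1 + m) * a (K + 1 + m) ^ 3) ≤
        C ^ 3 * (w K * S K) * q ^ n * q ^ m := by
      intro m hm
      rw [Finset.mem_range] at hm
      obtain ⟨l, rfl⟩ : ∃ l, n = (1 + m) + l := ⟨n - (1 + m), by omega⟩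
      have h3 : w (K + (1 + m + l)) ≤ C * q ^ l * w (K + 1 + m) := by
        have := hwq (K + 1 + m) l
        rwa [show K + 1 + m + l = K + (1 + m + l) by ring] at this
      have ham := ha (K + 1 + m)
      have h4 : w (K + 1 + m) * ((16 : ℝ) ^ (K + 1 + m) * a (K + 1 + m) ^ 3) =
          c * (4 ^ (K + 1 + m) * a (K + 1 + m) ^ 2) := by
        rw [← hwa (K + 1 + m), show (16 : ℝ) = 4 * 4 by norm_num, mul_pow]
        ring
      have h5 : a (K + 1 + m) ≤ C * (q / 2) ^ (1 + m) * a K := by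
        have := hup K (1 + m)
        rwa [show K + (1 + m) = K + 1 + m by ring] at this
      have h6 : a (K + 1 + m) ^ 2 ≤ (C * (q / 2) ^ (1 + m) * a K) ^ 2 :=
        pow_le_pow_left₀ ham.le h5 2
      have h7 : (4 : ℝ) ^ (K + 1 + m) * a (K + 1 + m) ^ 2 ≤
          C ^ 2 * (q ^ (1 + m)) ^ 2 * (4 ^ K * a K ^ 2) := by
        refine (mul_le_mul_of_nonneg_left h6 (by positivity)).trans (le_of_eq ?_)
        have e4 : (4 : ℝ) ^ (1 + m) * ((q / 2) ^ (1 + m)) ^ 2 = (q ^ (1 + m)) ^ 2 := by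
          rw [← pow_mul, mul_comm (1 + m) 2, pow_mul, ← mul_pow, ← pow_mul, mul_comm (1 + m) 2,
            pow_mul]
          congr 1
          ring
        rw [show K + 1 + m = K + (1 + m) by ring, pow_add 4 K (1 + m), ← e4]
        ring
      have h8 : w (K + (1 + m + l)) * ((16 : ℝ) ^ (K + 1 + m) * a (K + 1 + m) ^ 3) ≤
          C * q ^ l * (c * (4 ^ (K + 1 + m) * a (K + 1 + m) ^ 2)) := by
        rw [← h4, ← mul_assoc (C * q ^ l)]
        exact mul_le_mul_of_nonneg_right h3 (by positivity)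
      refine h8.trans ?_
      have h9 : C * q ^ l * (c * (4 ^ (K + 1 + m) * a (K + 1 + m) ^ 2)) ≤
          C * q ^ l * (c * (C ^ 2 * (q ^ (1 + m)) ^ 2 * (4 ^ K * a K ^ 2))) := by
        refine mul_le_mul_of_nonneg_left ?_ (by positivity)
        exact mul_le_mul_of_nonneg_left h7 hc.le
      refine h9.trans ?_
      have h10 : C * q ^ l * (c * (C ^ 2 * (q ^ (1 + m)) ^ 2 * (4 ^ K * a K ^ 2))) =
          C ^ 3 * (q ^ l * (q ^ (1 + m)) ^ 2) * (c * (4 ^ K * a K ^ 2)) := by ring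
      rw [h10]
      have h11 : q ^ l * (q ^ (1 + m)) ^ 2 ≤ q ^ (1 + m + l) * q ^ m := by
        have : q ^ l * (q ^ (1 + m)) ^ 2 = q ^ (1 + m + l) * q ^ m * q := by ring
        rw [this]
        have h12 : 0 < q ^ (1 + m + l) * q ^ m := by positivity
        nlinarith
      have h13 := hST K
      calc C ^ 3 * (q ^ l * (q ^ (1 + m)) ^ 2) * (c * (4 ^ K * a K ^ 2))
          ≤ C ^ 3 * (q ^ (1 + m + l) * q ^ m) * (w K * S K) := by
            refine mul_le_mul ?_ h13 (by have := ha K; positivity) (by positivity)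
            exact mul_le_mul_of_nonneg_left h11 (by positivity)
        _ = C ^ 3 * (w K * S K) * q ^ (1 + m + l) * q ^ m := by ring
    have h3 : w (K + n) * S (K + n) ≤
        C * q ^ n * (w K * S K) + C ^ 3 * (w K * S K) * q ^ n * ∑ m ∈ Finset.range n, q ^ m := by
      rw [e1, mul_add, Finset.mul_sum, Finset.mul_sum]
      exact add_le_add h1 (Finset.sum_le_sum h2)
    have h4 : ∑ m ∈ Finset.range n, q ^ m ≤ 1 / (1 - q) := by
      rw [one_div, ← tsum_geometric_of_lt_one hq.le hq1]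
      exact (summable_geometric_of_lt_one hq.le hq1).sum_le_tsum _ (fun i _ => by positivity)
    have h5 := mul_le_mul_of_nonneg_left h4
      (show 0 ≤ C ^ 3 * (w K * S K) * q ^ n by positivity)
    have e2 : (C + C ^ 3 * (1 / (1 - q))) * (w K * S K) * q ^ n =
        C * q ^ n * (w K * S K) + C ^ 3 * (w K * S K) * q ^ n * (1 / (1 - q)) := by ring
    rw [e2]
    linarith
  -- step 3
  have hgeo : ∀ K, k₀ ≤ K → ∀ n, dist (b (K + n)) (b (K + (n + 1))) ≤
      (C1 * (C2 * (w K * S K))) * q ^ n := by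
    intro K hK n
    rw [Real.dist_eq]
    have h1 := hb (K + n) (by omega)
    have h2 := mul_le_mul_of_nonneg_left (hT K n) hC1.le
    rw [show K + (n + 1) = K + n + 1 by ring]
    linarith
  obtain ⟨β, hβ⟩ : ∃ β, Tendsto (fun n => b (k₀ + n)) atTop (𝓝 β) :=
    cauchySeq_tendsto_of_complete (cauchySeq_of_le_geometric q _ hq1 (hgeo k₀ le_rfl))
  have hβ' : Tendsto b atTop (𝓝 β) := by
    have h1 : Tendsto (fun n => b (n + k₀)) atTop (𝓝 β) := by
      refine hβ.congr (fun n => ?_)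
      rw [add_comm]
    exact (tendsto_add_atTop_iff_nat k₀).1 h1
  have h1q : 0 < 1 - q := by linarith
  obtain ⟨C3, hC3, hbβ⟩ : ∃ C3 : ℝ, 0 < C3 ∧ ∀ k, k₀ ≤ k → |b k - β| ≤ C3 * (w k * S k) := by
    refine ⟨C1 * C2 / (1 - q), by positivity, fun k hk => ?_⟩
    have h1 : Tendsto (fun n => b (k + n)) atTop (𝓝 β) := by
      have h2 := (tendsto_add_atTop_iff_nat k).2 hβ'
      refine h2.congr (fun n => ?_)
      rw [add_comm]
    have h3 := dist_le_of_le_geometric_of_tendsto₀ q _ hq1 (hgeo k hk) h1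
    rw [Real.dist_eq] at h3
    simp only [add_zero] at h3
    refine h3.trans (le_of_eq ?_)
    field_simp
  -- the error
  have hC' : 0 < C + C3 := by positivity
  have hmain : ∀ k, k₀ ≤ k → ∀ t : ℝ, |t| ≤ w k →
      |f t - β * t| ≤ (C + C3) * (a k + |t| * (w k * S k)) := by
    intro k hk t ht
    have h1 := h k hk t ht
    have h2 := hbβ k hk
    have h3 : |f t - β * t| ≤ |f t - b k * t| + |b k - β| * |t| := by
      have : f t - β * t = (f t - b k * t) + (b k - β) * t := by ring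
      rw [this, ← abs_mul]
      exact abs_add_le _ _
    have h4 : |b k - β| * |t| ≤ C3 * (w k * S k) * |t| :=
      mul_le_mul_of_nonneg_right h2 (abs_nonneg t)
    have h5 : t ^ 2 * S k ≤ |t| * (w k * S k) := by
      rw [← sq_abs, sq, mul_assoc]
      exact mul_le_mul_of_nonneg_left (mul_le_mul_of_nonneg_right ht (hS0 k).le) (abs_nonneg t)
    have h6 := mul_le_mul_of_nonneg_left h5 hC.le
    have h7 : 0 ≤ C3 * a k := by have := ha k; positivity
    nlinarith
  refine ⟨β, C + C3, hC', ?_, hmain⟩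
  -- step 4
  have hTn : ∀ ε : ℝ, 0 < ε → ∃ K, k₀ ≤ K ∧ ∀ k, K ≤ k → w k * S k ≤ ε := by
    intro ε hε
    have h1 : Tendsto (fun n : ℕ => C2 * (w k₀ * S k₀) * q ^ n) atTop (𝓝 (C2 * (w k₀ * S k₀) * 0)) :=
      (tendsto_pow_atTop_nhds_zero_of_lt_one hq.le hq1).const_mul _
    rw [mul_zero] at h1
    obtain ⟨N, hN⟩ := ((h1.eventually (gt_mem_nhds hε))).exists_forall_of_atTop
    refine ⟨k₀ + N, by omega, fun k hk => ?_⟩
    obtain ⟨n, rfl⟩ : ∃ n, k = k₀ + n := ⟨k - k₀, by omega⟩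
    exact (hT k₀ n).trans (hN n (by omega)).le
  have hwn : ∀ K : ℕ, ∀ ε : ℝ, 0 < ε → ∃ n, w (K + n) < ε := by
    intro K ε hε
    have h1 : Tendsto (fun n : ℕ => (C * w K) * q ^ n) atTop (𝓝 ((C * w K) * 0)) :=
      (tendsto_pow_atTop_nhds_zero_of_lt_one hq.le hq1).const_mul _
    rw [mul_zero] at h1
    obtain ⟨N, hN⟩ := ((h1.eventually (gt_mem_nhds hε))).exists_forall_of_atTop
    refine ⟨N, ?_⟩
    have h2 := hwq K N
    have h3 := hN N le_rfl
    have h4 : C * q ^ N * w K = C * w K * q ^ N := by ring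
    linarith
  rw [hasDerivAt_iff_isLittleO_nhds_zero, Asymptotics.isLittleO_iff]
  intro ε hε
  set M : ℝ := (C + C3) * (4 / c ^ 2 + 1) with hM
  have hM0 : 0 < M := by positivity
  obtain ⟨K, hK0, hK⟩ := hTn (ε / M) (by positivity)
  have hball : ∀ᶠ t : ℝ in 𝓝 0, |t| < w K := by
    have := Metric.ball_mem_nhds (0 : ℝ) (hw0 K)
    filter_upwards [this] with t ht
    rwa [Metric.mem_ball, Real.dist_eq, sub_zero] at ht
  filter_upwards [hball] with t ht
  rw [zero_add, hf0, sub_zero, smul_eq_mul, Real.norm_eq_abs, Real.norm_eq_abs, mul_comm t β]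
  rcases eq_or_ne t 0 with rfl | ht0
  · simp [hf0]
  have ht0' : 0 < |t| := abs_pos.2 ht0
  classical
  have hex := hwn K |t| ht0'
  set n := Nat.find hex with hn
  have hn1 : w (K + n) < |t| := Nat.find_spec hex
  have hn0 : n ≠ 0 := by
    intro h0
    rw [h0, add_zero] at hn1
    linarith
  obtain ⟨m, hm⟩ : ∃ m, n = m + 1 := ⟨n - 1, by omega⟩
  have hn2 : |t| ≤ w (K + m) := by
    have := Nat.find_min hex (m := m) (by omega)
    exact not_lt.1 this
  have h1 := hmain (K + m) (by omega) t hn2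
  have h2 := haT (K + m)
  have h3 : w (K + m) ≤ 4 * |t| := by
    have := hw4 (K + m)
    rw [hm, show K + (m + 1) = K + m + 1 by ring] at hn1
    linarith
  set T := w (K + m) * S (K + m) with hTdef
  have hT0 : 0 < T := mul_pos (hw0 _) (hS0 _)
  have h4 : T ≤ ε / M := hK _ (by omega)
  have h5 : a (K + m) ≤ 4 * |t| * T / c ^ 2 := by
    refine h2.trans ?_
    exact div_le_div_of_nonneg_right (mul_le_mul_of_nonneg_right h3 hT0.le) (by positivity)
  have h6 : a (K + m) + |t| * T ≤ (4 / c ^ 2 + 1) * T * |t| := by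
    have : (4 / c ^ 2 + 1) * T * |t| = 4 * |t| * T / c ^ 2 + |t| * T := by ring
    linarith
  calc |f t - β * t| ≤ (C + C3) * (a (K + m) + |t| * T) := h1
    _ ≤ (C + C3) * ((4 / c ^ 2 + 1) * T * |t|) := mul_le_mul_of_nonneg_left h6 hC'.le
    _ = (M * T) * |t| := by rw [hM]; ring
    _ ≤ (M * (ε / M)) * |t| := by
        refine mul_le_mul_of_nonneg_right ?_ (abs_nonneg t)
        exact mul_le_mul_of_nonneg_left h4 hM0.le
    _ = ε * |t| := by rw [mul_div_cancel₀ _ hM0.ne']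

/-- If `f` is linear up to the error `C (a k + t² S k)` on the window `|t| ≤ w k` for all `k`, then
`f` is differentiable at `0`, with an explicit error. Here `w k = c / (4 ^ k a k)` and
`S k = ∑_{i ≤ k} 16 ^ i (a i)³`. -/
theorem dyad {f : ℝ → ℝ} (hf0 : f 0 = 0) {a w S b : ℕ → ℝ} {C c δ : ℝ} {k₀ : ℕ}
    (hc : 0 < c) (hC : 0 < C) (hδ : 0 < δ) (hδ1 : δ ≤ 1)
    (ha : ∀ k, 0 < a k) (hanti : ∀ k, a (k + 1) ≤ a k)
    (hw : ∀ k, w k = c / ((4 : ℝ) ^ k * a k))
    (hS : ∀ k, S k = ∑ i ∈ Finset.range (k + 1), (16 : ℝ) ^ i * a i ^ 3)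
    (hup : ∀ j k : ℕ, j ≤ k → a k ≤ C * (2 : ℝ) ^ (-((1 + δ) * ((k : ℝ) - j))) * a j)
    (hlow : ∀ j k : ℕ, j ≤ k → a j ≤ C * (2 : ℝ) ^ ((2 - δ) * ((k : ℝ) - j)) * a k)
    (h : ∀ k, k₀ ≤ k → ∀ t : ℝ, |t| ≤ w k → |f t - b k * t| ≤ C * (a k + t ^ 2 * S k)) :
    ∃ β C' : ℝ, 0 < C' ∧ HasDerivAt f β 0 ∧
      ∀ k, k₀ ≤ k → ∀ t : ℝ, |t| ≤ w k → |f t - β * t| ≤ C' * (a k + |t| * (w k * S k)) := by
  refine dyad_core hf0 (q := (2 : ℝ) ^ (-δ)) hc hC (by positivity)
    (Real.rpow_lt_one_of_one_lt_of_neg (by norm_num) (by linarith)) ha hanti hw hS ?_ ?_ h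
  · intro j n
    have := hup j (j + n) (by omega)
    rwa [(dyad_pow (δ := δ) j n).1] at this
  · intro j n
    have := hlow j (j + n) (by omega)
    rwa [(dyad_pow (δ := δ) j n).2] at this

/-- From the expansion of `τ` to the expansion of `κ`, where `κ' = 1 - 4 x + τ x`. -/
theorem rem_of_tau {κ τ : ℝ → ℝ} {p₀ β r : ℝ} (hr : 0 < r)
    (hκ : ∀ x, |x - p₀| < r → HasDerivAt κ (1 - 4 * x + τ x) x)
    (hτ : HasDerivAt (fun t => τ (p₀ + t) - τ p₀) β 0) :
    ∀ x A B : ℝ, 0 ≤ A → 0 ≤ B → |x| < r →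
      (∀ t : ℝ, |t| ≤ |x| → |τ (p₀ + t) - τ p₀ - β * t| ≤ A + |t| * B) →
      |κ (p₀ + x) - κ p₀ - deriv κ p₀ * x - 1 / 2 * deriv (deriv κ) p₀ * x ^ 2| ≤
        |x| * (A + |x| * B) := by
  intro x A B hA hB hx ht
  have h0 : HasDerivAt κ (1 - 4 * p₀ + τ p₀) p₀ := hκ p₀ (by simpa using hr)
  have hτ2 : HasDerivAt τ β p₀ := by
    have h1 : HasDerivAt (fun t => τ (p₀ + t) - τ p₀) β (p₀ - p₀) := by
      rw [sub_self]
      exact hτ
    have h2 : HasDerivAt (fun y => τ (p₀ + (y - p₀)) - τ p₀) β p₀ :=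
      HasDerivAt.comp_sub_const p₀ p₀ h1
    have h3 := h2.add_const (τ p₀)
    have h4 : (fun y => τ (p₀ + (y - p₀)) - τ p₀ + τ p₀) = τ := by
      funext y
      rw [sub_add_cancel, add_sub_cancel]
    rw [← h4]
    exact h3
  have hd1 : deriv κ p₀ = 1 - 4 * p₀ + τ p₀ := h0.deriv
  have hev : deriv κ =ᶠ[𝓝 p₀] fun y => 1 - 4 * y + τ y := by
    filter_upwards [Metric.ball_mem_nhds p₀ hr] with y hy
    rw [Metric.mem_ball, Real.dist_eq] at hy
    exact (hκ y hy).deriv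
  have hd2 : deriv (deriv κ) p₀ = β - 4 := by
    have h5 : HasDerivAt (fun y => 1 - 4 * y + τ y) (0 - 4 * 1 + β) p₀ :=
      (((hasDerivAt_const p₀ (1 : ℝ)).sub ((hasDerivAt_id p₀).const_mul 4)).add hτ2)
    rw [hev.deriv_eq, h5.deriv]
    ring
  rw [hd1, hd2]
  have hder : ∀ y ∈ Metric.closedBall (0 : ℝ) |x|,
      HasDerivWithinAt (fun y => κ (p₀ + y) - κ p₀ - (1 - 4 * p₀ + τ p₀) * y -
        1 / 2 * (β - 4) * y ^ 2) (τ (p₀ + y) - τ p₀ - β * y) (Metric.closedBall (0 : ℝ) |x|) y := by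
    intro y hy
    rw [Metric.mem_closedBall, Real.dist_eq, sub_zero] at hy
    have h6 : HasDerivAt (fun y => κ (p₀ + y)) (1 - 4 * (p₀ + y) + τ (p₀ + y)) y := by
      have h7 := hκ (p₀ + y) (by rw [add_sub_cancel_left]; exact lt_of_le_of_lt hy hx)
      exact HasDerivAt.comp_const_add p₀ y h7
    have h8 : HasDerivAt (fun y => κ (p₀ + y) - κ p₀ - (1 - 4 * p₀ + τ p₀) * y -
        1 / 2 * (β - 4) * y ^ 2) ((1 - 4 * (p₀ + y) + τ (p₀ + y)) - (1 - 4 * p₀ + τ p₀) * 1 -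
        1 / 2 * (β - 4) * (((2 : ℕ) : ℝ) * y ^ (2 - 1))) y :=
      ((h6.sub_const (κ p₀)).sub ((hasDerivAt_id y).const_mul (1 - 4 * p₀ + τ p₀))).sub
        ((hasDerivAt_pow 2 y).const_mul (1 / 2 * (β - 4)))
    have h9 : (1 - 4 * (p₀ + y) + τ (p₀ + y)) - (1 - 4 * p₀ + τ p₀) * 1 -
        1 / 2 * (β - 4) * (((2 : ℕ) : ℝ) * y ^ (2 - 1)) = τ (p₀ + y) - τ p₀ - β * y := by
      norm_num
      ring
    rw [h9] at h8
    exact h8.hasDerivWithinAt
  have hbd : ∀ y ∈ Metric.closedBall (0 : ℝ) |x|, ‖τ (p₀ + y) - τ p₀ - β * y‖ ≤ A + |x| * B := by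
    intro y hy
    rw [Metric.mem_closedBall, Real.dist_eq, sub_zero] at hy
    rw [Real.norm_eq_abs]
    have := ht y hy
    have h10 : |y| * B ≤ |x| * B := mul_le_mul_of_nonneg_right hy hB
    linarith
  have key := Convex.norm_image_sub_le_of_norm_hasDerivWithin_le hder hbd
    (convex_closedBall 0 |x|) (x := 0) (y := x) (by simp) (by simp)
  simp only [Real.norm_eq_abs, sub_zero, add_zero, sub_self, mul_zero, ne_eq, OfNat.ofNat_ne_zero,
    not_false_eq_true, zero_pow] at key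
  rw [mul_comm |x| (A + |x| * B)]
  exact key

end Pool.Agent.H92.SN
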