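import Pool.Agent.H92.SN.Main

/-!
# Scaling relations for the four-arm probability
-/

set_option autoImplicit false

open MeasureTheory ProbabilityTheory unitInterval

namespace Pool.Agent.H92.SN

open Pool.Agent.H89.Perc
open Pool.Agent.H61.NC (fill mid upd Joint PrR' dist0)
open Pool.Agent.H83.SK (sv sit)

theorem a4_doubling (hGL : GLTorus) (hBL : BlockLow) : ∀ c : ℝ, 0 < c → ∃ C : ℝ, 0 < C ∧
    ∀ (N : ℕ) (q : I), 64 ≤ N → SReg c N q → a4 q (N / 64) ≤ C * a4 q (N / 2 - 1) := by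
  intro c hc
  obtain ⟨C, hC, H⟩ := a4_le_sT hGL hBL c hc
  refine ⟨C, hC, fun N q hN hR => (H N q hN hR).trans ?_⟩
  exact mul_le_mul_of_nonneg_left (pivot_le_a4 q (cE_mem (by omega)) (by omega) (by omega)) hC.le

/-- Scale relation, upper bound, at all densities of the interval. -/
theorem scale_upper' (hGL : GLTorus) (hBL : BlockLow) : ∀ c : ℝ, 0 < c → ∃ C : ℝ, 0 < C ∧
    ∀ (N : ℕ) (q₀ q₁ q : I), 64 ≤ N → q₀ ≤ q → q ≤ q₁ →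
      (∀ q : I, q₀ ≤ q → q ≤ q₁ → SReg c N q) →
      ((q₁ : ℝ) - q₀) * ((N : ℝ) ^ 2 * a4 q (N / 64)) ≤ C := by
  intro c hc
  obtain ⟨C, hC, H⟩ := le_FT' hGL hBL c hc
  obtain ⟨K, hK, HK⟩ := window hGL hBL c hc
  obtain ⟨L, hL, HL⟩ := near_critical hGL hBL c hc
  refine ⟨C * L * K, by positivity, fun N q₀ q₁ q hN h0 h1 hR => ?_⟩
  have h2 := H N q hN (hR q h0 h1)
  have h3 := (HK N q₀ q₁ hN (h0.trans h1) hR).1
  have h6 := (HL N q₀ q hN h0 fun q' h7 h8 => hR q' h7 (h8.trans h1)).1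
  have h4 : Pr q₁ (WindS N) - Pr q₀ (WindS N) ≤ 1 := by
    have ha : Pr q₁ (WindS N) ≤ 1 := Pr_le_one
    have hb : 0 ≤ Pr q₀ (WindS N) := Pr_nonneg
    linarith
  have h5 : (0 : ℝ) ≤ (q₁ : ℝ) - q₀ := sub_nonneg.2 (h0.trans h1)
  calc ((q₁ : ℝ) - q₀) * ((N : ℝ) ^ 2 * a4 q (N / 64))
      ≤ ((q₁ : ℝ) - q₀) * (C * (L * FT' N q₀)) :=
        mul_le_mul_of_nonneg_left (h2.trans (mul_le_mul_of_nonneg_left h6 hC.le)) h5
    _ = C * L * (((q₁ : ℝ) - q₀) * FT' N q₀) := by ring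
    _ ≤ C * L * (K * (Pr q₁ (WindS N) - Pr q₀ (WindS N))) :=
        mul_le_mul_of_nonneg_left h3 (by positivity)
    _ ≤ C * L * (K * 1) := by gcongr
    _ = C * L * K := by ring

/-- Scale relation, lower bound, at all densities of the interval. -/
theorem scale_lower' (hGL : GLTorus) (hBL : BlockLow) : ∀ c : ℝ, 0 < c → ∃ C : ℝ, 0 < C ∧
    ∀ (N r : ℕ) (q₀ q₁ q : I), 64 ≤ N → 1 ≤ r → 2 * r + 2 ≤ N → q₀ ≤ q → q ≤ q₁ →
      (∀ q : I, q₀ ≤ q → q ≤ q₁ → SReg c N q) →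
      Pr q₁ (WindS N) - Pr q₀ (WindS N) ≤ C * (((q₁ : ℝ) - q₀) * ((N : ℝ) ^ 2 * a4 q r)) := by
  intro c hc
  obtain ⟨K, hK, HK⟩ := window hGL hBL c hc
  obtain ⟨L, hL, HL⟩ := near_critical hGL hBL c hc
  refine ⟨K * L, by positivity, fun N r q₀ q₁ q hN hr hrN h0 h1 hR => ?_⟩
  have h2 := FT'_le (N := N) (r := r) q hr hrN
  have h3 := (HK N q₀ q₁ hN (h0.trans h1) hR).2
  have h6 := (HL N q₀ q hN h0 fun q' h7 h8 => hR q' h7 (h8.trans h1)).2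
  have h5 : (0 : ℝ) ≤ (q₁ : ℝ) - q₀ := sub_nonneg.2 (h0.trans h1)
  calc Pr q₁ (WindS N) - Pr q₀ (WindS N) ≤ K * (((q₁ : ℝ) - q₀) * FT' N q₀) := h3
    _ ≤ K * (((q₁ : ℝ) - q₀) * (L * ((N : ℝ) ^ 2 * a4 q r))) := by
        have h7 : FT' N q₀ ≤ L * ((N : ℝ) ^ 2 * a4 q r) :=
          h6.trans (mul_le_mul_of_nonneg_left h2 hL.le)
        gcongr
    _ = _ := by ring

theorem scale_upper (hGL : GLTorus) (hBL : BlockLow) : ∀ c : ℝ, 0 < c → ∃ C : ℝ, 0 < C ∧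
    ∀ (N : ℕ) (q₀ q₁ : I), 64 ≤ N → q₀ ≤ q₁ → (∀ q : I, q₀ ≤ q → q ≤ q₁ → SReg c N q) →
      ((q₁ : ℝ) - q₀) * ((N : ℝ) ^ 2 * a4 q₀ (N / 64)) ≤ C := by
  intro c hc
  obtain ⟨C, hC, H⟩ := scale_upper' hGL hBL c hc
  exact ⟨C, hC, fun N q₀ q₁ hN h01 hR => H N q₀ q₁ q₀ hN le_rfl h01 hR⟩

theorem scale_lower (hGL : GLTorus) (hBL : BlockLow) : ∀ c : ℝ, 0 < c → ∃ C : ℝ, 0 < C ∧
    ∀ (N r : ℕ) (q₀ q₁ : I), 64 ≤ N → 1 ≤ r → 2 * r + 2 ≤ N → q₀ ≤ q₁ →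
      (∀ q : I, q₀ ≤ q → q ≤ q₁ → SReg c N q) →
      Pr q₁ (WindS N) - Pr q₀ (WindS N) ≤ C * (((q₁ : ℝ) - q₀) * ((N : ℝ) ^ 2 * a4 q₀ r)) := by
  intro c hc
  obtain ⟨C, hC, H⟩ := scale_lower' hGL hBL c hc
  exact ⟨C, hC, fun N r q₀ q₁ hN hr hrN h01 hR => H N r q₀ q₁ q₀ hN hr hrN le_rfl h01 hR⟩

/-- Growth of the four-arm probability, on one torus. -/
theorem a4_grow (hGL : GLTorus) (hBL : BlockLow) : ∀ c : ℝ, 0 < c → ∃ C δ : ℝ, 0 < C ∧ 0 < δ ∧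
    δ ≤ 1 ∧ ∀ (r N : ℕ) (q : I), 1 ≤ r → 64 * r ≤ N → SReg c N q →
      ((r : ℝ) / N) ^ (2 - δ) * a4 q r ≤ C * a4 q (N / 2 - 1) := by
  intro c hc
  obtain ⟨C1, hC1, h1⟩ := hGL c hc
  obtain ⟨C2, δ0, hC2, hδ0, h2⟩ := hBL c hc
  obtain ⟨δ, hδ⟩ : ∃ δ, δ = min δ0 1 := ⟨_, rfl⟩
  have hδpos : 0 < δ := by rw [hδ]; exact lt_min hδ0 one_pos
  have hδ1 : δ ≤ 1 := by rw [hδ]; exact min_le_right _ _
  have hδle : δ ≤ δ0 := by rw [hδ]; exact min_le_left _ _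
  refine ⟨C1 * C2, δ, by positivity, hδpos, hδ1, fun r N q hr hrN hR => ?_⟩
  have hNpos : (0 : ℝ) < N := by exact_mod_cast (by omega : 0 < N)
  have hrpos : (0 : ℝ) < r := by exact_mod_cast hr
  have k1 := h1 N r q hr hrN hR
  have k2 := h2 N (16 * r) q (by omega) (by omega) hR
  have ha := a4_nonneg q r
  have hx : (r : ℝ) / N ≤ ((16 * r : ℕ) : ℝ) / N := by
    apply div_le_div_of_nonneg_right _ hNpos.le
    push_cast
    linarith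
  have hx1 : ((16 * r : ℕ) : ℝ) / N ≤ 1 := by
    rw [div_le_one hNpos]
    exact_mod_cast (by omega : 16 * r ≤ N)
  have hx0 : 0 < (r : ℝ) / N := by positivity
  have k3 : ((r : ℝ) / N) ^ (2 - δ) ≤ C2 * Pr q (BlockPiv N (16 * r)) := by
    calc ((r : ℝ) / N) ^ (2 - δ) ≤ (((16 * r : ℕ) : ℝ) / N) ^ (2 - δ) :=
          Real.rpow_le_rpow hx0.le hx (by linarith)
      _ ≤ (((16 * r : ℕ) : ℝ) / N) ^ (2 - δ0) :=
          Real.rpow_le_rpow_of_exponent_ge (hx0.trans_le hx) hx1 (by linarith)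
      _ ≤ _ := k2
  have k4 : sT q N ≤ a4 q (N / 2 - 1) :=
    pivot_le_a4 q (cE_mem (by omega)) (by omega) (by omega)
  calc ((r : ℝ) / N) ^ (2 - δ) * a4 q r ≤ C2 * Pr q (BlockPiv N (16 * r)) * a4 q r :=
        mul_le_mul_of_nonneg_right k3 ha
    _ = C2 * (a4 q r * Pr q (BlockPiv N (16 * r))) := by ring
    _ ≤ C2 * (C1 * a4 q (N / 2 - 1)) :=
        mul_le_mul_of_nonneg_left (k1.trans (mul_le_mul_of_nonneg_left k4 hC1.le)) hC2.le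
    _ = _ := by ring

/-- Lower regularity of the four-arm probability. -/
theorem a4_low (hGL : GLTorus) (hBL : BlockLow) : ∀ c : ℝ, 0 < c → ∃ C δ : ℝ, 0 < C ∧ 0 < δ ∧
    δ ≤ 1 ∧ ∀ (m n : ℕ) (q : I), 1 ≤ m → m ≤ n → SReg c (64 * n) q →
      a4 q m ≤ C * ((n : ℝ) / m) ^ (2 - δ) * a4 q n := by
  intro c hc
  obtain ⟨C, δ, hC, hδ, hδ1, H⟩ := a4_grow hGL hBL c hc
  refine ⟨C * 64 ^ 2, δ, by positivity, hδ, hδ1, fun m n q hm hmn hR => ?_⟩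
  have h1 := H m (64 * n) q hm (by omega) hR
  have h2 := a4_anti q (show 1 ≤ n by omega) (show n ≤ 64 * n / 2 - 1 by omega)
  have hmpos : (0 : ℝ) < m := by exact_mod_cast hm
  have hnpos : (0 : ℝ) < n := by exact_mod_cast (by omega : 0 < n)
  have ha := a4_nonneg q m
  have hb := a4_nonneg q n
  have e1 : ((m : ℝ) / ((64 * n : ℕ) : ℝ)) ^ (2 - δ) =
      (((n : ℝ) / m) ^ (2 - δ))⁻¹ * (64 ^ (2 - δ))⁻¹ := by
    rw [← Real.inv_rpow (by positivity), ← Real.inv_rpow (by norm_num),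
      ← Real.mul_rpow (by positivity) (by norm_num)]
    congr 1
    push_cast
    field_simp
  rw [e1] at h1
  have hp : (0 : ℝ) < ((n : ℝ) / m) ^ (2 - δ) := by positivity
  have h64 : (64 : ℝ) ^ (2 - δ) ≤ 64 ^ 2 := by
    rw [← Real.rpow_two]
    exact Real.rpow_le_rpow_of_exponent_le (by norm_num) (by linarith)
  have h640 : (0 : ℝ) < (64 : ℝ) ^ (2 - δ) := by positivity
  calc a4 q m = ((n : ℝ) / m) ^ (2 - δ) * 64 ^ (2 - δ) *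
        ((((n : ℝ) / m) ^ (2 - δ))⁻¹ * (64 ^ (2 - δ))⁻¹ * a4 q m) := by
        field_simp
    _ ≤ ((n : ℝ) / m) ^ (2 - δ) * 64 ^ (2 - δ) * (C * a4 q (64 * n / 2 - 1)) :=
        mul_le_mul_of_nonneg_left h1 (by positivity)
    _ ≤ ((n : ℝ) / m) ^ (2 - δ) * 64 ^ (2 - δ) * (C * a4 q n) := by gcongr
    _ ≤ ((n : ℝ) / m) ^ (2 - δ) * 64 ^ 2 * (C * a4 q n) := by gcongr
    _ = _ := by ring

/-- Upper regularity of the four-arm probability. -/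
theorem a4_up (hGL : GLTorus) (hBL : BlockLow) (hBU : BlockUp) : ∀ c : ℝ, 0 < c →
    ∃ C δ : ℝ, 0 < C ∧ 0 < δ ∧ δ ≤ 1 ∧ ∀ (m n : ℕ) (q : I), 1 ≤ m → m ≤ n →
      SReg c (64 * n) q → a4 q n ≤ C * ((m : ℝ) / n) ^ (1 + δ) * a4 q m := by
  intro c hc
  obtain ⟨C3, hC3, h3⟩ := a4_le_sT hGL hBL c hc
  obtain ⟨C2, δ0, hC2, hδ0, h2⟩ := hBU c hc
  obtain ⟨δ, hδ⟩ : ∃ δ, δ = min δ0 1 := ⟨_, rfl⟩
  have hδpos : 0 < δ := by rw [hδ]; exact lt_min hδ0 one_pos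
  have hδ1 : δ ≤ 1 := by rw [hδ]; exact min_le_right _ _
  have hδle : δ ≤ δ0 := by rw [hδ]; exact min_le_left _ _
  refine ⟨C3 * C2, δ, by positivity, hδpos, hδ1, fun m n q hm hmn hR => ?_⟩
  have hmpos : (0 : ℝ) < m := by exact_mod_cast hm
  have hnpos : (0 : ℝ) < n := by exact_mod_cast (by omega : 0 < n)
  have k1 := h3 (64 * n) q (by omega) hR
  have e64 : 64 * n / 64 = n := by omega
  rw [e64] at k1
  have k2 := sT_le_block q (N := 64 * n) (r := m) hm (by omega)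
  have k3 := h2 (64 * n) m q hm (by omega) hR
  have ha := a4_nonneg q m
  have k4 : ((m : ℝ) / ((64 * n : ℕ) : ℝ)) ^ (1 + δ0) ≤ ((m : ℝ) / n) ^ (1 + δ) := by
    have hx0 : 0 < (m : ℝ) / ((64 * n : ℕ) : ℝ) := by
      push_cast
      positivity
    have hx : (m : ℝ) / ((64 * n : ℕ) : ℝ) ≤ (m : ℝ) / n := by
      apply div_le_div_of_nonneg_left hmpos.le hnpos
      push_cast
      linarith
    have hx1 : (m : ℝ) / n ≤ 1 := by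
      rw [div_le_one hnpos]
      exact_mod_cast hmn
    calc ((m : ℝ) / ((64 * n : ℕ) : ℝ)) ^ (1 + δ0) ≤ ((m : ℝ) / ((64 * n : ℕ) : ℝ)) ^ (1 + δ) :=
          Real.rpow_le_rpow_of_exponent_ge hx0 (hx.trans hx1) (by linarith)
      _ ≤ _ := Real.rpow_le_rpow hx0.le hx (by linarith)
  calc a4 q n ≤ C3 * sT q (64 * n) := k1
    _ ≤ C3 * (a4 q m * Pr q (BlockPiv (64 * n) m)) := mul_le_mul_of_nonneg_left k2 hC3.le
    _ ≤ C3 * (a4 q m * (C2 * ((m : ℝ) / ((64 * n : ℕ) : ℝ)) ^ (1 + δ0))) := by gcongr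
    _ ≤ C3 * (a4 q m * (C2 * ((m : ℝ) / n) ^ (1 + δ))) := by gcongr
    _ = _ := by ring

/-- Stability of the four-arm probability in the window. -/
theorem a4_near (hGL : GLTorus) (hBL : BlockLow) : ∀ c : ℝ, 0 < c → ∃ C : ℝ, 0 < C ∧
    ∀ (n : ℕ) (q₀ q₁ : I), q₀ ≤ q₁ → (∀ q : I, q₀ ≤ q → q ≤ q₁ → SReg c (64 * n) q) →
      ∀ t : ℕ, 1 ≤ t → t ≤ n → a4 q₁ t ≤ C * a4 q₀ t ∧ a4 q₀ t ≤ C * a4 q₁ t := by
  intro c hc
  obtain ⟨C, hC, H⟩ := a4_le_sT hGL hBL c hc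
  obtain ⟨K, hK, HK⟩ := near_critical hGL hBL c hc
  refine ⟨C * K, by positivity, fun n q₀ q₁ h01 hR t ht htn => ?_⟩
  have hR' : ∀ q : I, q₀ ≤ q → q ≤ q₁ → SReg c (64 * t) q := fun q h1 h2 =>
    sreg_anti (hR q h1 h2) (by omega)
  have e64 : 64 * t / 64 = t := by omega
  obtain ⟨k1, k2⟩ := HK (64 * t) q₀ q₁ (by omega) h01 hR'
  rw [FT'_eq (by omega), FT'_eq (by omega)] at k1 k2
  have hpos : (0 : ℝ) < ((64 * t : ℕ) : ℝ) ^ 2 := by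
    have : (0 : ℝ) < ((64 * t : ℕ) : ℝ) := by exact_mod_cast (by omega : 0 < 64 * t)
    positivity
  have k1' : sT q₁ (64 * t) ≤ K * sT q₀ (64 * t) := by
    refine le_of_mul_le_mul_left ?_ hpos
    calc _ ≤ _ := k1
      _ = _ := by ring
  have k2' : sT q₀ (64 * t) ≤ K * sT q₁ (64 * t) := by
    refine le_of_mul_le_mul_left ?_ hpos
    calc _ ≤ _ := k2
      _ = _ := by ring
  have key : ∀ q : I, sT q (64 * t) ≤ a4 q t := fun q =>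
    pivot_le_a4 q (cE_mem (by omega)) ht (by omega)
  have a1 := H (64 * t) q₁ (by omega) (hR' q₁ h01 le_rfl)
  have a0 := H (64 * t) q₀ (by omega) (hR' q₀ le_rfl h01)
  rw [e64] at a1 a0
  constructor
  · calc a4 q₁ t ≤ C * (K * a4 q₀ t) :=
        a1.trans (mul_le_mul_of_nonneg_left (k1'.trans (mul_le_mul_of_nonneg_left (key q₀) hK.le))
          hC.le)
      _ = _ := by ring
  · calc a4 q₀ t ≤ C * (K * a4 q₁ t) :=
        a0.trans (mul_le_mul_of_nonneg_left (k2'.trans (mul_le_mul_of_nonneg_left (key q₁) hK.le))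
          hC.le)
      _ = _ := by ring

/-- Sums of four-arm probabilities. -/
theorem sum_a4_le (hGL : GLTorus) (hBL : BlockLow) : ∀ c : ℝ, 0 < c → ∃ C : ℝ, 0 < C ∧
    ∀ (n : ℕ) (q : I), 1 ≤ n → SReg c (64 * n) q →
      ∑ t ∈ Finset.Icc 1 n, (t : ℝ) * a4 q t ≤ C * ((n : ℝ) ^ 2 * a4 q n) := by
  intro c hc
  obtain ⟨C, hC, H⟩ := sum_a4 hGL hBL c hc
  refine ⟨C * 64 ^ 2, by positivity, fun n q hn hR => ?_⟩
  have h1 := H (64 * n) q (by omega) hR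
  have h2 : sT q (64 * n) ≤ a4 q n := pivot_le_a4 q (cE_mem (by omega)) hn (by omega)
  have h3 : ∑ t ∈ Finset.Icc 1 n, (t : ℝ) * a4 q t ≤
      ∑ t ∈ Finset.Icc 1 (64 * n), (t : ℝ) * a4 q t :=
    Finset.sum_le_sum_of_subset_of_nonneg (Finset.Icc_subset_Icc le_rfl (by omega))
      fun t _ _ => mul_nonneg (Nat.cast_nonneg t) (a4_nonneg q t)
  calc ∑ t ∈ Finset.Icc 1 n, (t : ℝ) * a4 q t ≤ C * (((64 * n : ℕ) : ℝ) ^ 2 * sT q (64 * n)) :=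
        h3.trans h1
    _ ≤ C * (((64 * n : ℕ) : ℝ) ^ 2 * a4 q n) := by gcongr
    _ = _ := by push_cast; ring

/-- Positivity. -/
theorem a4_pos (hGL : GLTorus) (hBL : BlockLow) {c : ℝ} (hc : 0 < c) {n : ℕ} (hn : 1 ≤ n) {q : I}
    (hR : SReg c (64 * n) q) : 0 < a4 q n :=
  (sT_pos hGL hBL hc (by omega) hR).trans_le
    (pivot_le_a4 q (cE_mem (by omega)) hn (by omega))

theorem a4_one_pos {q : I} (hq : (q : ℝ) < 1) : 0 < a4 q 1 :=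
  lt_of_lt_of_le (pow_pos (sub_pos.2 hq) 9) (a4_one q (sub_pos.2 hq).le le_rfl)

end Pool.Agent.H92.SN
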