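import Pool.Agent.H92.SN.Piv
import Pool.Agent.H92.SN.Fin

/-!
# Joint influences of two sites on the connection event
-/

set_option autoImplicit false

open MeasureTheory ProbabilityTheory unitInterval

namespace Pool.Agent.H92.SN

open Pool.Agent.H89.Perc
open Pool.Agent.H61.NC (modE mid Joint Joint_piv)
open Pool.Agent.H83.SK (sv sit)
open Pool.Agent.H90.AL (dT dT_self dT_comm dT_tri dT_le_half)
open Pool.Agent.H29.Sep (A2)

variable {N i : ℕ} {J : Set Config} {u v w : Vert}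

/-- The event `J` implies arms of `u`, `v`, `w`, where `u` and `v` are the closest sites. -/
structure RoleS (N : ℕ) (J : Set Config) (u v w : Vert) : Prop where
  near : ∀ r : ℕ, 1 ≤ r → 2 * r + 2 ≤ N → r + 1 < dT N u v → r + 1 < dT N u w →
    r + 1 < dT N v w → J ⊆ A4T N u r ∩ A4T N v r
  far : ∀ r : ℕ, 1 ≤ r → 2 * r + 2 ≤ N → r + 1 < dT N u w → r + 1 < dT N v w → J ⊆ A4T N w r
  ann : ∀ t R : ℕ, 1 ≤ t → t ≤ R → 2 * R < N → dT N u v + 1 ≤ t →
    R + 1 < dT N u w → J ⊆ A2S N u t R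

lemma a2S_update (hN : 1 ≤ N) {x c : Vert} {t R : ℕ} {b : Bool} {w : Config} (ht : 1 ≤ t)
    (hR : t + R ≤ N) (h : dT N x c < t ∨ R < dT N x c)
    (h' : Function.update w (sv x) b ∈ A2S N c t R) : w ∈ A2S N c t R := by
  refine localOn_A2S hN c ht hR _ _ (fun e he => ?_) h'
  rw [Function.update_of_ne]
  rintro rfl
  rw [mem_SRS, src_sv] at he
  omega

lemma joint_pivS {x y : Vert} (hi : Incr (DT N i)) (hxy : x ≠ y) {w : Config}
    (h : w ∈ Joint (DT N i) (sv x) (sv y)) :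
    (∃ b, PivS N i x (Function.update w (sv y) b)) ∧
      ∃ b, PivS N i y (Function.update w (sv x) b) := by
  obtain ⟨⟨b, h1, h2⟩, ⟨b', h3, h4⟩⟩ := Joint_piv hi (sv_ne hxy) h
  exact ⟨⟨b, h1, h2⟩, ⟨b', h3, h4⟩⟩

/-- The two sites are close, the middle site is far. -/
theorem roleS_one (hN : 1 ≤ N) {x y : Vert} (hx : sv x ∈ tSites N) (hy : sv y ∈ tSites N)
    (hxy : x ≠ y) (hi : Incr (DT N i)) :
    RoleS N (Joint (DT N i) (sv x) (sv y)) x y (cV N) where
  near r hr hrN h1 h2 h3 := by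
    intro ω hω
    obtain ⟨⟨b, hb⟩, ⟨b', hb'⟩⟩ := joint_pivS hi hxy hω
    refine ⟨(a4S_update hN (x := y) (b := b) ?_).1 (hb.a4_self hx hr hrN ?_),
      (a4S_update hN (x := x) (b := b') ?_).1 (hb'.a4_self hy hr hrN ?_)⟩
    · rw [dT_comm hN]; omega
    · rw [dT_comm hN]; omega
    · omega
    · rw [dT_comm hN]; omega
  far r hr hrN h1 h2 := by
    intro ω hω
    obtain ⟨⟨b, hb⟩, -⟩ := joint_pivS hi hxy hω
    exact (a4S_update hN (x := y) (b := b) (by omega)).1 (hb.a4_ctr hx hr hrN (by omega))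
  ann t R ht htR hR h1 h2 := by
    intro ω hω
    obtain ⟨⟨b, hb⟩, -⟩ := joint_pivS hi hxy hω
    refine a2S_update hN (x := y) (b := b) ht (by omega) (Or.inl ?_)
      (hb.a2 hx ht htR hR (Or.inl ?_))
    · rw [dT_comm hN]; omega
    · rw [dT_self, dT_comm hN (cV N)]
      omega

/-- The site `x` is close to the middle site, the site `y` is far. -/
theorem roleS_two (hN : 1 ≤ N) {x y : Vert} (hx : sv x ∈ tSites N) (hy : sv y ∈ tSites N)
    (hxy : x ≠ y) (hi : Incr (DT N i)) :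
    RoleS N (Joint (DT N i) (sv x) (sv y)) (cV N) x y where
  near r hr hrN h1 h2 h3 := by
    intro ω hω
    obtain ⟨⟨b, hb⟩, -⟩ := joint_pivS hi hxy hω
    refine ⟨(a4S_update hN (x := y) (b := b) ?_).1 (hb.a4_ctr hx hr hrN ?_),
      (a4S_update hN (x := y) (b := b) ?_).1 (hb.a4_self hx hr hrN ?_)⟩
    · rw [dT_comm hN]; omega
    · rw [dT_comm hN]; omega
    · rw [dT_comm hN]; omega
    · omega
  far r hr hrN h1 h2 := by
    intro ω hω
    obtain ⟨-, ⟨b, hb⟩⟩ := joint_pivS hi hxy hω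
    exact (a4S_update hN (x := x) (b := b) (by omega)).1 (hb.a4_self hy hr hrN (by omega))
  ann t R ht htR hR h1 h2 := by
    intro ω hω
    obtain ⟨-, ⟨b, hb⟩⟩ := joint_pivS hi hxy hω
    refine a2S_update hN (x := x) (b := b) ht (by omega) (Or.inl ?_)
      (hb.a2 hy ht htR hR (Or.inr ?_))
    · rw [dT_comm hN]; omega
    · rw [dT_self, dT_comm hN y]
      omega

/-- The site `y` is close to the middle site, the site `x` is far. -/
theorem roleS_three (hN : 1 ≤ N) {x y : Vert} (hx : sv x ∈ tSites N) (hy : sv y ∈ tSites N)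
    (hxy : x ≠ y) (hi : Incr (DT N i)) :
    RoleS N (Joint (DT N i) (sv x) (sv y)) (cV N) y x where
  near r hr hrN h1 h2 h3 := by
    intro ω hω
    obtain ⟨-, ⟨b, hb⟩⟩ := joint_pivS hi hxy hω
    refine ⟨(a4S_update hN (x := x) (b := b) ?_).1 (hb.a4_ctr hy hr hrN ?_),
      (a4S_update hN (x := x) (b := b) ?_).1 (hb.a4_self hy hr hrN ?_)⟩
    · rw [dT_comm hN]; omega
    · rw [dT_comm hN]; omega
    · rw [dT_comm hN]; omega
    · omega
  far r hr hrN h1 h2 := by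
    intro ω hω
    obtain ⟨⟨b, hb⟩, -⟩ := joint_pivS hi hxy hω
    exact (a4S_update hN (x := y) (b := b) (by omega)).1 (hb.a4_self hx hr hrN (by omega))
  ann t R ht htR hR h1 h2 := by
    intro ω hω
    obtain ⟨⟨b, hb⟩, -⟩ := joint_pivS hi hxy hω
    refine a2S_update hN (x := y) (b := b) ht (by omega) (Or.inl ?_)
      (hb.a2 hx ht htR hR (Or.inr ?_))
    · rw [dT_comm hN]; omega
    · rw [dT_self, dT_comm hN x]
      omega

/-! ### Probabilities -/

lemma disj_SRS (hN : 1 ≤ N) {c c' : Vert} {t R t' R' : ℕ}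
    (h : R + R' < dT N c c' ∨ dT N c c' + R' < t) : Disjoint (SRS N c t R) (SRS N c' t' R') := by
  rw [Finset.disjoint_left]
  intro g hg hg'
  rw [mem_SRS] at hg hg'
  have h1 := dT_tri hN c (src g) c'
  have h2 := dT_tri hN (src g) c' c
  rw [dT_comm hN c (src g)] at h1
  rw [dT_comm hN c' c] at h2
  rcases h with h | h <;> omega

theorem Pr_roleS_A (q : I) (hJ : RoleS N J u v w) {r t R r' : ℕ} (hN : 1 ≤ N) (h1 : 1 ≤ r)
    (h2 : 2 * r < dT N u v) (h3 : dT N u v + r < t) (h4 : t ≤ R) (h5 : 1 ≤ r')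
    (h6 : R + r' + 1 < dT N u w) (h7 : r + r' + 1 < dT N v w) :
    Pr q J ≤ a4 q r * a4 q r * (Pool.Agent.H83.SK.Pr q (A2 t R) * a4 q r') := by
  classical
  have b1 := dT_le_half hN u w
  have b2 := dT_le_half hN u v
  have hsub : J ⊆ (A4T N u r ∩ A4T N v r) ∩ (A2S N u t R ∩ A4T N w r') := by
    intro ω hω
    exact ⟨hJ.near r h1 (by omega) (by omega) (by omega) (by omega) hω,
      hJ.ann t R (by omega) h4 (by omega) (by omega) (by omega) hω,
      hJ.far r' h5 (by omega) (by omega) (by omega) hω⟩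
  refine (Pr_mono hsub).trans (le_of_eq ?_)
  rw [Pr_inter_of_disjoint ((localOn_A4S hN u r).inter' (localOn_A4S hN v r))
      ((localOn_A2S hN u (by omega : 1 ≤ t) (by omega : t + R ≤ N)).inter'
        (localOn_A4S hN w r')) ?_,
    Pr_inter_of_disjoint (localOn_A4S hN u r) (localOn_A4S hN v r)
      (disj_SRS hN (Or.inl (by omega))),
    Pr_inter_of_disjoint (localOn_A2S hN u (by omega : 1 ≤ t) (by omega : t + R ≤ N))
      (localOn_A4S hN w r') (disj_SRS hN (Or.inl (by omega))),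
    Pr_A4T q u (by omega), Pr_A4T q v (by omega), Pr_A4T q w (by omega),
    Pr_A2S q _ (by omega)]
  rw [Finset.disjoint_union_left, Finset.disjoint_union_right, Finset.disjoint_union_right]
  refine ⟨⟨?_, disj_SRS hN (Or.inl (by omega))⟩, ⟨?_, disj_SRS hN (Or.inl (by omega))⟩⟩
  · exact (disj_SRS hN (Or.inr (by rw [dT_self]; omega))).symm
  · exact (disj_SRS hN (Or.inr (by omega))).symm

theorem Pr_roleS_B (q : I) (hJ : RoleS N J u v w) {r r' : ℕ} (hN : 1 ≤ N) (h1 : 1 ≤ r)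
    (h2 : 2 * r < dT N u v) (h5 : 1 ≤ r') (h6 : r + r' + 1 < dT N u w)
    (h7 : r + r' + 1 < dT N v w) : Pr q J ≤ a4 q r * a4 q r * a4 q r' := by
  classical
  have b1 := dT_le_half hN u w
  have b2 := dT_le_half hN u v
  have hsub : J ⊆ (A4T N u r ∩ A4T N v r) ∩ A4T N w r' := by
    intro ω hω
    exact ⟨hJ.near r h1 (by omega) (by omega) (by omega) (by omega) hω,
      hJ.far r' h5 (by omega) (by omega) (by omega) hω⟩
  refine (Pr_mono hsub).trans (le_of_eq ?_)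
  rw [Pr_inter_of_disjoint ((localOn_A4S hN u r).inter' (localOn_A4S hN v r))
      (localOn_A4S hN w r') ?_,
    Pr_inter_of_disjoint (localOn_A4S hN u r) (localOn_A4S hN v r)
      (disj_SRS hN (Or.inl (by omega))),
    Pr_A4T q u (by omega), Pr_A4T q v (by omega), Pr_A4T q w (by omega)]
  rw [Finset.disjoint_union_left]
  exact ⟨disj_SRS hN (Or.inl (by omega)), disj_SRS hN (Or.inl (by omega))⟩

theorem Pr_roleS_C (q : I) (hJ : RoleS N J u v w) {t R r' : ℕ} (hN : 1 ≤ N)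
    (h3 : dT N u v < t) (h4 : t ≤ R) (h5 : 1 ≤ r') (h6 : R + r' + 1 < dT N u w)
    (h7 : r' + 1 < dT N v w) :
    Pr q J ≤ Pool.Agent.H83.SK.Pr q (A2 t R) * a4 q r' := by
  classical
  have b1 := dT_le_half hN u w
  have hsub : J ⊆ A2S N u t R ∩ A4T N w r' := by
    intro ω hω
    exact ⟨hJ.ann t R (by omega) h4 (by omega) (by omega) (by omega) hω,
      hJ.far r' h5 (by omega) (by omega) (by omega) hω⟩
  refine (Pr_mono hsub).trans (le_of_eq ?_)
  rw [Pr_inter_of_disjoint (localOn_A2S hN u (by omega : 1 ≤ t) (by omega : t + R ≤ N))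
      (localOn_A4S hN w r') (disj_SRS hN (Or.inl (by omega))), Pr_A4T q w (by omega),
    Pr_A2S q _ (by omega)]

/-- Comparison of the four-arm probabilities at comparable distances. -/
theorem a4_cmp (hGL : GLTorus) (hBL : BlockLow) : ∀ c : ℝ, 0 < c → ∀ K : ℕ, 1 ≤ K →
    ∃ C : ℝ, 0 < C ∧ ∀ (m n : ℕ) (q : I), 1 ≤ m → 1 ≤ n → n ≤ K * m → SReg c (64 * n) q →
      a4 q m ≤ C * a4 q n := by
  intro c hc K hK
  obtain ⟨C, δ, hC, hδ, hδ1, H⟩ := a4_low hGL hBL c hc
  have hK0 : (1 : ℝ) ≤ K := by exact_mod_cast hK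
  refine ⟨max (C * (K : ℝ) ^ 2) 1, lt_max_of_lt_right one_pos, fun m n q hm hn hnm hR => ?_⟩
  have ha := a4_nonneg q n
  rcases Nat.lt_or_ge n m with h | h
  · calc a4 q m ≤ a4 q n := a4_anti q hn h.le
      _ = 1 * a4 q n := (one_mul _).symm
      _ ≤ _ := mul_le_mul_of_nonneg_right (le_max_right _ _) ha
  · have h1 := H m n q hm h hR
    have hm0 : (0 : ℝ) < m := by exact_mod_cast hm
    have h2 : (n : ℝ) / m ≤ K := by
      rw [div_le_iff₀ hm0]
      exact_mod_cast hnm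
    have h3 : ((n : ℝ) / m) ^ (2 - δ) ≤ (K : ℝ) ^ 2 := by
      calc ((n : ℝ) / m) ^ (2 - δ) ≤ (K : ℝ) ^ (2 - δ) :=
            Real.rpow_le_rpow (by positivity) h2 (by linarith)
        _ ≤ (K : ℝ) ^ (2 : ℝ) := Real.rpow_le_rpow_of_exponent_le hK0 (by linarith)
        _ = (K : ℝ) ^ 2 := Real.rpow_two _
    calc a4 q m ≤ C * ((n : ℝ) / m) ^ (2 - δ) * a4 q n := h1
      _ ≤ C * (K : ℝ) ^ 2 * a4 q n := by gcongr
      _ ≤ _ := mul_le_mul_of_nonneg_right (le_max_left _ _) ha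

/-- The basic estimate. -/
theorem estimateS (hGL : GLTorus) (hBL : BlockLow) (hQM : QMann) : ∀ c : ℝ, 0 < c →
    ∃ C : ℝ, 0 < C ∧ ∀ (N : ℕ) (q : I) (J : Set Config) (u v w : Vert) (d₁ d₂ : ℕ), 1 ≤ N →
      SReg c (128 * N) q → RoleS N J u v w → dT N u v = d₁ → d₁ ≤ d₂ → d₂ ≤ dT N u w →
      d₂ ≤ dT N v w →
      Pr q J ≤ C * (a4 q (d₁ + 1) * (a4 q (d₂ + 1) * a4 q (d₂ + 1))) := by
  intro c hc
  obtain ⟨C₁, hC₁, hQ⟩ := hQM c hc
  obtain ⟨K8, p8, hK8⟩ := a4_cmp hGL hBL c hc 8 (by norm_num)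
  obtain ⟨K64, p64, hK64⟩ := a4_cmp hGL hBL c hc 64 (by norm_num)
  obtain ⟨m, hm⟩ : ∃ m : ℝ, m = (1 / (c / 10) ^ 9) := ⟨_, rfl⟩
  have pm : 0 < m := by rw [hm]; positivity
  refine ⟨K8 * (C₁ * K8) * K8 + K8 * K64 * K8 + m * (m * (K64 * C₁)) * (K8 * K8) +
      m * K8 * (m * K64 * (m * K64)), by positivity, ?_⟩
  intro N q J u v w d₁ d₂ hN hR hJ e1 e2 e3 e4
  have b1 := dT_le_half hN u w
  have b2 := dT_le_half hN u v
  obtain ⟨g, hg⟩ : ∃ g : ℕ → ℝ, g = fun r => a4 q r := ⟨_, rfl⟩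
  have hg0 : ∀ r, 0 ≤ g r := fun r => by rw [hg]; exact a4_nonneg q r
  have hgr : ∀ r, a4 q r = g r := fun r => by rw [hg]
  obtain ⟨X, hX⟩ : ∃ X : ℝ, X = g (d₁ + 1) := ⟨_, rfl⟩
  obtain ⟨Y, hY⟩ : ∃ Y : ℝ, Y = g (d₂ + 1) := ⟨_, rfl⟩
  have hX0 : 0 ≤ X := by rw [hX]; exact hg0 _
  have hY0 : 0 ≤ Y := by rw [hY]; exact hg0 _
  rw [hgr, hgr, ← hX, ← hY]
  have hd1N : d₁ + 1 ≤ 2 * N := by omega
  have hd2N : d₂ + 1 ≤ 2 * N := by omega
  have z1 : 0 ≤ K8 * (C₁ * K8) * K8 * (X * (Y * Y)) := by positivity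
  have z2 : 0 ≤ K8 * K64 * K8 * (X * (Y * Y)) := by positivity
  have z3 : 0 ≤ m * (m * (K64 * C₁)) * (K8 * K8) * (X * (Y * Y)) := by positivity
  have z4 : 0 ≤ m * K8 * (m * K64 * (m * K64)) * (X * (Y * Y)) := by positivity
  rw [add_mul, add_mul, add_mul]
  -- comparisons
  have c8 : ∀ r n : ℕ, 1 ≤ r → 1 ≤ n → n ≤ 8 * r → n ≤ 2 * N → g r ≤ K8 * g n := by
    intro r n h1 h2 h3 h4
    rw [← hgr, ← hgr]
    exact hK8 r n q h1 h2 h3 (sreg_anti hR (by omega))
  have c64 : ∀ r n : ℕ, 1 ≤ r → 1 ≤ n → n ≤ 64 * r → n ≤ 2 * N → g r ≤ K64 * g n := by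
    intro r n h1 h2 h3 h4
    rw [← hgr, ← hgr]
    exact hK64 r n q h1 h2 h3 (sreg_anti hR (by omega))
  have hone : 1 ≤ m * g 1 := by
    have h1 := a4_one q (m := c / 10) (by positivity) (sreg_mem hc (by omega) hR).2
    rw [hgr] at h1
    rw [hm, div_mul_eq_mul_div, one_mul, one_le_div (by positivity)]
    exact h1
  by_cases hd1 : 8 ≤ d₁
  · by_cases hcase : 16 * (d₁ / 4) ≤ d₂ / 2
    · -- annulus
      have h1 := Pr_roleS_A q hJ (r := d₁ / 4) (t := 16 * (d₁ / 4)) (R := d₂ / 2)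
        (r' := d₂ / 4) hN (by omega) (by omega) (by omega) hcase (by omega) (by omega) (by omega)
      have h2 := hQ (128 * N) (d₁ / 4) (d₂ / 2) q (by omega) hcase (by omega) hR
      have h3 := c8 (d₁ / 4) (d₁ + 1) (by omega) (by omega) (by omega) (by omega)
      have h4 := c8 (d₂ / 4) (d₂ + 1) (by omega) (by omega) (by omega) (by omega)
      have h5 := c8 (d₂ / 2) (d₂ + 1) (by omega) (by omega) (by omega) (by omega)
      rw [hgr, hgr] at h1
      rw [hgr, hgr] at h2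
      rw [← hX] at h3
      rw [← hY] at h4 h5
      have hA20 : 0 ≤ Pool.Agent.H83.SK.Pr q (A2 (16 * (d₁ / 4)) (d₂ / 2)) :=
        Pool.Agent.H83.SK.Pr_nonneg
      have h6 : g (d₁ / 4) * g (d₁ / 4) *
          (Pool.Agent.H83.SK.Pr q (A2 (16 * (d₁ / 4)) (d₂ / 2)) * g (d₂ / 4)) ≤
          K8 * (C₁ * K8) * K8 * (X * (Y * Y)) := by
        calc g (d₁ / 4) * g (d₁ / 4) *
            (Pool.Agent.H83.SK.Pr q (A2 (16 * (d₁ / 4)) (d₂ / 2)) * g (d₂ / 4))
            = g (d₁ / 4) * (g (d₁ / 4) *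
              Pool.Agent.H83.SK.Pr q (A2 (16 * (d₁ / 4)) (d₂ / 2))) * g (d₂ / 4) := by
              ring
          _ ≤ (K8 * X) * (C₁ * (K8 * Y)) * (K8 * Y) := by
              refine mul_le_mul (mul_le_mul h3 (h2.trans ?_) (mul_nonneg (hg0 _) hA20)
                (by positivity)) h4 (hg0 _) (by positivity)
              exact mul_le_mul_of_nonneg_left h5 hC₁.le
          _ = _ := by ring
      linarith
    · -- comparable distances
      have h1 := Pr_roleS_B q hJ (r := d₁ / 4) (r' := d₂ / 4) hN (by omega) (by omega)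
        (by omega) (by omega) (by omega)
      have h3 := c8 (d₁ / 4) (d₁ + 1) (by omega) (by omega) (by omega) (by omega)
      have h3' := c64 (d₁ / 4) (d₂ + 1) (by omega) (by omega) (by omega) (by omega)
      have h4 := c8 (d₂ / 4) (d₂ + 1) (by omega) (by omega) (by omega) (by omega)
      rw [hgr, hgr] at h1
      rw [← hX] at h3
      rw [← hY] at h3' h4
      have h6 : g (d₁ / 4) * g (d₁ / 4) * g (d₂ / 4) ≤ K8 * K64 * K8 * (X * (Y * Y)) := by
        calc g (d₁ / 4) * g (d₁ / 4) * g (d₂ / 4) ≤ (K8 * X) * (K64 * Y) * (K8 * Y) :=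
              mul_le_mul (mul_le_mul h3 h3' (hg0 _) (by positivity)) h4 (hg0 _) (by positivity)
          _ = _ := by ring
      linarith
  · push Not at hd1
    have hXone : 1 ≤ m * K8 * X := by
      have h1 := c8 1 (d₁ + 1) le_rfl (by omega) (by omega) hd1N
      rw [← hX] at h1
      calc (1 : ℝ) ≤ m * g 1 := hone
        _ ≤ m * (K8 * X) := mul_le_mul_of_nonneg_left h1 pm.le
        _ = _ := by ring
    by_cases hd2 : 63 ≤ d₂
    · have h1 := Pr_roleS_C q hJ (t := 16) (R := d₂ / 2) (r' := d₂ / 4) hN (by omega) (by omega)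
        (by omega) (by omega) (by omega)
      have h2 := hQ (128 * N) 1 (d₂ / 2) q le_rfl (by omega) (by omega) hR
      have h4 := c8 (d₂ / 4) (d₂ + 1) (by omega) (by omega) (by omega) (by omega)
      have h5 := c64 (d₂ / 2) (d₂ + 1) (by omega) (by omega) (by omega) (by omega)
      rw [hgr] at h1
      rw [mul_one, hgr (d₂ / 2), hgr 1] at h2
      rw [← hY] at h4 h5
      have hA20 : 0 ≤ Pool.Agent.H83.SK.Pr q (A2 16 (d₂ / 2)) := Pool.Agent.H83.SK.Pr_nonneg
      have h8 : Pool.Agent.H83.SK.Pr q (A2 16 (d₂ / 2)) ≤ m * (C₁ * (K64 * Y)) := by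
        calc Pool.Agent.H83.SK.Pr q (A2 16 (d₂ / 2))
            = 1 * Pool.Agent.H83.SK.Pr q (A2 16 (d₂ / 2)) := (one_mul _).symm
          _ ≤ m * g 1 * Pool.Agent.H83.SK.Pr q (A2 16 (d₂ / 2)) :=
              mul_le_mul_of_nonneg_right hone hA20
          _ = m * (g 1 * Pool.Agent.H83.SK.Pr q (A2 16 (d₂ / 2))) := by ring
          _ ≤ m * (C₁ * (K64 * Y)) :=
              mul_le_mul_of_nonneg_left (h2.trans (mul_le_mul_of_nonneg_left h5 hC₁.le)) pm.le
      have h6 : Pool.Agent.H83.SK.Pr q (A2 16 (d₂ / 2)) * g (d₂ / 4) ≤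
          m * (m * (K64 * C₁)) * (K8 * K8) * (X * (Y * Y)) := by
        calc Pool.Agent.H83.SK.Pr q (A2 16 (d₂ / 2)) * g (d₂ / 4) ≤
              (m * (C₁ * (K64 * Y))) * (K8 * Y) :=
              mul_le_mul h8 h4 (hg0 _) (by positivity)
          _ = m * (K64 * C₁) * K8 * (Y * Y) * 1 := by ring
          _ ≤ m * (K64 * C₁) * K8 * (Y * Y) * (m * K8 * X) :=
              mul_le_mul_of_nonneg_left hXone (by positivity)
          _ = _ := by ring
      linarith
    · push Not at hd2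
      have hYone : 1 ≤ m * K64 * Y := by
        have h1 := c64 1 (d₂ + 1) le_rfl (by omega) (by omega) hd2N
        rw [← hY] at h1
        calc (1 : ℝ) ≤ m * g 1 := hone
          _ ≤ m * (K64 * Y) := mul_le_mul_of_nonneg_left h1 pm.le
          _ = _ := by ring
      have h1 : Pr q J ≤ 1 := Pr_le_one
      have h2 : (1 : ℝ) ≤ m * K8 * (m * K64 * (m * K64)) * (X * (Y * Y)) := by
        calc (1 : ℝ) = 1 * (1 * 1) := by ring
          _ ≤ (m * K8 * X) * ((m * K64 * Y) * (m * K64 * Y)) :=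
              mul_le_mul hXone (mul_le_mul hYone hYone zero_le_one (by positivity)) (by norm_num)
                (by positivity)
          _ = _ := by ring
      linarith

end Pool.Agent.H92.SN
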