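import Pool.Agent.H92.SN.TSym
import Pool.Agent.H29.Kap.Count

/-!
# The number of open clusters
-/

set_option autoImplicit false

open MeasureTheory ProbabilityTheory unitInterval

namespace Pool.Agent.H92.SN

open Pool.Agent.H89.Perc
open Pool.Agent.H83.SK (sv sit)

/-- The open clusters of the site configuration `w` in the set `S`. -/
def oClus (w : Config) (S : Set Vert) : Set (Set Vert) :=
  {C | ∃ v ∈ S, w (sv v) = true ∧ C = {u | Conn (sit w) S v u}}

/-- The number of open clusters of the site configuration `w` in the set `S`. -/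
noncomputable def KO (w : Config) (S : Set Vert) : ℕ := (oClus w S).ncard

private theorem kc_left {w : Config} {S : Set Vert} {a b : Vert} (h : Conn (sit w) S a b)
    (hab : a ≠ b) : w (sv a) = true := by
  obtain ⟨x, x', h4, h5, -, -⟩ := h.exists_exit (T := {a}) rfl (by simpa using Ne.symm hab)
  have hx : x = a := h4.mem_right.2
  subst hx
  obtain ⟨-, -, e, he, ho⟩ := h5
  rw [Pool.Agent.H83.SK.sit_true] at ho
  rcases he with ⟨h7, -⟩ | ⟨h7, -⟩
  · rw [h7]; exact ho.1
  · rw [h7]; exact ho.2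

private theorem kc_right {w : Config} {S : Set Vert} {a b : Vert} (h : Conn (sit w) S a b)
    (hab : a ≠ b) : w (sv b) = true := kc_left h.symm (Ne.symm hab)

private theorem kc_nb_ne (v : Vert) {i j : ℕ} (hi : i < 4) (hj : j < i) : nb v j ≠ nb v i := by
  obtain ⟨x, y⟩ := v
  have hcases : (j = 0 ∧ i = 1) ∨ (j = 0 ∧ i = 2) ∨ (j = 1 ∧ i = 2) ∨ (j = 0 ∧ i = 3) ∨
      (j = 1 ∧ i = 3) ∨ (j = 2 ∧ i = 3) := by omega
  rcases hcases with ⟨rfl, rfl⟩ | ⟨rfl, rfl⟩ | ⟨rfl, rfl⟩ | ⟨rfl, rfl⟩ | ⟨rfl, rfl⟩ | ⟨rfl, rfl⟩ <;>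
    simp only [nb, ne_eq, Prod.mk.injEq] <;> omega

private theorem kc_nb_ne_v (v : Vert) (i : ℕ) : nb v i ≠ v := (nb_Nb v i).ne

private theorem kc_joins {e : Edge} {a b : Vert} (h : Joins e a b) {v : Vert} (ha : a ≠ v)
    (hb : b ≠ v) : src e ≠ v ∧ tgt e ≠ v := by
  rcases h with ⟨h5, h6⟩ | ⟨h5, h6⟩
  · subst h5 h6; exact ⟨ha, hb⟩
  · subst h5 h6; exact ⟨hb, ha⟩

open Classical in
private theorem kc_card {α : Type*} (P : ℕ → Prop) (f : ℕ → α) (n : ℕ) :
    ((((Finset.range n).filter P).image f).card : ℤ) =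
      ∑ i ∈ Finset.range n, if P i ∧ ¬ ∃ j < i, P j ∧ f j = f i then (1 : ℤ) else 0 := by
  induction n with
  | zero => simp
  | succ n ih =>
    rw [Finset.sum_range_succ, ← ih, Finset.range_add_one, Finset.filter_insert]
    by_cases hP : P n
    · rw [if_pos hP, Finset.image_insert]
      by_cases hE : ∃ j < n, P j ∧ f j = f n
      · rw [if_neg (fun h => h.2 hE), Finset.insert_eq_of_mem]
        · simp
        · obtain ⟨j, hj, hPj, hf⟩ := hE
          exact Finset.mem_image.2 ⟨j, by simp [hj, hPj], hf⟩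
      · rw [if_pos ⟨hP, hE⟩, Finset.card_insert_of_notMem]
        · push_cast
          ring
        · intro hmem
          obtain ⟨j, hj, hf⟩ := Finset.mem_image.1 hmem
          rw [Finset.mem_filter, Finset.mem_range] at hj
          exact hE ⟨j, hj.1, hj.2, hf⟩
    · rw [if_neg hP, if_neg (fun h => hP h.1)]
      simp

open Classical in
/-- The change of the number of open clusters when the site `v` is opened. -/
theorem KO_update {S : Set Vert} (hS : S.Finite) {v : Vert} (hv : v ∈ S) (w : Config) :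
    (KO (Function.update w (sv v) true) S : ℤ) - KO (Function.update w (sv v) false) S =
      1 - (∑ i ∈ Finset.range 4, if nb v i ∈ S ∧ w (sv (nb v i)) = true then (1 : ℤ) else 0) +
        ∑ i ∈ Finset.Icc 1 3, if sit w ∈ Dn S v i then (1 : ℤ) else 0 := by
  have hs0 : sit (Function.update w (sv v) false) = closeV v (sit w) := sit_shut v w
  set w1 := Function.update w (sv v) true with hw1
  set w0 := Function.update w (sv v) false with hw0
  have hv1 : w1 (sv v) = true := by rw [hw1]; simp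
  have hv0 : w0 (sv v) = false := by rw [hw0]; simp
  have hu1 : ∀ u, u ≠ v → w1 (sv u) = w (sv u) := fun u hu => by
    rw [hw1, Function.update_of_ne (sv_ne hu)]
  have hu0 : ∀ u, u ≠ v → w0 (sv u) = w (sv u) := fun u hu => by
    rw [hw0, Function.update_of_ne (sv_ne hu)]
  have hle : ∀ e, w0 e = true → w1 e = true := by
    intro e he
    by_cases h : e = sv v
    · subst h; exact hv1
    · rw [hw0, Function.update_of_ne h] at he
      rw [hw1, Function.update_of_ne h]
      exact he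
  have hmono : ∀ {a b : Vert}, Conn (sit w0) S a b → Conn (sit w1) S a b := fun h =>
    h.mono subset_rfl (Pool.Agent.H83.SK.sit_mono hle)
  have hedge : ∀ e : Edge, src e ≠ v → tgt e ≠ v → sit w1 e = sit w0 e := by
    intro e h1 h2
    simp only [sit]
    rw [hu1 _ h1, hu1 _ h2, hu0 _ h1, hu0 _ h2]
  -- `v` is isolated in `w0`
  have hiso : ∀ {a : Vert}, Conn (sit w0) S a v → a = v := by
    intro a h
    by_contra hne
    have := kc_right h hne
    rw [hv0] at this
    exact Bool.false_ne_true this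
  -- the connection to `v` in `w1`
  have hnbv : ∀ i, nb v i ∈ S → w (sv (nb v i)) = true → Conn (sit w1) S (nb v i) v := by
    intro i hi ho
    obtain ⟨e, he⟩ := nb_Nb v i
    have h3 : w1 (sv (nb v i)) = true := by rw [hu1 _ (kc_nb_ne_v v i)]; exact ho
    refine (Step.conn ⟨hv, hi, e, he, ?_⟩ : Conn (sit w1) S v (nb v i)).symm
    rw [Pool.Agent.H83.SK.sit_true]
    rcases he with ⟨h1, h2⟩ | ⟨h1, h2⟩
    · rw [← h1, ← h2]; exact ⟨hv1, h3⟩
    · rw [← h1, ← h2]; exact ⟨h3, hv1⟩
  have hto : ∀ u, u ≠ v → Conn (sit w1) S u v →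
      ∃ i, i < 4 ∧ nb v i ∈ S ∧ w (sv (nb v i)) = true ∧ Conn (sit w0) S u (nb v i) := by
    intro u hu h
    obtain ⟨x, y, h1, h2, h3, -⟩ := h.exists_hit (T := {v}) hu rfl
    have hy : y = v := h3
    subst hy
    have hxS : x ∈ S ∧ x ≠ y := h1.mem_right
    have hopen : w (sv x) = true := by
      rw [← hu1 x hxS.2]
      exact kc_left h2.conn hxS.2
    have hnb : Nb y x := by
      obtain ⟨-, -, e, he, -⟩ := h2
      exact ⟨e, by rcases he with he | he; exacts [Or.inr ⟨he.2, he.1⟩, Or.inl ⟨he.2, he.1⟩]⟩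
    obtain ⟨i, hi, rfl⟩ := hnb.exists_nb
    refine ⟨i, hi, hxS.1, hopen, ?_⟩
    have h4 : Conn (sit w0) (S \ {y}) u (nb y i) :=
      h1.congr fun e he1 he2 => hedge e he1.2 he2.2
    exact h4.mono_set Set.sdiff_subset
  have hfar : ∀ u x, ¬ Conn (sit w1) S u v → Conn (sit w1) S u x → Conn (sit w0) S u x := by
    intro u x hn h
    have h' : Conn (sit w1) S u x ∧ Conn (sit w0) S u x := by
      refine h.induction_right (P := fun z => Conn (sit w1) S u z ∧ Conn (sit w0) S u z)
        ⟨Conn.refl h.mem_left, Conn.refl h.mem_left⟩ ?_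
      rintro a b _ hab ⟨h1, h2⟩
      have hb : Conn (sit w1) S u b := h1.tail hab
      refine ⟨hb, h2.tail ?_⟩
      have ha' : a ≠ v := fun h => hn (h ▸ h1)
      have hb' : b ≠ v := fun h => hn (h ▸ hb)
      obtain ⟨h3, h4, e, he, ho⟩ := hab
      obtain ⟨h5, h6⟩ := kc_joins he ha' hb'
      exact ⟨h3, h4, e, he, by rw [← hedge e h5 h6]; exact ho⟩
    exact h'.2
  -- clusters
  set cl : Vert → Set Vert := fun u => {x | Conn (sit w0) S u x} with hcl
  have hcl_eq : ∀ {a b : Vert}, Conn (sit w0) S a b → cl a = cl b := by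
    intro a b h
    ext x
    exact ⟨fun h' => h.symm.trans h', fun h' => h.trans h'⟩
  have hcl_conn : ∀ {a b : Vert}, b ∈ S → cl a = cl b → Conn (sit w0) S a b := by
    intro a b hb h
    have : b ∈ cl b := Conn.refl hb
    rw [← h] at this
    exact this
  obtain ⟨P, hP⟩ : ∃ P : ℕ → Prop, ∀ i, P i ↔ (nb v i ∈ S ∧ w (sv (nb v i)) = true) :=
    ⟨fun i => nb v i ∈ S ∧ w (sv (nb v i)) = true, fun _ => Iff.rfl⟩
  set M : Finset (Set Vert) := ((Finset.range 4).filter P).image (fun i => cl (nb v i)) with hM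
  set A : Set (Set Vert) := {C | ∃ u ∈ S, u ≠ v ∧ w (sv u) = true ∧ ¬ Conn (sit w1) S u v ∧
    C = cl u} with hA
  have hAfin : A.Finite := by
    refine (hS.image cl).subset ?_
    rintro C ⟨u, hu, -, -, -, rfl⟩
    exact ⟨u, hu, rfl⟩
  have h0 : oClus w0 S = A ∪ (M : Set (Set Vert)) := by
    ext C
    constructor
    · rintro ⟨u, hu, ho, rfl⟩
      have huv : u ≠ v := by
        rintro rfl
        rw [hv0] at ho
        exact Bool.false_ne_true ho
      rw [hu0 u huv] at ho
      by_cases hc : Conn (sit w1) S u v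
      · right
        obtain ⟨i, hi, h1, h2, h3⟩ := hto u huv hc
        rw [hM, Finset.mem_coe, Finset.mem_image]
        refine ⟨i, ?_, (hcl_eq h3).symm⟩
        rw [Finset.mem_filter, Finset.mem_range]
        exact ⟨hi, (hP i).2 ⟨h1, h2⟩⟩
      · left
        exact ⟨u, hu, huv, ho, hc, rfl⟩
    · rintro (⟨u, hu, huv, ho, -, rfl⟩ | hC)
      · exact ⟨u, hu, by rw [hu0 u huv]; exact ho, rfl⟩
      · rw [hM, Finset.mem_coe, Finset.mem_image] at hC
        obtain ⟨i, hi, rfl⟩ := hC
        rw [Finset.mem_filter, hP] at hi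
        exact ⟨nb v i, hi.2.1, by rw [hu0 _ (kc_nb_ne_v v i)]; exact hi.2.2, rfl⟩
  have hdisj : Disjoint A (M : Set (Set Vert)) := by
    rw [Set.disjoint_left]
    rintro C ⟨u, hu, huv, ho, hn, rfl⟩ hC
    rw [hM, Finset.mem_coe, Finset.mem_image] at hC
    obtain ⟨i, hi, h1⟩ := hC
    rw [Finset.mem_filter, hP] at hi
    exact hn ((hmono (hcl_conn hi.2.1 h1.symm)).trans (hnbv i hi.2.1 hi.2.2))
  have h1 : oClus w1 S = insert {x | Conn (sit w1) S v x} A := by
    ext C
    rw [Set.mem_insert_iff]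
    constructor
    · rintro ⟨u, hu, ho, rfl⟩
      by_cases hc : Conn (sit w1) S u v
      · left
        ext x
        exact ⟨fun h => hc.symm.trans h, fun h => hc.trans h⟩
      · right
        have huv : u ≠ v := fun h => hc (h ▸ Conn.refl hu)
        rw [hu1 u huv] at ho
        refine ⟨u, hu, huv, ho, hc, ?_⟩
        ext x
        exact ⟨fun h => hfar u x hc h, fun h => hmono h⟩
    · rintro (rfl | ⟨u, hu, huv, ho, hc, rfl⟩)
      · exact ⟨v, hv, hv1, rfl⟩
      · refine ⟨u, hu, by rw [hu1 u huv]; exact ho, ?_⟩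
        ext x
        exact ⟨fun h => hmono h, fun h => hfar u x hc h⟩
  have hnot : {x | Conn (sit w1) S v x} ∉ A := by
    rintro ⟨u, hu, huv, ho, hc, h⟩
    have : v ∈ {x | Conn (sit w1) S v x} := Conn.refl hv
    rw [h] at this
    exact huv (hiso this)
  have hK1 : KO w1 S = A.ncard + 1 := by
    unfold KO
    rw [h1, Set.ncard_insert_of_notMem hnot hAfin]
  have hK0 : KO w0 S = A.ncard + M.card := by
    unfold KO
    rw [h0, Set.ncard_union_eq hdisj hAfin M.finite_toSet, Set.ncard_coe_finset]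
  have hMc : (M.card : ℤ) = ∑ i ∈ Finset.range 4,
      if P i ∧ ¬ ∃ j < i, P j ∧ cl (nb v j) = cl (nb v i) then (1 : ℤ) else 0 := by
    have hc := kc_card P (fun i => cl (nb v i)) 4
    rw [hM]
    exact hc
  have hkey : ∀ i ∈ Finset.range 4,
      (if P i ∧ ¬ ∃ j < i, P j ∧ cl (nb v j) = cl (nb v i) then (1 : ℤ) else 0) =
      (if P i then (1 : ℤ) else 0) - if sit w ∈ Dn S v i then (1 : ℤ) else 0 := by
    intro i hi
    have hi4 : i < 4 := Finset.mem_range.1 hi
    by_cases hD : sit w ∈ Dn S v i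
    · obtain ⟨j, hj, hc⟩ := hD
      rw [← hs0] at hc
      have hne := kc_nb_ne v hi4 hj
      have hPj : P j := (hP j).2 ⟨hc.mem_left, by
        rw [← hu0 _ (kc_nb_ne_v v j)]; exact kc_left hc hne⟩
      have hPi : P i := (hP i).2 ⟨hc.mem_right, by
        rw [← hu0 _ (kc_nb_ne_v v i)]; exact kc_right hc hne⟩
      rw [if_neg (fun h => h.2 ⟨j, hj, hPj, hcl_eq hc⟩), if_pos hPi,
        if_pos (show sit w ∈ Dn S v i from ⟨j, hj, by rw [← hs0]; exact hc⟩)]
      ring
    · rw [if_neg hD, sub_zero]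
      by_cases hPi : P i
      · rw [if_pos hPi, if_pos]
        refine ⟨hPi, ?_⟩
        rintro ⟨j, hj, hPj, h⟩
        exact hD ⟨j, hj, by rw [← hs0]; exact hcl_conn ((hP i).1 hPi).1 h⟩
      · rw [if_neg hPi, if_neg (fun h => hPi h.1)]
  have hD0 : ¬ sit w ∈ Dn S v 0 := by
    rintro ⟨j, hj, -⟩
    omega
  have hIcc : ∑ i ∈ Finset.Icc 1 3, (if sit w ∈ Dn S v i then (1 : ℤ) else 0) =
      ∑ i ∈ Finset.range 4, if sit w ∈ Dn S v i then (1 : ℤ) else 0 := by
    have : Finset.Icc 1 3 = ({1, 2, 3} : Finset ℕ) := by decide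
    rw [this]
    simp only [Finset.sum_range_succ, Finset.sum_range_zero, if_neg hD0]
    rw [Finset.sum_insert (by decide), Finset.sum_insert (by decide), Finset.sum_singleton]
    ring
  have hP4 : ∑ i ∈ Finset.range 4, (if P i then (1 : ℤ) else 0) =
      ∑ i ∈ Finset.range 4, if nb v i ∈ S ∧ w (sv (nb v i)) = true then (1 : ℤ) else 0 := by
    refine Finset.sum_congr rfl fun i _ => ?_
    by_cases h : P i
    · rw [if_pos h, if_pos ((hP i).1 h)]
    · rw [if_neg h, if_neg fun h' => h ((hP i).2 h')]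
  rw [Finset.sum_congr rfl hkey, Finset.sum_sub_distrib, hP4] at hMc
  rw [hK1, hK0, hIcc]
  push_cast
  rw [hMc]
  ring

end Pool.Agent.H92.SN
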