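import Pool.Agent.H92.SN.Sum
import Pool.Agent.H61.NC.Calc

/-!
# Near-critical stability of the influences
-/

set_option autoImplicit false

open MeasureTheory ProbabilityTheory unitInterval

namespace Pool.Agent.H92.SN

open Pool.Agent.H89.Perc
open Pool.Agent.H61.NC (fill mid upd Joint PrR' dist0 PrR'_eq hasDerivAt_PrR_eq hasDerivAt_PrR'
  abs_second_le stability)
open Pool.Agent.H83.SK (sv sit)

theorem FT'_eq {N : ℕ} (hN : 1 ≤ N) (q : I) : FT' N q = (N : ℝ) ^ 2 * sT q N := by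
  unfold FT'
  rw [PrR'_eq (localOn_WindS hN), sum_pivot hN]

theorem one_le_sum_a4 (hGL : GLTorus) (hBL : BlockLow) : ∀ c : ℝ, 0 < c → ∃ C : ℝ, 0 < C ∧
    ∀ (N : ℕ) (q : I), 64 ≤ N → SReg c N q → 1 ≤ C * ((N : ℝ) ^ 2 * sT q N) := by
  intro c hc
  obtain ⟨C, hC, H⟩ := sum_a4 hGL hBL c hc
  refine ⟨C / (c / 10) ^ 9, by positivity, fun N q hN hR => ?_⟩
  have h3 := H N q hN hR
  have h4 : (1 : ℝ) * a4 q 1 ≤ ∑ t ∈ Finset.Icc 1 N, (t : ℝ) * a4 q t := by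
    have := Finset.single_le_sum (f := fun t : ℕ => (t : ℝ) * a4 q t)
      (fun t _ => mul_nonneg (Nat.cast_nonneg t) (a4_nonneg q t))
      (Finset.mem_Icc.2 ⟨le_rfl, by omega⟩ : 1 ∈ Finset.Icc 1 N)
    simpa using this
  have h5 := a4_one q (m := c / 10) (by positivity) (sreg_mem hc (by omega) hR).2
  have hm : 0 < (c / 10) ^ 9 := by positivity
  rw [div_mul_eq_mul_div, le_div_iff₀ hm]
  linarith

theorem sT_pos (hGL : GLTorus) (hBL : BlockLow) {c : ℝ} (hc : 0 < c) {N : ℕ} {q : I}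
    (hN : 64 ≤ N) (hR : SReg c N q) : 0 < sT q N := by
  obtain ⟨C, hC, H⟩ := one_le_sum_a4 hGL hBL c hc
  have h3 := H N q hN hR
  by_contra h
  push Not at h
  have h0 : (N : ℝ) ^ 2 * sT q N ≤ 0 := mul_nonpos_of_nonneg_of_nonpos (by positivity) h
  have := mul_nonpos_of_nonneg_of_nonpos hC.le h0
  linarith

theorem FT'_pos (hGL : GLTorus) (hBL : BlockLow) {c : ℝ} (hc : 0 < c) {N : ℕ} {q : I}
    (hN : 64 ≤ N) (hR : SReg c N q) : 0 < FT' N q := by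
  rw [FT'_eq (by omega)]
  have h1 := sT_pos hGL hBL hc hN hR
  have h2 : (0 : ℝ) < N := by exact_mod_cast (by omega : 0 < N)
  positivity

theorem second_le (hGL : GLTorus) (hBL : BlockLow) : ∀ c : ℝ, 0 < c → ∃ C : ℝ, 0 < C ∧
    ∀ (N : ℕ) (q : I), 64 ≤ N → SReg c N q →
      ∑ e ∈ tSites N, ∑ f ∈ (tSites N).erase e, Pr q (Joint (WindS N) e f) ≤
        C * FT' N q ^ 2 := by
  intro c hc
  obtain ⟨C, hC, H⟩ := sum_joint_ctr hGL hBL c hc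
  refine ⟨C, hC, fun N q hN hR => ?_⟩
  have hN1 : 1 ≤ N := by omega
  rw [sum_joint hN1, FT'_eq hN1]
  have ha := H N q hN hR
  have hN2 : (0 : ℝ) ≤ (N : ℝ) ^ 2 := by positivity
  calc (N : ℝ) ^ 2 * ∑ f ∈ (tSites N).erase (cE N), Pr q (Joint (WindS N) (cE N) f)
      ≤ (N : ℝ) ^ 2 * (C * ((N : ℝ) ^ 2 * sT q N ^ 2)) := mul_le_mul_of_nonneg_left ha hN2
    _ = C * ((N : ℝ) ^ 2 * sT q N) ^ 2 := by ring

theorem near_critical (hGL : GLTorus) (hBL : BlockLow) : ∀ c : ℝ, 0 < c → ∃ K : ℝ, 0 < K ∧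
    ∀ (N : ℕ) (q₀ q₁ : I), 64 ≤ N → q₀ ≤ q₁ → (∀ q : I, q₀ ≤ q → q ≤ q₁ → SReg c N q) →
      FT' N q₁ ≤ K * FT' N q₀ ∧ FT' N q₀ ≤ K * FT' N q₁ := by
  intro c hc
  obtain ⟨C, hC, H⟩ := second_le hGL hBL c hc
  refine ⟨Real.exp C, Real.exp_pos _, fun N q₀ q₁ hN h01 hR => ?_⟩
  have hN1 : 1 ≤ N := by omega
  have hloc := localOn_WindS hN1
  have hmem : ∀ x ∈ Set.Icc (q₀ : ℝ) q₁, ∃ q : I, (q : ℝ) = x ∧ q₀ ≤ q ∧ q ≤ q₁ := by
    intro x hx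
    exact ⟨⟨x, q₀.2.1.trans hx.1, hx.2.trans q₁.2.2⟩, rfl, hx.1, hx.2⟩
  have key := stability (F := PrR (tSites N) (WindS N)) (F' := PrR' (tSites N) (WindS N))
    (F'' := fun x => if hx : x ∈ I then
      ∑ e ∈ tSites N, ∑ f ∈ tSites N, (pivot ⟨x, hx⟩ (upd (WindS N) e true) f -
        pivot ⟨x, hx⟩ (upd (WindS N) e false) f) else 0)
    (a := q₀) (b := q₁) (K := C) h01 hC.le ?_ ?_ ?_ ?_ ?_
  · exact key
  · intro x hx
    obtain ⟨q, rfl, hq0, hq1⟩ := hmem x hx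
    exact hasDerivAt_PrR_eq hloc q
  · intro x hx
    obtain ⟨q, rfl, hq0, hq1⟩ := hmem x hx
    have := hasDerivAt_PrR' hloc q
    simp only [Subtype.coe_prop, dite_true, Subtype.coe_eta]
    exact this
  · intro x hx
    obtain ⟨q, rfl, hq0, hq1⟩ := hmem x hx
    exact FT'_pos hGL hBL hc hN (hR q hq0 hq1)
  · intro x hx
    obtain ⟨q, rfl, hq0, hq1⟩ := hmem x hx
    simp only [Subtype.coe_prop, dite_true, Subtype.coe_eta]
    refine (abs_second_le hloc (incr_WindS N) q).trans ?_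
    exact H N q hN (hR q hq0 hq1)
  · intro x hx
    obtain ⟨q, rfl, hq0, hq1⟩ := hmem x hx
    rw [← Pr_eq_PrR hloc]
    exact ⟨Pr_nonneg, Pr_le_one⟩

theorem FT'_le {N r : ℕ} (q : I) (hr : 1 ≤ r) (h : 2 * r + 2 ≤ N) :
    FT' N q ≤ (N : ℝ) ^ 2 * a4 q r := by
  rw [FT'_eq (by omega)]
  exact mul_le_mul_of_nonneg_left (pivot_le_a4 q (cE_mem (by omega)) hr h) (by positivity)

theorem le_FT' (hGL : GLTorus) (hBL : BlockLow) : ∀ c : ℝ, 0 < c → ∃ C : ℝ, 0 < C ∧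
    ∀ (N : ℕ) (q : I), 64 ≤ N → SReg c N q → (N : ℝ) ^ 2 * a4 q (N / 64) ≤ C * FT' N q := by
  intro c hc
  obtain ⟨C, hC, H⟩ := a4_le_sT hGL hBL c hc
  refine ⟨C, hC, fun N q hN hR => ?_⟩
  rw [FT'_eq (by omega)]
  calc (N : ℝ) ^ 2 * a4 q (N / 64) ≤ (N : ℝ) ^ 2 * (C * sT q N) :=
        mul_le_mul_of_nonneg_left (H N q hN hR) (by positivity)
    _ = _ := by ring

theorem window (hGL : GLTorus) (hBL : BlockLow) : ∀ c : ℝ, 0 < c → ∃ K : ℝ, 0 < K ∧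
    ∀ (N : ℕ) (q₀ q₁ : I), 64 ≤ N → q₀ ≤ q₁ → (∀ q : I, q₀ ≤ q → q ≤ q₁ → SReg c N q) →
      ((q₁ : ℝ) - q₀) * FT' N q₀ ≤ K * (Pr q₁ (WindS N) - Pr q₀ (WindS N)) ∧
      Pr q₁ (WindS N) - Pr q₀ (WindS N) ≤ K * (((q₁ : ℝ) - q₀) * FT' N q₀) := by
  intro c hc
  obtain ⟨K, hK, H⟩ := near_critical hGL hBL c hc
  refine ⟨K, hK, fun N q₀ q₁ hN h01 hR => ?_⟩
  have hN1 : 1 ≤ N := by omega
  have hloc := localOn_WindS hN1
  have h01' : (q₀ : ℝ) ≤ q₁ := h01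
  have hder : ∀ q : I, q₀ ≤ q → q ≤ q₁ →
      HasDerivAt (PrR (tSites N) (WindS N)) (FT' N q) (q : ℝ) := by
    intro q _ _
    exact hasDerivAt_PrR_eq hloc q
  have hst : ∀ q : I, q₀ ≤ q → q ≤ q₁ → FT' N q ≤ K * FT' N q₀ ∧ FT' N q₀ ≤ K * FT' N q := by
    intro q hq0 hq1
    exact H N q₀ q hN hq0 fun q' h2 h3 => hR q' h2 (h3.trans hq1)
  rw [Pr_eq_PrR hloc, Pr_eq_PrR hloc]
  have hmem : ∀ x ∈ Set.Icc (q₀ : ℝ) q₁, ∃ q : I, (q : ℝ) = x ∧ q₀ ≤ q ∧ q ≤ q₁ := by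
    intro x hx
    exact ⟨⟨x, q₀.2.1.trans hx.1, hx.2.trans q₁.2.2⟩, rfl, hx.1, hx.2⟩
  have hcont : ContinuousOn (PrR (tSites N) (WindS N)) (Set.Icc (q₀ : ℝ) q₁) := by
    intro x hx
    obtain ⟨q, rfl, hq0, hq1⟩ := hmem x hx
    exact (hder q hq0 hq1).continuousAt.continuousWithinAt
  constructor
  · have h2 := Convex.mul_sub_le_image_sub_of_le_deriv (convex_Icc (q₀ : ℝ) q₁)
      (f := PrR (tSites N) (WindS N)) hcont ?_ (C := FT' N q₀ / K) ?_ (q₀ : ℝ) ⟨le_rfl, h01'⟩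
      (q₁ : ℝ) ⟨h01', le_rfl⟩ h01'
    · calc ((q₁ : ℝ) - q₀) * FT' N q₀ = K * (FT' N q₀ / K * ((q₁ : ℝ) - q₀)) := by
            field_simp
        _ ≤ _ := mul_le_mul_of_nonneg_left h2 hK.le
    · intro x hx
      rw [interior_Icc] at hx
      obtain ⟨q, rfl, hq0, hq1⟩ := hmem x ⟨hx.1.le, hx.2.le⟩
      exact (hder q hq0 hq1).differentiableAt.differentiableWithinAt
    · intro x hx
      rw [interior_Icc] at hx
      obtain ⟨q, rfl, hq0, hq1⟩ := hmem x ⟨hx.1.le, hx.2.le⟩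
      rw [(hder q hq0 hq1).deriv, div_le_iff₀ hK]
      linarith [(hst q hq0 hq1).2]
  · have h2 := Convex.image_sub_le_mul_sub_of_deriv_le (convex_Icc (q₀ : ℝ) q₁)
      (f := PrR (tSites N) (WindS N)) hcont ?_ (C := K * FT' N q₀) ?_ (q₀ : ℝ) ⟨le_rfl, h01'⟩
      (q₁ : ℝ) ⟨h01', le_rfl⟩ h01'
    · refine h2.trans (le_of_eq (by ring))
    · intro x hx
      rw [interior_Icc] at hx
      obtain ⟨q, rfl, hq0, hq1⟩ := hmem x ⟨hx.1.le, hx.2.le⟩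
      exact (hder q hq0 hq1).differentiableAt.differentiableWithinAt
    · intro x hx
      rw [interior_Icc] at hx
      obtain ⟨q, rfl, hq0, hq1⟩ := hmem x ⟨hx.1.le, hx.2.le⟩
      rw [(hder q hq0 hq1).deriv]
      exact (hst q hq0 hq1).1

end Pool.Agent.H92.SN
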