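import Pool.Agent.H92.SN.Det
import Pool.Agent.H92.SN.TSym
import Pool.Agent.H61.NC.Pair

/-!
# Pairs of sites of the torus
-/

set_option autoImplicit false

open MeasureTheory ProbabilityTheory unitInterval

namespace Pool.Agent.H92.SN

open Pool.Agent.H89.Perc
open Pool.Agent.H61.NC (fill mid upd Joint PrR' dist0 Joint_piv localOn_upd modE)
open Pool.Agent.H83.SK (sv sit)

/-- Comparison with the influence of one site (finite energy). -/
theorem Pr_Joint_le {s : Finset Edge} {A : Set Config} (hA : LocalOn s A) (iA : Incr A)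
    {e f : Edge} (hef : e ≠ f) (q : I) {m : ℝ} (hm : 0 < m) (h1 : m ≤ (q : ℝ))
    (h2 : m ≤ 1 - (q : ℝ)) : Pr q (Joint A e f) ≤ 1 / m * pivot q A e := by
  have upd_mono : ∀ (A : Set Config), Incr A → ∀ e, upd A e false ⊆ upd A e true := by
    intro A iA e ω hω
    refine iA _ _ (fun x hx => ?_) hω
    by_cases hxe : x = e
    · subst hxe; simp
    · rw [Function.update_of_ne hxe] at hx ⊢; exact hx
  have upd_sub : ∀ {A B : Set Config}, A ⊆ B → ∀ (f : Edge) (b : Bool),
      upd A f b ⊆ upd B f b := fun h f b _ hω => h hω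
  set TT := upd (upd A e true) f true with hTT
  set TF := upd (upd A e true) f false with hTF
  set FT := upd (upd A e false) f true with hFT
  set FF := upd (upd A e false) f false with hFF
  have lFT : MeasurableSet FT := (localOn_upd (localOn_upd hA e false) f true).measurableSet
  have lFF : MeasurableSet FF := (localOn_upd (localOn_upd hA e false) f false).measurableSet
  have s2 : FT ⊆ TT := upd_sub (upd_mono A iA e) f true
  have s3 : FF ⊆ TF := upd_sub (upd_mono A iA e) f false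
  have e2 : Pr q (TT \ FT) = Pr q TT - Pr q FT := measureReal_sdiff s2 lFT
  have e3 : Pr q (TF \ FF) = Pr q TF - Pr q FF := measureReal_sdiff s3 lFF
  have p1 : 0 ≤ Pr q (TT \ FT) := Pr_nonneg
  have p2 : 0 ≤ Pr q (TF \ FF) := Pr_nonneg
  have e4 : Pr q (Joint A e f) ≤ Pr q (TT \ FT) + Pr q (TF \ FF) := by
    refine (Pr_mono ?_).trans Pr_union_le
    rintro ω (⟨a1, a2⟩ | ⟨⟨a1, a2⟩, a3⟩)
    · left
      rw [Set.mem_union, not_or] at a2
      exact ⟨a1, a2.2⟩
    · right
      exact ⟨a1, a3⟩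
  have f1 : Pr q (upd A e true) = q * Pr q TT + (1 - q) * Pr q TF :=
    Pr_eq_update (localOn_upd hA e true) f
  have f2 : Pr q (upd A e false) = q * Pr q FT + (1 - q) * Pr q FF :=
    Pr_eq_update (localOn_upd hA e false) f
  have f0 : pivot q A e = Pr q (upd A e true) - Pr q (upd A e false) := rfl
  have f3 : pivot q A e = q * Pr q (TT \ FT) + (1 - q) * Pr q (TF \ FF) := by
    rw [f0, f1, f2, e2, e3]
    ring
  have f4 : m * Pr q (Joint A e f) ≤ pivot q A e := by
    rw [f3]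
    nlinarith [mul_nonneg (sub_nonneg.2 h1) p1, mul_nonneg (sub_nonneg.2 h2) p2,
      mul_le_mul_of_nonneg_left e4 hm.le]
  rw [one_div, ← div_eq_inv_mul, le_div_iff₀ hm]
  linarith

/-- The sites on which the four-arm event of `f` depends. -/
private noncomputable def PairS (N : ℕ) (f : Edge) (r : ℕ) : Finset Edge :=
  (sBall (src f) r).image (modE N)

private lemma Pair_modE {N : ℕ} {e : Edge} (he : e ∈ tSites N) : modE N e = e := by
  rw [mem_tSites] at he
  obtain ⟨x, y, t⟩ := e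
  simp only at he
  simp only [modE]
  rw [Int.emod_eq_of_lt he.1.1 he.1.2, Int.emod_eq_of_lt he.2.1.1 he.2.1.2]

private lemma Pair_self {N : ℕ} {f : Edge} (hf : f ∈ tSites N) (r : ℕ) : f ∈ PairS N f r := by
  unfold PairS
  rw [Finset.mem_image]
  refine ⟨f, ?_, Pair_modE hf⟩
  rw [mem_sBall]
  exact ⟨self_mem_ball, (mem_tSites.1 hf).2.2⟩

private lemma Pair_one_dim {N ρ : ℕ} {x u v : ℤ} (hx0 : 0 ≤ x) (hxN : x < N)
    (hu : (N : ℤ) / 2 - ρ ≤ u ∧ u ≤ (N : ℤ) / 2 + ρ) (hv : x - ρ ≤ v ∧ v ≤ x + ρ)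
    (h : u % (N : ℤ) = v % N) : (x - (N : ℤ) / 2).natAbs ≤ 2 * ρ := by
  have h1 : (N : ℤ) ∣ v - u := by
    have h2 : u ≡ v [ZMOD N] := h
    exact h2.dvd
  obtain ⟨k, hk⟩ := h1
  rcases lt_trichotomy k 0 with h3 | h3 | h3
  · have h4 : (N : ℤ) * k ≤ -N := by nlinarith [Int.natCast_nonneg N]
    omega
  · subst h3
    rw [mul_zero] at hk
    omega
  · have h4 : (N : ℤ) ≤ N * k := by nlinarith [Int.natCast_nonneg N]
    omega

private lemma Pair_disj {N ρ : ℕ} {f : Edge} (hf : f ∈ tSites N)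
    (h2 : 2 * ρ < dist0 N f) : Disjoint (PairS N (cE N) ρ) (PairS N f ρ) := by
  rw [Finset.disjoint_left]
  intro x hx hx'
  unfold PairS at hx hx'
  rw [Finset.mem_image] at hx hx'
  obtain ⟨e1, he1, hx1⟩ := hx
  obtain ⟨e2, he2, hx2⟩ := hx'
  rw [mem_sBall, Pool.Agent.H89.Perc.mem_ball] at he1 he2
  rw [mem_tSites] at hf
  have h3 : modE N e1 = modE N e2 := hx1.trans hx2.symm
  simp only [modE, Prod.mk.injEq] at h3
  simp only [cE, mid, src] at he1 he2
  unfold dist0 at h2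
  simp only [mid] at h2
  have g1 := Pair_one_dim hf.1.1 hf.1.2 ⟨he1.1.1, he1.1.2.1⟩ ⟨he2.1.1, he2.1.2.1⟩ h3.1
  have g2 := Pair_one_dim hf.2.1.1 hf.2.1.2 ⟨he1.1.2.2.1, he1.1.2.2.2⟩
    ⟨he2.1.2.2.1, he2.1.2.2.2⟩ h3.2.1
  rcases lt_max_iff.1 h2 with h | h
  · omega
  · omega

private lemma Pair_sub {N ρ R : ℕ} {f : Edge} (h3 : dist0 N f + ρ ≤ R) (h4 : 2 * R + 2 ≤ N) :
    PairS N f ρ ⊆ blkS N R := by
  intro x hx
  unfold PairS at hx
  rw [Finset.mem_image] at hx
  obtain ⟨e, he, hx1⟩ := hx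
  rw [mem_sBall, Pool.Agent.H89.Perc.mem_ball] at he
  simp only [src] at he
  unfold dist0 mid at h3
  have h5 : (f.1 - (N : ℤ) / 2).natAbs + ρ ≤ R := by
    have := le_max_left (f.1 - (N : ℤ) / 2).natAbs (f.2.1 - (N : ℤ) / 2).natAbs
    omega
  have h6 : (f.2.1 - (N : ℤ) / 2).natAbs + ρ ≤ R := by
    have := le_max_right (f.1 - (N : ℤ) / 2).natAbs (f.2.1 - (N : ℤ) / 2).natAbs
    omega
  have h7 : e ∈ tSites N := by
    rw [mem_tSites]
    exact ⟨by omega, by omega, he.2⟩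
  rw [Pair_modE h7] at hx1
  rw [← hx1]
  unfold mid at *
  rw [mem_blkS]
  unfold mid
  exact ⟨by omega, by omega, he.2⟩

private lemma Pair_dist_ctr (N : ℕ) : dist0 N (cE N) = 0 := by
  simp [dist0, cE]

private lemma Pair_ne {N ρ : ℕ} {f : Edge} (h2 : 2 * ρ < dist0 N f) : cE N ≠ f := by
  rintro rfl
  rw [Pair_dist_ctr] at h2
  omega

private lemma Pair_localS (N : ℕ) (f : Edge) (r : ℕ) :
    LocalOn (PairS N f r) (A4T N (src f) r) := localOn_A4T N (src f) r

theorem A4T_of_pivot' {N : ℕ} {f : Edge} (hf : f ∈ tSites N) {r : ℕ} (hr : 1 ≤ r)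
    (hN : 2 * r + 2 ≤ N) {w : Config} (h1 : Function.update w f true ∈ WindS N)
    (h2 : Function.update w f false ∉ WindS N) : w ∈ A4T N (src f) r := by
  have hs : sv (src f) = f := sv_src (mem_tSites.1 hf).2.2
  refine A4T_of_pivot (by rw [hs]; exact hf) hr hN ?_ ?_
  · rw [hs]; exact h1
  · rw [hs]; exact h2

/-- On the joint event both sites have four arms. -/
private lemma Pair_joint_sub {N ρ : ℕ} {f : Edge} (hf : f ∈ tSites N)
    (h1 : 1 ≤ ρ) (h2 : 2 * ρ < dist0 N f) (h3 : 2 * ρ + 2 ≤ N) :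
    Joint (WindS N) (cE N) f ⊆ A4T N (src (cE N)) ρ ∩ A4T N (src f) ρ := by
  intro ω hω
  have hc : cE N ∈ tSites N := cE_mem (by omega)
  have hdis := Pair_disj hf h2
  obtain ⟨⟨b, hb1, hb2⟩, ⟨b', hb1', hb2'⟩⟩ := Joint_piv (incr_WindS N) (Pair_ne h2) hω
  constructor
  · have g := A4T_of_pivot' hc h1 h3 hb1 hb2
    refine Pair_localS N (cE N) ρ _ _ (fun e he => ?_) g
    rw [Function.update_of_ne]
    rintro rfl
    exact Finset.disjoint_left.1 hdis he (Pair_self hf ρ)
  · have g := A4T_of_pivot' hf h1 h3 hb1' hb2'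
    refine Pair_localS N f ρ _ _ (fun e he => ?_) g
    rw [Function.update_of_ne]
    rintro rfl
    exact Finset.disjoint_left.1 hdis (Pair_self hc ρ) he

theorem BlockPiv_of_fill {N R : ℕ} {w w1 w0 : Config} (h1 : w1 ∈ WindS N) (h0 : w0 ∉ WindS N)
    (k1 : ∀ x, x ∉ blkS N R → w1 x = w x) (k0 : ∀ x, x ∉ blkS N R → w0 x = w x) :
    w ∈ BlockPiv N R := by
  constructor
  · refine incr_WindS N _ _ (fun x hx => ?_) h1
    by_cases hxb : x ∈ blkS N R
    · exact fill_mem hxb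
    · rw [fill_notMem hxb, ← k1 x hxb]
      exact hx
  · intro h
    refine h0 (incr_WindS N _ _ (fun x hx => ?_) h)
    by_cases hxb : x ∈ blkS N R
    · rw [fill_mem hxb] at hx
      exact absurd hx (by decide)
    · rw [fill_notMem hxb] at hx
      rwa [k0 x hxb]

/-- On the joint event a block which contains both sites is pivotal. -/
private lemma Pair_joint_blk {N R : ℕ} {e f : Edge} (hef : e ≠ f) (he : e ∈ blkS N R)
    (hf : f ∈ blkS N R) : Joint (WindS N) e f ⊆ BlockPiv N R := by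
  intro ω hω
  obtain ⟨⟨b, hb1, hb2⟩, -⟩ := Joint_piv (incr_WindS N) hef hω
  have key : ∀ c : Bool, ∀ x, x ∉ blkS N R →
      Function.update (Function.update ω f b) e c x = ω x := by
    intro c x hx
    have n1 : x ≠ e := by
      rintro rfl
      exact hx he
    have n2 : x ≠ f := by
      rintro rfl
      exact hx hf
    rw [Function.update_of_ne n1, Function.update_of_ne n2]
  exact BlockPiv_of_fill hb1 hb2 (key true) (key false)

private lemma Pair_prob (q : I) {N ρ : ℕ} {f : Edge} (hf : f ∈ tSites N)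
    (h2 : 2 * ρ < dist0 N f) (h3 : 2 * ρ + 2 ≤ N) :
    Pr q (A4T N (src (cE N)) ρ ∩ A4T N (src f) ρ) = a4 q ρ ^ 2 := by
  rw [Pr_inter_of_disjoint (Pair_localS N _ ρ) (Pair_localS N _ ρ) (Pair_disj hf h2),
    Pr_A4T q _ (by omega), Pr_A4T q _ (by omega), sq]

theorem Pr_joint_near (q : I) {N ρ R : ℕ} {f : Edge} (hf : f ∈ tSites N)
    (h1 : 1 ≤ ρ) (h2 : 2 * ρ < dist0 N f) (h3 : dist0 N f + ρ ≤ R) (h4 : 2 * R + 2 ≤ N) :
    Pr q (Joint (WindS N) (cE N) f) ≤ a4 q ρ ^ 2 * Pr q (BlockPiv N R) := by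
  have hρ : 2 * ρ + 2 ≤ N := by omega
  have s1 : PairS N f ρ ⊆ blkS N R := Pair_sub h3 h4
  have s2 : PairS N (cE N) ρ ⊆ blkS N R := Pair_sub (by rw [Pair_dist_ctr]; omega) h4
  have hc : cE N ∈ tSites N := cE_mem (by omega)
  have hsub : Joint (WindS N) (cE N) f ⊆
      (A4T N (src (cE N)) ρ ∩ A4T N (src f) ρ) ∩ BlockPiv N R :=
    Set.subset_inter (Pair_joint_sub hf h1 h2 hρ)
      (Pair_joint_blk (Pair_ne h2) (s2 (Pair_self hc ρ)) (s1 (Pair_self hf ρ)))
  refine (Pr_mono hsub).trans ?_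
  rw [Pr_inter_of_disjoint (LocalOn.inter' (Pair_localS N (cE N) ρ) (Pair_localS N f ρ))
    (localOn_BlockPiv (by omega) R) ?_, Pair_prob q hf h2 hρ]
  rw [Finset.disjoint_left]
  intro x hx hx'
  rw [Finset.mem_sdiff] at hx'
  rcases Finset.mem_union.1 hx with h | h
  · exact hx'.2 (s2 h)
  · exact hx'.2 (s1 h)

theorem Pr_joint_far (q : I) {N ρ : ℕ} {f : Edge} (hf : f ∈ tSites N)
    (h1 : 1 ≤ ρ) (h2 : 2 * ρ < dist0 N f) (h3 : 2 * ρ + 2 ≤ N) :
    Pr q (Joint (WindS N) (cE N) f) ≤ a4 q ρ ^ 2 :=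
  (Pr_mono (Pair_joint_sub hf h1 h2 h3)).trans (Pair_prob q hf h2 h3).le

theorem pivot_eq_sdiff {s : Finset Edge} {A : Set Config} (hA : LocalOn s A) (iA : Incr A)
    (q : I) (e : Edge) : pivot q A e = Pr q {w | Function.update w e true ∈ A ∧
      Function.update w e false ∉ A} := by
  have lF : MeasurableSet (upd A e false) := (localOn_upd hA e false).measurableSet
  have s3 : upd A e false ⊆ upd A e true := by
    intro ω hω
    refine iA _ _ (fun x hx => ?_) hω
    by_cases hxe : x = e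
    · subst hxe; simp
    · rw [Function.update_of_ne hxe] at hx ⊢; exact hx
  have e2 : Pr q (upd A e true \ upd A e false) = Pr q (upd A e true) - Pr q (upd A e false) :=
    measureReal_sdiff s3 lF
  exact e2.symm

/-- The influence of a site is bounded by the four-arm probability. -/
theorem pivot_le_a4 (q : I) {N r : ℕ} {e : Edge} (he : e ∈ tSites N) (hr : 1 ≤ r)
    (hN : 2 * r + 2 ≤ N) : pivot q (WindS N) e ≤ a4 q r := by
  rw [← Pr_A4T q (src e) (show 2 * r < N by omega),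
    pivot_eq_sdiff (localOn_WindS (by omega)) (incr_WindS N)]
  exact Pr_mono fun w hw => A4T_of_pivot' he hr hN hw.1 hw.2

/-- The influence of the middle site is bounded by the four-arm probability times the influence of
the block. -/
theorem sT_le_block (q : I) {N r : ℕ} (hr : 1 ≤ r) (hN : 2 * r + 2 ≤ N) :
    sT q N ≤ a4 q r * Pr q (BlockPiv N r) := by
  have hc : cE N ∈ tSites N := cE_mem (by omega)
  have s2 : PairS N (cE N) r ⊆ blkS N r := Pair_sub (by rw [Pair_dist_ctr]; omega) hN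
  have hce : cE N ∈ blkS N r := s2 (Pair_self hc r)
  unfold sT
  rw [pivot_eq_sdiff (localOn_WindS (by omega)) (incr_WindS N),
    ← Pr_A4T q (src (cE N)) (show 2 * r < N by omega),
    ← Pr_inter_of_disjoint (Pair_localS N (cE N) r) (localOn_BlockPiv (by omega) r) ?_]
  · refine Pr_mono fun w hw => ⟨A4T_of_pivot' hc hr hN hw.1 hw.2, ?_⟩
    have key : ∀ c : Bool, ∀ x, x ∉ blkS N r → Function.update w (cE N) c x = w x := by
      intro c x hx
      rw [Function.update_of_ne]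
      rintro rfl
      exact hx hce
    exact BlockPiv_of_fill hw.1 hw.2 (key true) (key false)
  · rw [Finset.disjoint_left]
    intro x hx hx'
    rw [Finset.mem_sdiff] at hx'
    exact hx'.2 (s2 hx)

end Pool.Agent.H92.SN
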