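import Pool.Agent.H92.SN.Det
import Pool.Agent.H92.SN.Tau

/-!
# Pivotal sites of the connection event on the torus
-/

set_option autoImplicit false

open MeasureTheory ProbabilityTheory unitInterval

namespace Pool.Agent.H92.SN

open Pool.Agent.H89.Perc
open Pool.Agent.H61.NC (modE mid)
open Pool.Agent.H83.SK (sv sit)
open Pool.Agent.H90.AL (IsPer dT dT_self dT_comm dT_tri dT_le_half dT_le_of exists_of_dT_le
  notMem_of_lt modE_mem modE_eq mem_tEdges_iff src_modE conn_per isPer_per A2_of_cross A2_congr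
  modE_mem_SR' mem_SR)

/-! ### Events of annuli -/

/-- The sites of the torus at distance between `t` and `R` from `c`. -/
noncomputable def SRS (N : ℕ) (c : Vert) (t R : ℕ) : Finset Edge :=
  (tSites N).filter fun g => t ≤ dT N (src g) c ∧ dT N (src g) c ≤ R

lemma mem_SRS {N : ℕ} {c : Vert} {t R : ℕ} {g : Edge} :
    g ∈ SRS N c t R ↔ g ∈ tSites N ∧ t ≤ dT N (src g) c ∧ dT N (src g) c ≤ R := by
  simp only [SRS, Finset.mem_filter]

lemma localOn_A4S {N : ℕ} (hN : 1 ≤ N) (v : Vert) (r : ℕ) :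
    LocalOn (SRS N v 0 r) (A4T N v r) := by
  refine (localOn_A4T' hN v r).mono ?_
  intro g hg
  rw [Finset.mem_filter] at hg
  exact mem_SRS.2 ⟨hg.1, Nat.zero_le _, hg.2⟩

/-- Two crossing clusters of an annulus of the torus. -/
def A2S (N : ℕ) (c : Vert) (t R : ℕ) : Set Config :=
  {w | (fun g => sit (per N w) (shiftE c g)) ∈ Pool.Agent.H29.Sep.A2 t R}

lemma modE_sv_SRS' {N : ℕ} (hN : 1 ≤ N) {c u : Vert} {t R : ℕ} (ht : 1 ≤ t) (hR : t + R ≤ N)
    (h1 : u ∈ ball c R) (h2 : u ∉ ball c (t - 1)) : modE N (sv u) ∈ SRS N c t R := by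
  have h3 := modE_mem_SR' hN ht hR (e := sv u) h1 h2
  rw [mem_SR, mem_tEdges_iff] at h3
  rw [mem_SRS, mem_tSites]
  exact ⟨⟨h3.1.1, h3.1.2, rfl⟩, h3.2⟩

lemma dom_shift {c u : Vert} {t R : ℕ} (h : u ∈ Pool.Agent.H29.Sep.dom t R) :
    (u.1 + c.1, u.2 + c.2) ∈ ball c R ∧ (u.1 + c.1, u.2 + c.2) ∉ ball c (t - 1) := by
  constructor
  · have := h.1
    simp only [mem_ball, Prod.fst_zero, Prod.snd_zero] at this ⊢
    omega
  · intro h'
    apply h.2
    simp only [mem_ball, Prod.fst_zero, Prod.snd_zero] at h' ⊢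
    omega

lemma src_shiftE (c : Vert) (g : Edge) : src (shiftE c g) = ((src g).1 + c.1, (src g).2 + c.2) :=
  rfl

lemma tgt_shiftE (c : Vert) (g : Edge) :
    tgt (shiftE c g) = ((tgt g).1 + c.1, (tgt g).2 + c.2) := by
  obtain ⟨x, y, t⟩ := g
  cases t
  · simp only [tgt, shiftE]
    ext <;> (simp; try ring)
  · simp only [tgt, shiftE]
    ext <;> (simp; try ring)

lemma localOn_A2S {N : ℕ} (hN : 1 ≤ N) (c : Vert) {t R : ℕ} (ht : 1 ≤ t) (hR : t + R ≤ N) :
    LocalOn (SRS N c t R) (A2S N c t R) := by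
  intro w w' h hw
  refine A2_congr (fun e h1 h2 => ?_) hw
  obtain ⟨k1, k2⟩ := dom_shift (c := c) h1
  obtain ⟨k3, k4⟩ := dom_shift (c := c) h2
  simp only [sit]
  rw [per_sv, per_sv, per_sv, per_sv, src_shiftE, tgt_shiftE,
    h _ (modE_sv_SRS' hN ht hR k1 k2), h _ (modE_sv_SRS' hN ht hR k3 k4)]

lemma localOn_sitA2 (t R : ℕ) :
    LocalOn (sBall 0 R) {w | sit w ∈ Pool.Agent.H29.Sep.A2 t R} := by
  intro w w' h hw
  exact A2_congr (fun e h1 h2 => sit_congr_ball h h1.1 h2.1) hw

lemma Pr_A2S (q : I) {N : ℕ} (c : Vert) {t R : ℕ} (hR : 2 * R < N) :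
    Pr q (A2S N c t R) = Pool.Agent.H83.SK.Pr q (Pool.Agent.H29.Sep.A2 t R) := by
  have hinj : Set.InjOn (fun g : Edge => modE N (shiftE c g)) (sBall 0 R) := by
    intro e he e' he' hee
    have key : ∀ e, e ∈ sBall 0 R → shiftE c e ∈ sBall c R := by
      intro e he
      rw [mem_sBall, mem_ball] at he ⊢
      simp only [Prod.fst_zero, Prod.snd_zero] at he
      refine ⟨?_, he.2⟩
      rw [src_shiftE]
      simp only
      omega
    exact shiftE_injective c (modE_injOn_sBall c hR (key e he) (key e' he') hee)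
  unfold Pool.Agent.H83.SK.Pr
  rw [← Pr_comp (localOn_sitA2 t R) hinj]
  congr 1
  ext w
  simp only [A2S, Set.mem_ofPred_eq]
  rw [← sit_shiftE]
  exact Iff.rfl

/-! ### Pivotal sites -/

/-- The periodic configuration with the middle site closed. -/
def cfgS (N : ℕ) (w : Config) : Config := sit (per N (shut (cV N) w))

lemma isPer_cfgS (N : ℕ) (w : Config) : IsPer N (cfgS N w) := isPer_sit (isPer_per N _)

/-- The site `x` is pivotal. -/
def PivS (N i : ℕ) (x : Vert) (w : Config) : Prop :=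
  Function.update w (sv x) true ∈ DT N i ∧ Function.update w (sv x) false ∉ DT N i

lemma PivS.ne {N i : ℕ} {x : Vert} {w : Config} (h : PivS N i x w) : x ≠ cV N := by
  rintro rfl
  apply h.2
  have h1 := h.1
  unfold DT shut at h1 ⊢
  simp only [Set.mem_ofPred_eq, Function.update_idem] at h1 ⊢
  exact h1

lemma cfgS_update {N : ℕ} {x : Vert} (hx : x ≠ cV N) (w : Config) (b : Bool) :
    cfgS N (Function.update w (sv x) b) =
      sit (per N (Function.update (shut (cV N) w) (sv x) b)) := by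
  unfold cfgS shut
  rw [Function.update_comm (sv_ne hx.symm)]

lemma PivS.add {N i : ℕ} {x : Vert} (hx : sv x ∈ tSites N) {w : Config} (h : PivS N i x w) :
    AddSite N x (cfgS N (Function.update w (sv x) false))
      (cfgS N (Function.update w (sv x) true)) := by
  rw [cfgS_update h.ne, cfgS_update h.ne]
  exact addSite_sit hx _

lemma PivS.conn {N i : ℕ} {x : Vert} {w : Config} (h : PivS N i x w) :
    ∃ j < i, (∃ a b : ℤ, Conn (cfgS N (Function.update w (sv x) true)) Set.univ (nb (cV N) j)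
      ((nb (cV N) i).1 + a * N, (nb (cV N) i).2 + b * N)) ∧
    ∀ a b : ℤ, ¬ Conn (cfgS N (Function.update w (sv x) false)) Set.univ (nb (cV N) j)
      ((nb (cV N) i).1 + a * N, (nb (cV N) i).2 + b * N) := by
  obtain ⟨j, hj, a, b, hc⟩ := h.1
  exact ⟨j, hj, ⟨a, b, hc⟩, fun a b hc' => h.2 ⟨j, hj, a, b, hc'⟩⟩

lemma dT_nb {N : ℕ} (hN : 1 ≤ N) {u v : Vert} (h : Nb v u) : dT N u v ≤ 1 := by
  refine dT_le_of hN 0 0 ?_
  simpa using h.mem_ball (r := 1) le_rfl

lemma dT_shift {N : ℕ} (hN : 1 ≤ N) (u v : Vert) (a b : ℤ) :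
    dT N (u.1 + a * N, u.2 + b * N) v = dT N u v := by
  apply le_antisymm
  · obtain ⟨k, l, h⟩ := exists_of_dT_le (N := N) (u := u) (v := v) le_rfl
    refine dT_le_of hN (k + a) (l + b) ?_
    have e : (((u.1 + a * N) - (k + a) * N, (u.2 + b * N) - (l + b) * N) : Vert) =
        (u.1 - k * N, u.2 - l * N) := by
      ext <;> (simp only; ring)
    simp only
    rw [e]
    exact h
  · obtain ⟨k, l, h⟩ := exists_of_dT_le (N := N)
      (u := (u.1 + a * N, u.2 + b * N)) (v := v) le_rfl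
    refine dT_le_of hN (k - a) (l - b) ?_
    have e : (((u.1 + a * N) - k * N, (u.2 + b * N) - l * N) : Vert) =
        (u.1 - (k - a) * N, u.2 - (l - b) * N) := by
      ext <;> (simp only; ring)
    simp only at h
    rw [e] at h
    exact h

lemma ne_of_dT {N : ℕ} (hN : 1 ≤ N) {u x : Vert} (h : 0 < dT N u x) (a b : ℤ) :
    u ≠ (x.1 + a * N, x.2 + b * N) := by
  rintro rfl
  rw [dT_shift hN, dT_self] at h
  omega

/-- The neighbours of the middle site are joined to neighbours of the pivotal site. -/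
lemma PivS.touch {N i : ℕ} (hN : 1 ≤ N) {x : Vert} (hx : sv x ∈ tSites N) {w : Config}
    (h : PivS N i x w) (hd : 1 < dT N x (cV N)) :
    ∃ j < i, (∀ a b : ℤ, ¬ Conn (cfgS N (Function.update w (sv x) false)) Set.univ
        (nb (cV N) j) ((nb (cV N) i).1 + a * N, (nb (cV N) i).2 + b * N)) ∧
      (∃ (p : Vert) (a b : ℤ), Nb x p ∧ Conn (cfgS N (Function.update w (sv x) false)) Set.univ
        (nb (cV N) j) (p.1 + a * N, p.2 + b * N)) ∧
      ∃ (p : Vert) (a b : ℤ), Nb x p ∧ Conn (cfgS N (Function.update w (sv x) false)) Set.univ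
        (nb (cV N) i) (p.1 + a * N, p.2 + b * N) := by
  obtain ⟨j, hj, ⟨a, b, h1⟩, h0⟩ := h.conn
  have hfar : ∀ k, 0 < dT N (nb (cV N) k) x := by
    intro k
    have h2 := dT_nb hN (nb_Nb (cV N) k)
    have h3 := dT_tri hN x (nb (cV N) k) (cV N)
    rw [dT_comm hN x (nb (cV N) k)] at h3
    omega
  refine ⟨j, hj, h0, ?_, ?_⟩
  · exact touch_of_addSite (h.add hx) (fun a b => ne_of_dT hN (hfar j) a b) h1 (h0 a b)
  · have hY : ∀ a' b' : ℤ, (((nb (cV N) i).1 + a * N, (nb (cV N) i).2 + b * N) : Vert) ≠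
        (x.1 + a' * N, x.2 + b' * N) := by
      intro a' b'
      refine ne_of_dT hN ?_ a' b'
      rw [dT_shift hN]
      exact hfar i
    obtain ⟨p, a', b', hp, h2⟩ := touch_of_addSite (h.add hx) hY h1.symm
      (fun hc => h0 a b hc.symm)
    refine ⟨p, a' - a, b' - b, hp, ?_⟩
    have h3 := conn_per (isPer_cfgS N _) (-a) (-b) h2
    have e1 : ((((nb (cV N) i).1 + a * N) + -a * N, ((nb (cV N) i).2 + b * N) + -b * N) : Vert) =
        nb (cV N) i := by
      ext <;> (simp only; ring)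
    have e2 : (((p.1 + a' * N) + -a * N, (p.2 + b' * N) + -b * N) : Vert) =
        (p.1 + (a' - a) * N, p.2 + (b' - b) * N) := by
      ext <;> (simp only; ring)
    simp only at h3
    rw [e1, e2] at h3
    exact h3

/-- Changing a site far from `v`. -/
lemma a4S_update {N : ℕ} (hN : 1 ≤ N) {v x : Vert} {r : ℕ} {b : Bool} {w : Config}
    (h : r < dT N x v) : Function.update w (sv x) b ∈ A4T N v r ↔ w ∈ A4T N v r := by
  have key : ∀ e ∈ SRS N v 0 r, Function.update w (sv x) b e = w e := by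
    intro e he
    rw [Function.update_of_ne]
    rintro rfl
    rw [mem_SRS, src_sv] at he
    omega
  exact ⟨localOn_A4S hN v r _ _ key, localOn_A4S hN v r _ _ fun e he => (key e he).symm⟩

/-- Four arms of the pivotal site. -/
theorem PivS.a4_self {N i : ℕ} {x : Vert} (hx : sv x ∈ tSites N) {w : Config}
    (h : PivS N i x w) {r : ℕ} (hr : 1 ≤ r) (hN : 2 * r + 2 ≤ N)
    (hd : r + 1 < dT N (cV N) x) : w ∈ A4T N x r := by
  have hN1 : 1 ≤ N := by omega
  obtain ⟨j, hj, ⟨a, b, h1⟩, h0⟩ := h.conn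
  by_contra hcon
  have h2 : shut (cV N) w ∉ A4T N x r := by
    intro h3
    exact hcon ((a4S_update hN1 (by omega)).1 h3)
  have h3 := noFour_of_notMem hx (by omega) h2
  rw [← cfgS_update h.ne, ← cfgS_update h.ne] at h3
  have hfar : ∀ k, r < dT N (nb (cV N) k) x := by
    intro k
    have h2 := dT_nb hN1 (nb_Nb (cV N) k)
    have h3 := dT_tri hN1 (cV N) (nb (cV N) k) x
    rw [dT_comm hN1 (cV N) (nb (cV N) k)] at h3
    omega
  refine h0 a b (conn_of_noFour hr hN (h.add hx) h3 ?_ ?_ h1)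
  · exact fun a b => notMem_of_lt hN1 (hfar j) a b
  · intro a' b'
    refine notMem_of_lt hN1 ?_ a' b'
    rw [dT_shift hN1]
    exact hfar i

/-- Four arms of the middle site. -/
theorem PivS.a4_ctr {N i : ℕ} {x : Vert} (hx : sv x ∈ tSites N) {w : Config}
    (h : PivS N i x w) {r : ℕ} (hr : 1 ≤ r) (hN : 2 * r + 2 ≤ N)
    (hd : r + 1 < dT N x (cV N)) : w ∈ A4T N (cV N) r := by
  have hN1 : 1 ≤ N := by omega
  have hcm : sv (cV N) ∈ tSites N := by rw [sv_cV]; exact cE_mem hN1
  obtain ⟨j, hj, h0, ⟨p, a, b, hp, t1⟩, ⟨p', a', b', hp', t2⟩⟩ := h.touch hN1 hx (by omega)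
  -- the configuration in the ball
  have hball : ∀ g : Edge, src g ∈ ball (cV N) r → tgt g ∈ ball (cV N) r →
      cfgS N (Function.update w (sv x) false) g = closeV (cV N) (sit (per N w)) g := by
    intro g h1 h2
    unfold cfgS shut
    rw [sit_per_ball (by omega) hcm _ h1 h2]
    refine closeV_congr ?_
    have key : ∀ u : Vert, u ∈ ball (cV N) r →
        per N (Function.update w (sv x) false) (sv u) = per N w (sv u) := by
      intro u hu
      rw [per_sv, per_sv, Function.update_of_ne]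
      intro h3
      rw [modE_eq_iff hx] at h3
      obtain ⟨k, l, rfl⟩ := h3
      have h4 : dT N (x.1 + k * N, x.2 + l * N) (cV N) ≤ r :=
        dT_le_of hN1 0 0 (by simpa using hu)
      rw [dT_shift hN1] at h4
      omega
    simp only [sit]
    rw [key _ h1, key _ h2]
  have harm : ∀ (k : ℕ) (p : Vert) (a b : ℤ), Nb x p →
      Conn (cfgS N (Function.update w (sv x) false)) Set.univ (nb (cV N) k)
        (p.1 + a * N, p.2 + b * N) →
      ∃ u ∈ sphere (cV N) r, Conn (closeV (cV N) (sit (per N w))) (ball (cV N) r)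
        (nb (cV N) k) u := by
    intro k p a b hp t
    have hout : (p.1 + a * N, p.2 + b * N) ∉ ball (cV N) r := by
      intro h3
      have h4 : dT N (p.1 + a * N, p.2 + b * N) (cV N) ≤ r :=
        dT_le_of hN1 0 0 (by simpa using h3)
      rw [dT_shift hN1] at h4
      have h5 := dT_nb hN1 hp
      have h6 := dT_tri hN1 x p (cV N)
      rw [dT_comm hN1 x p] at h6
      omega
    obtain ⟨u, hu, hc⟩ := t.to_sphere ((nb_Nb (cV N) k).mem_ball hr) (Or.inl hout)
    exact ⟨u, hu, (hc.mono_set Set.inter_subset_right).congr hball⟩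
  refine ⟨nb (cV N) j, nb (cV N) i, nb_Nb _ j, nb_Nb _ i, harm j p a b hp t1,
    harm i p' a' b' hp' t2, fun hcon => h0 0 0 ?_⟩
  simp only [zero_mul, add_zero]
  exact (hcon.congr fun g g1 g2 => (hball g g1 g2).symm).mono_set (Set.subset_univ _)

/-- Two crossing clusters of an annulus which separates `x` from the middle site. -/
theorem PivS.a2 {N i : ℕ} {x : Vert} (hx : sv x ∈ tSites N) {w : Config} (h : PivS N i x w)
    {c : Vert} {t R : ℕ} (ht : 1 ≤ t) (htR : t ≤ R) (hR : 2 * R < N)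
    (hd : (dT N x c + 1 ≤ t ∧ R + 1 < dT N (cV N) c) ∨
      (dT N (cV N) c + 1 ≤ t ∧ R + 1 < dT N x c)) : w ∈ A2S N c t R := by
  have hN1 : 1 ≤ N := by omega
  have hcm : sv (cV N) ∈ tSites N := by rw [sv_cV]; exact cE_mem hN1
  have hxc : 1 < dT N x (cV N) := by
    have h1 := dT_tri hN1 (cV N) x c
    have h2 := dT_tri hN1 x (cV N) c
    rw [dT_comm hN1 (cV N) x] at h1
    omega
  obtain ⟨j, hj, h0, ⟨p, a, b, hp, t1⟩, ⟨p', a', b', hp', t2⟩⟩ := h.touch hN1 hx hxc
  have hper := isPer_cfgS N (Function.update w (sv x) false)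
  -- translates of vertices near `c`
  have hnear : ∀ u : Vert, dT N u c ≤ t → ∃ k l : ℤ, (u.1 - k * N, u.2 - l * N) ∈ ball c t :=
    fun u hu => exists_of_dT_le hu
  have hd1 : ∀ {y q : Vert}, Nb y q → dT N q c ≤ dT N y c + 1 := by
    intro y q hq
    have h1 := dT_nb hN1 hq
    have h2 := dT_tri hN1 q y c
    omega
  have hd2 : ∀ {y q : Vert}, Nb y q → dT N y c ≤ dT N q c + 1 := by
    intro y q hq
    have h1 := dT_nb hN1 hq
    have h2 := dT_tri hN1 y q c
    rw [dT_comm hN1 y q] at h2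
    omega
  -- the configuration in the annulus
  have hcf : ∀ g : Edge, src g ∈ Pool.Agent.H29.Sep.dom t R → tgt g ∈ Pool.Agent.H29.Sep.dom t R →
      cfgS N (Function.update w (sv x) false) (shiftE c g) = sit (per N w) (shiftE c g) := by
    intro g h1 h2
    have key : ∀ u : Vert, u ∈ ball c R → u ∉ ball c (t - 1) →
        per N (shut (cV N) (Function.update w (sv x) false)) (sv u) = per N w (sv u) := by
      intro u hu hu'
      have h3 := modE_sv_SRS' hN1 ht (by omega) hu hu'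
      rw [mem_SRS] at h3
      unfold shut
      rw [per_sv, per_sv, Function.update_of_ne, Function.update_of_ne]
      · intro h4
        rw [h4, src_sv] at h3
        rcases hd with hd | hd <;> omega
      · intro h4
        rw [h4, src_sv] at h3
        rcases hd with hd | hd <;> omega
    obtain ⟨k1, k2⟩ := dom_shift (c := c) h1
    obtain ⟨k3, k4⟩ := dom_shift (c := c) h2
    unfold cfgS
    simp only [sit]
    rw [src_shiftE, tgt_shiftE, key _ k1 k2, key _ k3 k4]
  refine A2_congr hcf ?_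
  have hsh : ∀ (u : Vert) (a b k l : ℤ), ((u.1 + a * N - (k + a) * N, u.2 + b * N - (l + b) * N) : Vert) =
      (u.1 - k * N, u.2 - l * N) := by
    intro u a b k l
    ext <;> (simp only; ring)
  rcases hd with ⟨hd3, hd4⟩ | ⟨hd3, hd4⟩
  · -- `x` inside
    obtain ⟨k, l, hk⟩ := hnear p (by have := hd1 hp; omega)
    obtain ⟨k', l', hk'⟩ := hnear p' (by have := hd1 hp'; omega)
    have hX : R < dT N (nb (cV N) j) c := by have := hd2 (nb_Nb (cV N) j); omega
    have hY : R < dT N (nb (cV N) i) c := by have := hd2 (nb_Nb (cV N) i); omega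
    refine A2_of_cross hper ht htR h0 (a := k + a) (b := l + b) (a' := k' + a') (b' := l' + b')
      ?_ (notMem_of_lt hN1 hX _ _) t1 (Conn.refl (Set.mem_univ _)) ?_
      (notMem_of_lt hN1 hY _ _) t2 (Conn.refl (Set.mem_univ _))
    · simp only
      rw [hsh]
      exact hk
    · simp only
      rw [hsh]
      exact hk'
  · -- the middle site inside
    obtain ⟨k, l, hk⟩ := hnear (nb (cV N) j) (by have := hd1 (nb_Nb (cV N) j); omega)
    obtain ⟨k', l', hk'⟩ := hnear (nb (cV N) i) (by have := hd1 (nb_Nb (cV N) i); omega)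
    have hX : R < dT N p c := by have := hd2 hp; omega
    have hY : R < dT N p' c := by have := hd2 hp'; omega
    refine A2_of_cross hper ht htR h0 hk
      (notMem_of_lt hN1 (by rw [dT_shift hN1]; exact hX) _ _) (Conn.refl (Set.mem_univ _)) t1 hk'
      (notMem_of_lt hN1 (by rw [dT_shift hN1]; exact hY) _ _) (Conn.refl (Set.mem_univ _)) t2

end Pool.Agent.H92.SN
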