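import Pool.Agent.H92.SN.TSym
import Pool.Agent.H90.AL.Arms

/-!
# Opening a closed site of a periodic configuration
-/

set_option autoImplicit false

open MeasureTheory ProbabilityTheory unitInterval

namespace Pool.Agent.H92.SN

open Pool.Agent.H89.Perc
open Pool.Agent.H61.NC (modE)
open Pool.Agent.H83.SK (sv sit)
open Pool.Agent.H90.AL (IsPer)

/-- `v` is isolated in the periodic configuration `η0`; the steps of the periodic configuration
`η1` are steps of `η0`, or start or end at a translate of `v`. -/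
structure AddSite (N : ℕ) (v : Vert) (η0 η1 : Config) : Prop where
  per0 : IsPer N η0
  per1 : IsPer N η1
  iso : ∀ x, ¬ Step η0 Set.univ v x
  mono : ∀ e, η0 e = true → η1 e = true
  step : ∀ x y, Step η1 Set.univ x y → Step η0 Set.univ x y ∨
    ∃ a b : ℤ, x = (v.1 + a * N, v.2 + b * N) ∨ y = (v.1 + a * N, v.2 + b * N)

/-- All neighbours of `v` which reach the sphere are joined in the ball. -/
def NoFour (v : Vert) (r : ℕ) (η0 η1 : Config) : Prop :=
  ∀ p q, Step η1 Set.univ v p → Step η1 Set.univ v q →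
    (∃ u ∈ sphere v r, Conn η0 (ball v r) p u) → (∃ u ∈ sphere v r, Conn η0 (ball v r) q u) →
    Conn η0 (ball v r) p q

theorem step_per {N : ℕ} {η : Config} (hη : IsPer N η) (a b : ℤ) {u v : Vert}
    (h : Step η Set.univ u v) :
    Step η Set.univ (u.1 + a * N, u.2 + b * N) (v.1 + a * N, v.2 + b * N) := by
  obtain ⟨-, -, e, he, ho⟩ := h
  exact ⟨Set.mem_univ _, Set.mem_univ _, shiftE (a * N, b * N) e, joins_shift (a * N, b * N) he,
    by rw [hη a b e]; exact ho⟩

theorem step_per' {N : ℕ} {η : Config} (hη : IsPer N η) (a b : ℤ) {u v : Vert}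
    (h : Step η Set.univ (u.1 + a * N, u.2 + b * N) v) :
    Step η Set.univ u (v.1 - a * N, v.2 - b * N) := by
  have h1 := step_per hη (-a) (-b) h
  have e1 : ((u.1 + a * N + -a * N, u.2 + b * N + -b * N) : Vert) = u := by
    ext <;> (simp only; ring)
  have e2 : ((v.1 + -a * N, v.2 + -b * N) : Vert) = (v.1 - a * N, v.2 - b * N) := by
    ext <;> (simp only; ring)
  simp only at h1
  rw [e1, e2] at h1
  exact h1

theorem conn_iso {η : Config} {x y : Vert} (h : ∀ z, ¬ Step η Set.univ x z)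
    (hc : Conn η Set.univ x y) : y = x := by
  refine hc.induction_right (P := fun z => z = x) rfl ?_
  intro a b _ hab ha
  subst ha
  exact absurd hab (h b)

theorem AddSite.iso' {N : ℕ} {v : Vert} {η0 η1 : Config} (h : AddSite N v η0 η1) (a b : ℤ)
    (z : Vert) : ¬ Step η0 Set.univ (v.1 + a * N, v.2 + b * N) z := fun h1 =>
  h.iso _ (step_per' h.per0 a b h1)

/-- Neighbours of `v`, shifted. -/
theorem AddSite.nb_out {N r : ℕ} {v : Vert} {η0 η1 : Config} (h : AddSite N v η0 η1) (hr : 1 ≤ r)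
    (hN : 2 * r + 2 ≤ N) {p : Vert} (hp : Step η1 Set.univ v p) {a b a' b' : ℤ}
    (hne : (a, b) ≠ (a', b')) :
    (p.1 + a * N, p.2 + b * N) ∉ ball (v.1 + a' * N, v.2 + b' * N) r := by
  intro hm
  have h1 := (Step.nb hp).mem_ball (r := 1) le_rfl
  rw [mem_ball] at hm h1
  simp only at hm
  push_cast at h1
  apply hne
  have hN' : (2 * r + 2 : ℤ) ≤ N := by exact_mod_cast hN
  have key : ∀ c c' x y : ℤ, y - 1 ≤ x → x ≤ y + 1 → y + c' * N - r ≤ x + c * N →
      x + c * N ≤ y + c' * N + r → c = c' := by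
    intro c c' x y h1 h2 h3 h4
    by_contra h0
    rcases lt_or_gt_of_ne h0 with h5 | h5
    · have h6 : (c + 1) * N ≤ c' * N := mul_le_mul_of_nonneg_right (by omega) (by omega)
      rw [add_mul, one_mul] at h6
      omega
    · have h6 : (c' + 1) * N ≤ c * N := mul_le_mul_of_nonneg_right (by omega) (by omega)
      rw [add_mul, one_mul] at h6
      omega
  rw [Prod.mk.injEq]
  exact ⟨key a a' p.1 v.1 h1.1 h1.2.1 hm.1 hm.2.1,
    key b b' p.2 v.2 h1.2.2.1 h1.2.2.2 hm.2.2.1 hm.2.2.2⟩

/-- A neighbour of `v` which is joined to the outside of the ball reaches the sphere. -/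
theorem reach_of_conn {N r : ℕ} {v : Vert} {η0 : Config} (hper : IsPer N η0)
    {p : Vert} (hp : p ∈ ball v r) (a b : ℤ) {Y : Vert}
    (hY : Y ∉ ball (v.1 + a * N, v.2 + b * N) r)
    (hc : Conn η0 Set.univ (p.1 + a * N, p.2 + b * N) Y) :
    ∃ u ∈ sphere v r, Conn η0 (ball v r) p u := by
  have h1 := Pool.Agent.H90.AL.conn_per hper (-a) (-b) hc
  have e1 : ((p.1 + a * N + -a * N, p.2 + b * N + -b * N) : Vert) = p := by
    ext <;> (simp only; ring)
  simp only at h1
  rw [e1] at h1
  obtain ⟨x, hx, hcx⟩ := h1.to_sphere (v := v) (r := r) hp (Or.inl (by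
    intro hm
    apply hY
    rw [mem_ball] at hm ⊢
    simp only at hm ⊢
    have e3 : -a * (N : ℤ) = -(a * N) := by ring
    have e4 : -b * (N : ℤ) = -(b * N) := by ring
    rw [e3, e4] at hm
    omega))
  exact ⟨x, hx, hcx.mono_set Set.inter_subset_right⟩

/-- One step of a path of `η1` which is not at a translate of `v`. -/
theorem AddSite.step' {N : ℕ} {v : Vert} {η0 η1 : Config} (h : AddSite N v η0 η1) {x y : Vert}
    (hx : ∀ a b : ℤ, x ≠ (v.1 + a * N, v.2 + b * N)) (hs : Step η1 Set.univ x y) :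
    Step η0 Set.univ x y ∨ ∃ (a b : ℤ) (q : Vert), y = (v.1 + a * N, v.2 + b * N) ∧
      Step η1 Set.univ v q ∧ x = (q.1 + a * N, q.2 + b * N) := by
  rcases h.step x y hs with h1 | ⟨a, b, h1 | h1⟩
  · exact Or.inl h1
  · exact absurd h1 (hx a b)
  · refine Or.inr ⟨a, b, (x.1 - a * N, x.2 - b * N), h1, ?_, ?_⟩
    · rw [h1] at hs
      exact step_per' h.per1 a b hs.symm
    · ext <;> (simp only; ring)

/-- A vertex joined in `η0` to a vertex off the translates is off the translates. -/
theorem AddSite.off {N : ℕ} {v : Vert} {η0 η1 : Config} (h : AddSite N v η0 η1) {x y : Vert}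
    (hx : ∀ a b : ℤ, x ≠ (v.1 + a * N, v.2 + b * N)) (hc : Conn η0 Set.univ x y) (a b : ℤ) :
    y ≠ (v.1 + a * N, v.2 + b * N) := by
  intro hy
  rw [hy] at hc
  exact hx a b (conn_iso (h.iso' a b) hc.symm)

theorem AddSite.nb_off {N : ℕ} {v : Vert} {η0 η1 : Config} (h : AddSite N v η0 η1) (hN : 4 ≤ N)
    {p : Vert} (hp : Step η1 Set.univ v p) (c d a b : ℤ) :
    ((p.1 + c * N, p.2 + d * N) : Vert) ≠ (v.1 + a * N, v.2 + b * N) := by
  by_cases hcd : (c, d) = (a, b)
  · obtain ⟨rfl, rfl⟩ := Prod.mk.inj hcd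
    intro h1
    rw [Prod.mk.injEq] at h1
    exact (Step.nb hp).ne (Prod.ext (by linarith [h1.1]) (by linarith [h1.2]))
  · intro h1
    refine h.nb_out (r := 1) le_rfl (by omega) hp hcd ?_
    rw [h1]
    exact self_mem_ball

/-- Without four arms a winding path can avoid the translates of `v`. -/
theorem wind_of_noFour {N r : ℕ} {v : Vert} {η0 η1 : Config} (hr : 1 ≤ r) (hN : 2 * r + 2 ≤ N)
    (h : AddSite N v η0 η1) (h4 : NoFour v r η0 η1) {u : Vert} {a b : ℤ} (hab : a ≠ 0 ∨ b ≠ 0)
    (hc : Conn η1 Set.univ u (u.1 + a * N, u.2 + b * N)) :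
    ∃ u' : Vert, Conn η0 Set.univ u' (u'.1 + a * N, u'.2 + b * N) := by
  by_cases hT : ∃ c d : ℤ, Conn η1 Set.univ u (v.1 + c * N, v.2 + d * N)
  · obtain ⟨c, d, hcd⟩ := hT
    -- rotate the path
    have hrot : Conn η1 Set.univ (v.1 + c * N, v.2 + d * N)
        (v.1 + (c + a) * N, v.2 + (d + b) * N) := by
      have h1 := Pool.Agent.H90.AL.conn_per h.per1 a b hcd
      have h2 := (hcd.symm.trans hc).trans h1
      have e1 : ((v.1 + c * N + a * N, v.2 + d * N + b * N) : Vert) =
          (v.1 + (c + a) * N, v.2 + (d + b) * N) := by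
        ext <;> (simp only; ring)
      simp only at h2
      rw [e1] at h2
      exact h2
    obtain ⟨R, hR⟩ : ∃ R : Vert → Prop, ∀ p, R p ↔ (Step η1 Set.univ v p ∧
      ∃ u ∈ sphere v r, Conn η0 (ball v r) p u) := ⟨_, fun _ => Iff.rfl⟩
    obtain ⟨B, hB⟩ : ∃ B : ℤ → ℤ → Prop, ∀ k l, B k l ↔ ((k = c ∧ l = d) ∨ ∃ p q, R p ∧ R q ∧
      Conn η0 Set.univ (p.1 + c * N, p.2 + d * N) (q.1 + k * N, q.2 + l * N)) :=
        ⟨_, fun _ _ => Iff.rfl⟩
    have key : ∃ k l, B k l ∧ (((v.1 + (c + a) * N, v.2 + (d + b) * N) : Vert) =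
        (v.1 + k * N, v.2 + l * N) ∨ ∃ p, Step η1 Set.univ v p ∧
        Conn η0 Set.univ (p.1 + k * N, p.2 + l * N) (v.1 + (c + a) * N, v.2 + (d + b) * N)) := by
      refine hrot.induction_right (P := fun Y => ∃ k l, B k l ∧ (Y = (v.1 + k * N, v.2 + l * N) ∨
        ∃ p, Step η1 Set.univ v p ∧ Conn η0 Set.univ (p.1 + k * N, p.2 + l * N) Y)) ?_ ?_
      · exact ⟨c, d, (hB c d).2 (Or.inl ⟨rfl, rfl⟩), Or.inl rfl⟩
      · rintro Y Y' - hs ⟨k, l, hkl, h1⟩
        rcases h1 with h1 | ⟨p, hp, h1⟩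
        · subst h1
          refine ⟨k, l, hkl, Or.inr ⟨(Y'.1 - k * N, Y'.2 - l * N), step_per' h.per1 k l hs, ?_⟩⟩
          have e1 : ((Y'.1 - k * N + k * N, Y'.2 - l * N + l * N) : Vert) = Y' := by
            ext <;> (simp only; ring)
          simp only
          rw [e1]
          exact Conn.refl (Set.mem_univ _)
        · have hoff := h.off (h.nb_off (by omega) hp k l) h1
          rcases h.step' hoff hs with h2 | ⟨k', l', q, hY', hq, hY⟩
          · exact ⟨k, l, hkl, Or.inr ⟨p, hp, h1.tail h2⟩⟩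
          · by_cases hkk : (k, l) = (k', l')
            · obtain ⟨rfl, rfl⟩ := Prod.mk.inj hkk
              exact ⟨k, l, hkl, Or.inl hY'⟩
            · refine ⟨k', l', ?_, Or.inl hY'⟩
              rw [hY] at h1
              have hp' : R p := (hR p).2 ⟨hp, reach_of_conn h.per0
                ((Step.nb hp).mem_ball hr) k l (h.nb_out hr hN hq (Ne.symm hkk)) h1⟩
              have hq' : R q := (hR q).2 ⟨hq, reach_of_conn h.per0
                ((Step.nb hq).mem_ball hr) k' l' (h.nb_out hr hN hp hkk) h1.symm⟩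
              rw [hB] at hkl ⊢
              right
              rcases hkl with ⟨rfl, rfl⟩ | ⟨p0, q0, hp0, hq0, h3⟩
              · exact ⟨p, q, hp', hq', h1⟩
              · refine ⟨p0, q, hp0, hq', h3.trans (Conn.trans ?_ h1)⟩
                rw [hR] at hq0 hp'
                exact Pool.Agent.H90.AL.conn_per h.per0 k l
                  ((h4 q0 p hq0.1 hp'.1 hq0.2 hp'.2).mono_set (Set.subset_univ _))
    obtain ⟨k, l, hkl, h1⟩ := key
    have hN0 : (0 : ℤ) < N := by
      have : (2 * r + 2 : ℤ) ≤ N := by exact_mod_cast hN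
      omega
    have hk : k = c + a ∧ l = d + b := by
      rcases h1 with h1 | ⟨p, hp, h1⟩
      · rw [Prod.mk.injEq] at h1
        constructor
        · have := add_left_cancel h1.1
          exact (mul_right_cancel₀ hN0.ne' this).symm
        · have := add_left_cancel h1.2
          exact (mul_right_cancel₀ hN0.ne' this).symm
      · exact absurd rfl (h.off (h.nb_off (by omega) hp k l) h1 (c + a) (d + b))
    obtain ⟨rfl, rfl⟩ := hk
    rw [hB] at hkl
    rcases hkl with ⟨h2, h3⟩ | ⟨p, q, hp, hq, h2⟩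
    · exfalso
      rcases hab with h5 | h5 <;> omega
    · rw [hR] at hp hq
      refine ⟨(p.1 + c * N, p.2 + d * N), ?_⟩
      have h3 := Pool.Agent.H90.AL.conn_per h.per0 (c + a) (d + b)
        ((h4 q p hq.1 hp.1 hq.2 hp.2).mono_set (Set.subset_univ _))
      have h5 := h2.trans h3
      have e1 : ((p.1 + (c + a) * N, p.2 + (d + b) * N) : Vert) =
          (p.1 + c * N + a * N, p.2 + d * N + b * N) := by
        ext <;> (simp only; ring)
      rw [e1] at h5
      exact h5
  · push Not at hT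
    refine ⟨u, ?_⟩
    refine hc.induction_right (P := fun Y => Conn η0 Set.univ u Y) (Conn.refl (Set.mem_univ _)) ?_
    intro x y hux hs hx
    rcases h.step x y hs with h1 | ⟨a', b', h1 | h1⟩
    · exact hx.tail h1
    · rw [h1] at hux
      exact absurd hux (hT a' b')
    · have := hux.tail hs
      rw [h1] at this
      exact absurd this (hT a' b')

/-- Without four arms a path between far vertices can avoid the translates of `v`. -/
theorem conn_of_noFour {N r : ℕ} {v : Vert} {η0 η1 : Config} (hr : 1 ≤ r) (hN : 2 * r + 2 ≤ N)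
    (h : AddSite N v η0 η1) (h4 : NoFour v r η0 η1) {X Y : Vert}
    (hX : ∀ a b : ℤ, (X.1 - a * N, X.2 - b * N) ∉ ball v r)
    (hY : ∀ a b : ℤ, (Y.1 - a * N, Y.2 - b * N) ∉ ball v r)
    (hc : Conn η1 Set.univ X Y) : Conn η0 Set.univ X Y := by
  have hconv : ∀ {Z : Vert}, (∀ a b : ℤ, (Z.1 - a * N, Z.2 - b * N) ∉ ball v r) → ∀ a b : ℤ,
      Z ∉ ball (v.1 + a * N, v.2 + b * N) r := by
    intro Z hZ a b hm
    apply hZ a b
    rw [mem_ball] at hm ⊢
    simp only at hm ⊢
    omega
  have hX' := hconv hX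
  have hY' := hconv hY
  have hXoff : ∀ a b : ℤ, X ≠ (v.1 + a * N, v.2 + b * N) := fun a b h1 => hX' a b (by
    rw [h1]; exact self_mem_ball)
  obtain ⟨R, hR⟩ : ∃ R : Vert → Prop, ∀ p, R p ↔ (Step η1 Set.univ v p ∧
    ∃ u ∈ sphere v r, Conn η0 (ball v r) p u) := ⟨_, fun _ => Iff.rfl⟩
  have key : Conn η0 Set.univ X Y ∨ ∃ k l q, R q ∧
      Conn η0 Set.univ X (q.1 + k * N, q.2 + l * N) ∧ (Y = (v.1 + k * N, v.2 + l * N) ∨
        ∃ p, Step η1 Set.univ v p ∧ Conn η0 Set.univ (p.1 + k * N, p.2 + l * N) Y) := by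
    refine hc.induction_right (P := fun Z => Conn η0 Set.univ X Z ∨ ∃ k l q, R q ∧
      Conn η0 Set.univ X (q.1 + k * N, q.2 + l * N) ∧ (Z = (v.1 + k * N, v.2 + l * N) ∨
        ∃ p, Step η1 Set.univ v p ∧ Conn η0 Set.univ (p.1 + k * N, p.2 + l * N) Z))
      (Or.inl (Conn.refl (Set.mem_univ _))) ?_
    rintro Z Z' - hs (h1 | ⟨k, l, q, hq, hXq, h1 | ⟨p, hp, h1⟩⟩)
    · rcases h.step' (h.off hXoff h1) hs with h2 | ⟨k, l, q, hZ', hq, hZ⟩
      · exact Or.inl (h1.tail h2)
      · right
        rw [hZ] at h1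
        exact ⟨k, l, q, (hR q).2 ⟨hq, reach_of_conn h.per0 ((Step.nb hq).mem_ball hr) k l
          (hX' k l) h1.symm⟩, h1, Or.inl hZ'⟩
    · right
      subst h1
      refine ⟨k, l, q, hq, hXq, Or.inr ⟨(Z'.1 - k * N, Z'.2 - l * N),
        step_per' h.per1 k l hs, ?_⟩⟩
      have e1 : ((Z'.1 - k * N + k * N, Z'.2 - l * N + l * N) : Vert) = Z' := by
        ext <;> (simp only; ring)
      simp only
      rw [e1]
      exact Conn.refl (Set.mem_univ _)
    · right
      have hoff := h.off (h.nb_off (by omega) hp k l) h1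
      rcases h.step' hoff hs with h2 | ⟨k', l', q', hZ', hq', hZ⟩
      · exact ⟨k, l, q, hq, hXq, Or.inr ⟨p, hp, h1.tail h2⟩⟩
      · by_cases hkk : (k, l) = (k', l')
        · obtain ⟨rfl, rfl⟩ := Prod.mk.inj hkk
          exact ⟨k, l, q, hq, hXq, Or.inl hZ'⟩
        · rw [hZ] at h1
          have hpR : R p := (hR p).2 ⟨hp, reach_of_conn h.per0
            ((Step.nb hp).mem_ball hr) k l (h.nb_out hr hN hq' (Ne.symm hkk)) h1⟩
          have hqR : R q' := (hR q').2 ⟨hq', reach_of_conn h.per0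
            ((Step.nb hq').mem_ball hr) k' l' (h.nb_out hr hN hp hkk) h1.symm⟩
          refine ⟨k', l', q', hqR, hXq.trans (Conn.trans ?_ h1), Or.inl hZ'⟩
          rw [hR] at hq hpR
          exact Pool.Agent.H90.AL.conn_per h.per0 k l
            ((h4 q p hq.1 hpR.1 hq.2 hpR.2).mono_set (Set.subset_univ _))
  rcases key with h1 | ⟨k, l, q, hq, hXq, h1 | ⟨p, hp, h1⟩⟩
  · exact h1
  · exact absurd (h1 ▸ self_mem_ball) (hY' k l)
  · have hpR : R p := (hR p).2 ⟨hp, reach_of_conn h.per0
      ((Step.nb hp).mem_ball hr) k l (hY' k l) h1⟩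
    rw [hR] at hq hpR
    exact (hXq.trans (Pool.Agent.H90.AL.conn_per h.per0 k l
      ((h4 q p hq.1 hpR.1 hq.2 hpR.2).mono_set (Set.subset_univ _)))).trans h1

/-- If opening `v` joins `X` to `Y`, then the cluster of `X` contains a translate of a neighbour
of `v`. -/
theorem touch_of_addSite {N : ℕ} {v : Vert} {η0 η1 : Config} (h : AddSite N v η0 η1) {X Y : Vert}
    (hX : ∀ a b : ℤ, X ≠ (v.1 + a * N, v.2 + b * N)) (h1 : Conn η1 Set.univ X Y)
    (h0 : ¬ Conn η0 Set.univ X Y) :
    ∃ (p : Vert) (a b : ℤ), Nb v p ∧ Conn η0 Set.univ X (p.1 + a * N, p.2 + b * N) := by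
  have key : Conn η0 Set.univ X Y ∨ ∃ (p : Vert) (a b : ℤ), Nb v p ∧
      Conn η0 Set.univ X (p.1 + a * N, p.2 + b * N) := by
    refine h1.induction_right (P := fun Z => Conn η0 Set.univ X Z ∨ ∃ (p : Vert) (a b : ℤ),
      Nb v p ∧ Conn η0 Set.univ X (p.1 + a * N, p.2 + b * N))
      (Or.inl (Conn.refl (Set.mem_univ _))) ?_
    rintro Z Z' - hs (h2 | h2)
    · rcases h.step' (h.off hX h2) hs with h3 | ⟨k, l, q, hZ', hq, hZ⟩
      · exact Or.inl (h2.tail h3)
      · right
        rw [hZ] at h2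
        exact ⟨q, k, l, Step.nb hq, h2⟩
    · exact Or.inr h2
  rcases key with h2 | h2
  · exact absurd h2 h0
  · exact h2

theorem isPer_sit {N : ℕ} {η : Config} (h : IsPer N η) : IsPer N (sit η) := by
  intro a b f
  have h1 := sit_shiftE (a * N, b * N) η
  have h2 : (fun f => η (shiftE (a * N, b * N) f)) = η := by
    funext e
    exact h a b e
  rw [h2] at h1
  exact (congrFun h1 f).symm

theorem per_sv {N : ℕ} (w : Config) (u : Vert) :
    per N w (sv u) = w (modE N (sv u)) := rfl

/-- The sites which are translates of a site of the torus. -/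
theorem modE_eq_iff {N : ℕ} {v : Vert} (hv : sv v ∈ tSites N) (u : Vert) :
    modE N (sv u) = sv v ↔ ∃ a b : ℤ, u = (v.1 + a * N, v.2 + b * N) := by
  rw [mem_tSites] at hv
  constructor
  · intro h
    simp only [modE, sv, Prod.mk.injEq, and_true] at h
    refine ⟨u.1 / N, u.2 / N, ?_⟩
    rw [← h.1, ← h.2]
    ext
    · simp only
      rw [Int.emod_add_ediv_mul]
    · simp only
      rw [Int.emod_add_ediv_mul]
  · rintro ⟨a, b, rfl⟩
    simp only [modE, sv, Prod.mk.injEq, and_true]
    simp only [sv] at hv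
    rw [Int.add_mul_emod_self_right, Int.add_mul_emod_self_right,
      Int.emod_eq_of_lt hv.1.1 hv.1.2, Int.emod_eq_of_lt hv.2.1.1 hv.2.1.2]
    exact ⟨rfl, rfl⟩

/-- The configurations on the torus. -/
theorem addSite_sit {N : ℕ} {v : Vert} (hv : sv v ∈ tSites N) (w : Config) :
    AddSite N v (sit (per N (Function.update w (sv v) false)))
      (sit (per N (Function.update w (sv v) true))) := by
  have hmono : ∀ e, Function.update w (sv v) false e = true →
      Function.update w (sv v) true e = true := by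
    intro e he
    by_cases h : e = sv v
    · subst h; simp
    · rw [Function.update_of_ne h] at he ⊢
      exact he
  have hvv : modE N (sv v) = sv v := (modE_eq_iff hv v).2 ⟨0, 0, by simp⟩
  refine ⟨isPer_sit (Pool.Agent.H90.AL.isPer_per N _), isPer_sit (Pool.Agent.H90.AL.isPer_per N _),
    ?_, ?_, ?_⟩
  · rintro x ⟨-, -, e, he, ho⟩
    rw [Pool.Agent.H83.SK.sit_true, per_sv, per_sv] at ho
    rcases he with ⟨h1, -⟩ | ⟨h1, -⟩
    · rw [← h1, hvv, Function.update_self] at ho
      exact absurd ho.1 (by decide)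
    · rw [← h1, hvv, Function.update_self] at ho
      exact absurd ho.2 (by decide)
  · exact Pool.Agent.H83.SK.sit_mono fun e he => hmono _ he
  · rintro x y ⟨-, -, e, he, ho⟩
    by_cases h : sit (per N (Function.update w (sv v) false)) e = true
    · exact Or.inl ⟨Set.mem_univ _, Set.mem_univ _, e, he, h⟩
    · right
      rw [Pool.Agent.H83.SK.sit_true, per_sv, per_sv] at h ho
      have h2 : modE N (sv (src e)) = sv v ∨ modE N (sv (tgt e)) = sv v := by
        by_contra hno
        push Not at hno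
        apply h
        rw [Function.update_of_ne hno.1, Function.update_of_ne hno.2] at ho ⊢
        exact ho
      rw [modE_eq_iff hv, modE_eq_iff hv] at h2
      rcases h2 with ⟨a, b, h2⟩ | ⟨a, b, h2⟩ <;> refine ⟨a, b, ?_⟩ <;> rw [← h2] <;>
        rcases he with ⟨h3, h4⟩ | ⟨h3, h4⟩
      · exact Or.inl h3
      · exact Or.inr h4
      · exact Or.inr h4
      · exact Or.inl h3

/-- In the ball the torus configuration with the translates of `v` closed is the configuration
with `v` closed. -/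
theorem sit_per_ball {N r : ℕ} (hN : 2 * r < N) {v : Vert} (hv : sv v ∈ tSites N) (w : Config)
    {e : Edge} (h1 : src e ∈ ball v r) (h2 : tgt e ∈ ball v r) :
    sit (per N (Function.update w (sv v) false)) e = closeV v (sit (per N w)) e := by
  have key : ∀ u : Vert, u ∈ ball v r →
      per N (Function.update w (sv v) false) (sv u) = Function.update (per N w) (sv v) false (sv u) := by
    intro u hu
    by_cases huv : u = v
    · subst huv
      rw [per_sv, (modE_eq_iff hv u).2 ⟨0, 0, by simp⟩, Function.update_self, Function.update_self]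
    · rw [Function.update_of_ne (sv_ne huv), per_sv, per_sv, Function.update_of_ne]
      intro h3
      rw [modE_eq_iff hv] at h3
      obtain ⟨a, b, rfl⟩ := h3
      apply huv
      rw [mem_ball] at hu
      simp only at hu
      have hN' : (2 * r : ℤ) < N := by exact_mod_cast hN
      have key : ∀ c x : ℤ, x - r ≤ x + c * N → x + c * N ≤ x + r → c = 0 := by
        intro c x h1 h2
        by_contra h0
        rcases lt_or_gt_of_ne h0 with h5 | h5
        · have h6 : c * N ≤ -1 * N := mul_le_mul_of_nonneg_right (by omega) (by omega)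
          omega
        · have h6 : 1 * N ≤ c * N := mul_le_mul_of_nonneg_right (by omega) (by omega)
          omega
      rw [key a v.1 hu.1 hu.2.1, key b v.2 hu.2.2.1 hu.2.2.2]
      simp
  rw [← sit_shut]
  unfold shut
  simp only [sit]
  rw [key _ h1, key _ h2]

end Pool.Agent.H92.SN
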