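import Pool.Agent.H92.SN.Est
import Pool.Agent.H90.AL.Sums

/-!
# Second derivative of the connection probability on the torus
-/

set_option autoImplicit false

open MeasureTheory ProbabilityTheory unitInterval

namespace Pool.Agent.H92.SN

open Pool.Agent.H89.Perc
open Pool.Agent.H61.NC (modE mid Joint Joint_piv)
open Pool.Agent.H83.SK (sv sit)
open Pool.Agent.H90.AL (dT dT_self dT_comm dT_tri dT_le_half sum_by_dT isPer_per conn_per)

theorem localOn_DT {N : ℕ} (hN : 1 ≤ N) (i : ℕ) : LocalOn (tSites N) (DT N i) := by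
  intro w w' h hw
  have e : sit (per N (shut (cV N) w)) = sit (per N (shut (cV N) w')) := by
    refine sit_per_congr hN fun e he => ?_
    unfold shut
    by_cases h1 : e = sv (cV N)
    · subst h1
      rw [Function.update_self, Function.update_self]
    · rw [Function.update_of_ne h1, Function.update_of_ne h1]
      exact h e he
  obtain ⟨j, hj, a, b, hc⟩ := hw
  exact ⟨j, hj, a, b, e ▸ hc⟩

theorem incr_DT (N i : ℕ) : Incr (DT N i) := by
  rintro w w' h ⟨j, hj, a, b, hc⟩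
  refine ⟨j, hj, a, b, hc.mono le_rfl (Pool.Agent.H83.SK.sit_mono fun e he => ?_)⟩
  rw [per] at he ⊢
  unfold shut at he ⊢
  by_cases h1 : (e.1 % (N : ℤ), e.2.1 % (N : ℤ), e.2.2) = sv (cV N)
  · rw [h1, Function.update_self] at he
    exact absurd he (by decide)
  · rw [Function.update_of_ne h1] at he ⊢
    exact h _ he

theorem cfgS_ball {N r : ℕ} (hr : 2 * r < N) (w : Config) {g : Edge}
    (h1 : src g ∈ ball (cV N) r) (h2 : tgt g ∈ ball (cV N) r) :
    cfgS N w g = closeV (cV N) (sit (per N w)) g :=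
  sit_per_ball hr (by rw [sv_cV]; exact cE_mem (by omega)) w h1 h2

theorem B0T_sub {N r : ℕ} (i : ℕ) (hr : 2 * r < N) :
    {w | sit (per N w) ∈ Dn (ball (cV N) r) (cV N) i} ⊆ DT N i := by
  rintro w ⟨j, hj, hc⟩
  refine ⟨j, hj, 0, 0, ?_⟩
  simp only [zero_mul, add_zero]
  exact (hc.congr fun g h1 h2 => (cfgS_ball hr w h1 h2).symm).mono_set (Set.subset_univ _)

theorem DT_sub {N r : ℕ} (i : ℕ) (hr : 1 ≤ r) (hN : 2 * r + 2 ≤ N) :
    DT N i ⊆ {w | sit (per N w) ∈ Dn (ball (cV N) r) (cV N) i} ∪ A4T N (cV N) r := by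
  rintro w ⟨j, hj, a, b, hc⟩
  have hcf : ∀ g : Edge, src g ∈ ball (cV N) r → tgt g ∈ ball (cV N) r →
      cfgS N w g = closeV (cV N) (sit (per N w)) g := fun g h1 h2 =>
    cfgS_ball (by omega) w h1 h2
  change Conn (cfgS N w) _ _ _ at hc
  by_cases h0 : Conn (cfgS N w) (ball (cV N) r) (nb (cV N) j) (nb (cV N) i)
  · exact Or.inl ⟨j, hj, h0.congr hcf⟩
  right
  have hp := isPer_cfgS N w
  have mj := (nb_Nb (cV N) j).mem_ball (r := 1) le_rfl
  have mi := (nb_Nb (cV N) i).mem_ball (r := 1) le_rfl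
  have e1 : ((((nb (cV N) i).1 + a * N) + -a * N, ((nb (cV N) i).2 + b * N) + -b * N) : Vert) =
      nb (cV N) i := by
    ext <;> (simp only; ring)
  have hc2 := conn_per hp (-a) (-b) hc
  simp only at hc2
  rw [e1] at hc2
  have hout : a ≠ 0 ∨ b ≠ 0 → ((nb (cV N) i).1 + a * N, (nb (cV N) i).2 + b * N) ∉
      ball (cV N) r ∧ ((nb (cV N) j).1 + -a * N, (nb (cV N) j).2 + -b * N) ∉
      ball (cV N) r := by
    intro hab
    have key : ∀ x : ℤ, x ≠ 0 → x * N ≤ -N ∨ N ≤ x * N := by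
      intro x hx
      rcases lt_or_gt_of_ne hx with h | h
      · left
        have : x * N ≤ -1 * N := mul_le_mul_of_nonneg_right (by omega) (by omega)
        omega
      · right
        have : 1 * N ≤ x * N := mul_le_mul_of_nonneg_right (by omega) (by omega)
        omega
    rw [mem_ball] at mj mi
    push_cast at mj mi
    simp only [mem_ball, neg_mul]
    rcases hab with h | h
    · have := key _ h
      constructor <;> omega
    · have := key _ h
      constructor <;> omega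
  have conv : ∀ p : Vert, (∃ x ∈ sphere (cV N) r,
      Conn (cfgS N w) (ball (cV N) r) p x) → ∃ x ∈ sphere (cV N) r,
      Conn (closeV (cV N) (sit (per N w))) (ball (cV N) r) p x := by
    rintro p ⟨x, hx, hc⟩
    exact ⟨x, hx, hc.congr hcf⟩
  refine ⟨nb (cV N) j, nb (cV N) i, nb_Nb _ _, nb_Nb _ _, conv _ ?_, conv _ ?_, fun h =>
    h0 (h.congr fun g h1 h2 => (hcf g h1 h2).symm)⟩
  · by_cases hab : a ≠ 0 ∨ b ≠ 0
    · obtain ⟨x, hx, hcx⟩ := hc.to_sphere ((nb_Nb (cV N) j).mem_ball hr) (Or.inl (hout hab).1)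
      exact ⟨x, hx, hcx.mono_set Set.inter_subset_right⟩
    · push Not at hab
      rw [hab.1, hab.2] at hc
      simp only [zero_mul, add_zero] at hc
      exact reach_sphere hc ((nb_Nb (cV N) j).mem_ball hr) h0
  · by_cases hab : a ≠ 0 ∨ b ≠ 0
    · obtain ⟨x, hx, hcx⟩ := hc2.symm.to_sphere ((nb_Nb (cV N) i).mem_ball hr)
        (Or.inl (hout hab).2)
      exact ⟨x, hx, hcx.mono_set Set.inter_subset_right⟩
    · push Not at hab
      rw [hab.1, hab.2] at hc
      simp only [zero_mul, add_zero] at hc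
      exact reach_sphere hc.symm ((nb_Nb (cV N) i).mem_ball hr) fun h => h0 h.symm

theorem Pr_B0T (q : I) {N r : ℕ} (i : ℕ) (hr : 2 * r < N) :
    Pr q {w | sit (per N w) ∈ Dn (ball (cV N) r) (cV N) i} = tl i r q := by
  rw [← Pr_Dn_ball q (cV N) r i]
  unfold Pool.Agent.H83.SK.Pr
  rw [← Pr_comp (localOn_sitDn (cV N) r i) (modE_injOn_sBall (cV N) hr)]
  rfl

/-- Comparison with the plane. -/
theorem DT_near (q : I) {N r : ℕ} (i : ℕ) (hr : 1 ≤ r) (hN : 2 * r + 2 ≤ N) :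
    |Pr q (DT N i) - Pool.Agent.H83.SK.Pr q (Dn Set.univ 0 i)| ≤ a4 q r := by
  have h1 : tl i r q ≤ Pr q (DT N i) := by
    rw [← Pr_B0T q (N := N) i (by omega)]
    exact Pr_mono (B0T_sub i (by omega))
  have h2 : Pr q (DT N i) ≤ tl i r q + a4 q r := by
    rw [← Pr_B0T q (N := N) i (by omega), ← Pr_A4T q (cV N) (show 2 * r < N by omega)]
    exact (Pr_mono (DT_sub i hr hN)).trans Pr_union_le
  have h3 := tl_le i r q
  have h4 := tl_near q hr i
  rw [abs_le]
  constructor <;> linarith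

theorem tauT_near (q : I) {N r : ℕ} (hr : 1 ≤ r) (hN : 2 * r + 2 ≤ N) :
    |tauT N q - tau q| ≤ 3 * a4 q r := by
  unfold tauT tau
  rw [← Finset.sum_sub_distrib]
  refine (Finset.abs_sum_le_sum_abs _ _).trans ?_
  refine (Finset.sum_le_sum fun i _ => DT_near q i hr hN).trans (le_of_eq ?_)
  rw [Finset.sum_const, Nat.card_Icc]
  simp

/-! ### The double sum -/

/-- The weight of a pair of distances. -/
noncomputable def GS (a : ℕ → ℝ) (x y : ℕ) : ℝ :=
  if x ≤ y then a (x + 1) * (a (y + 1) * a (y + 1)) else 0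

lemma GS_nonneg {a : ℕ → ℝ} (ha : ∀ t, 0 ≤ a t) (x y : ℕ) : 0 ≤ GS a x y := by
  unfold GS
  split_ifs
  · exact mul_nonneg (ha _) (mul_nonneg (ha _) (ha _))
  · exact le_rfl

theorem sum_by_dTS {N : ℕ} (hN : 1 ≤ N) (c : Vert) (h : ℕ → ℝ) (hh : ∀ t, 0 ≤ h t) :
    ∑ f ∈ tSites N, h (dT N (src f) c) ≤ ∑ t ∈ Finset.range (N + 1), 16 * ((t : ℝ) + 1) * h t :=
  (Finset.sum_le_sum_of_subset_of_nonneg (tSites_sub N) fun _ _ _ => hh _).trans
    (sum_by_dT hN c h hh)

theorem sum_GS {a : ℕ → ℝ} (ha : ∀ t, 0 ≤ a t) {N : ℕ} {C : ℝ}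
    (h : ∀ n, 1 ≤ n → n ≤ N + 1 → ∑ t ∈ Finset.Icc 1 n, (t : ℝ) * a t ≤ C * ((n : ℝ) ^ 2 * a n)) :
    ∑ y ∈ Finset.range (N + 1), 16 * ((y : ℝ) + 1) *
      ∑ x ∈ Finset.range (N + 1), 16 * ((x : ℝ) + 1) * GS a x y ≤
      256 * C * ∑ t ∈ Finset.Icc 1 (N + 1), (t : ℝ) ^ 3 * a t ^ 3 := by
  have inner : ∀ y ∈ Finset.range (N + 1), 16 * ((y : ℝ) + 1) *
      ∑ x ∈ Finset.range (N + 1), 16 * ((x : ℝ) + 1) * GS a x y ≤
      256 * C * (((y + 1 : ℕ) : ℝ) ^ 3 * a (y + 1) ^ 3) := by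
    intro y hy
    have hy1 : y < N + 1 := Finset.mem_range.1 hy
    have e1 : ∑ x ∈ Finset.range (N + 1), 16 * ((x : ℝ) + 1) * GS a x y =
        ∑ x ∈ Finset.range (y + 1), 16 * ((x : ℝ) + 1) * GS a x y := by
      symm
      refine Finset.sum_subset (Finset.range_subset_range.2 (by omega)) fun x _ hx => ?_
      rw [Finset.mem_range, not_lt] at hx
      unfold GS
      rw [if_neg (by omega), mul_zero]
    have e2 : ∑ x ∈ Finset.range (y + 1), 16 * ((x : ℝ) + 1) * GS a x y =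
        16 * (a (y + 1) * a (y + 1)) * ∑ t ∈ Finset.Icc 1 (y + 1), (t : ℝ) * a t := by
      have e3 : Finset.Icc 1 (y + 1) = Finset.Ico (0 + 1) (y + 1 + 1) := by
        ext x
        simp only [Finset.mem_Icc, Finset.mem_Ico]
        omega
      rw [e3, ← Finset.sum_Ico_add' (fun t : ℕ => (t : ℝ) * a t) 0 (y + 1) 1,
        ← Finset.range_eq_Ico, Finset.mul_sum]
      refine Finset.sum_congr rfl fun x hx => ?_
      rw [Finset.mem_range] at hx
      unfold GS
      rw [if_pos (by omega)]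
      push_cast
      ring
    rw [e1, e2]
    have h3 := h (y + 1) (by omega) (by omega)
    have h4 : 0 ≤ a (y + 1) * a (y + 1) := mul_nonneg (ha _) (ha _)
    calc 16 * ((y : ℝ) + 1) * (16 * (a (y + 1) * a (y + 1)) *
          ∑ t ∈ Finset.Icc 1 (y + 1), (t : ℝ) * a t) ≤
        16 * ((y : ℝ) + 1) * (16 * (a (y + 1) * a (y + 1)) *
          (C * (((y + 1 : ℕ) : ℝ) ^ 2 * a (y + 1)))) := by gcongr
      _ = _ := by push_cast; ring
  refine (Finset.sum_le_sum inner).trans (le_of_eq ?_)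
  rw [← Finset.mul_sum]
  congr 1
  have e3 : Finset.Icc 1 (N + 1) = Finset.Ico (0 + 1) (N + 1 + 1) := by
    ext x
    simp only [Finset.mem_Icc, Finset.mem_Ico]
    omega
  rw [e3, ← Finset.sum_Ico_add' (fun t : ℕ => (t : ℝ) ^ 3 * a t ^ 3) 0 (N + 1) 1,
    ← Finset.range_eq_Ico]

/-- The sum of the joint influences. -/
theorem second_DT (hGL : GLTorus) (hBL : BlockLow) (hQM : QMann) : ∀ c : ℝ, 0 < c →
    ∃ C : ℝ, 0 < C ∧ ∀ (N i : ℕ) (q : I), 1 ≤ N → SReg c (128 * N) q →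
      ∑ f ∈ tSites N, ∑ g ∈ (tSites N).erase f, Pr q (Joint (DT N i) f g) ≤
        C * ∑ t ∈ Finset.Icc 1 (N + 1), (t : ℝ) ^ 3 * a4 q t ^ 3 := by
  classical
  intro c hc
  obtain ⟨C, hC, hest⟩ := estimateS hGL hBL hQM c hc
  obtain ⟨K, hK, hcmp⟩ := a4_cmp hGL hBL c hc 2 (by norm_num)
  obtain ⟨M, hM, hsum⟩ := sum_a4_le hGL hBL c hc
  refine ⟨C * K ^ 2 * (3 * (256 * M)), by positivity, ?_⟩
  intro N i q hN hR
  obtain ⟨a, ha⟩ : ∃ a : ℕ → ℝ, a = fun t => a4 q t := ⟨_, rfl⟩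
  have ha0 : ∀ t, 0 ≤ a t := fun t => by rw [ha]; exact a4_nonneg q t
  have har : ∀ t, a4 q t = a t := fun t => by rw [ha]
  obtain ⟨e, he⟩ : ∃ e : Vert, e = cV N := ⟨_, rfl⟩
  have hi := incr_DT N i
  have hreg : ∀ n, n ≤ N + 1 → SReg c (64 * n) q := fun n hn => sreg_anti hR (by omega)
  -- the bound by the two smallest distances
  have hbd : ∀ (p : ℝ) (d₁ d₂ y : ℕ), d₁ ≤ y → y ≤ 2 * d₂ → y ≤ N →
      p ≤ C * (a4 q (d₁ + 1) * (a4 q (d₂ + 1) * a4 q (d₂ + 1))) →
      p ≤ C * K ^ 2 * GS a d₁ y := by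
    intro p d₁ d₂ y h1 h2 h3 h
    have h4 := hcmp (d₂ + 1) (y + 1) q (by omega) (by omega) (by omega) (hreg _ (by omega))
    rw [har, har] at h4
    rw [har, har] at h
    have h5 : a (d₂ + 1) * a (d₂ + 1) ≤ (K * a (y + 1)) * (K * a (y + 1)) :=
      mul_le_mul h4 h4 (ha0 _) (mul_nonneg hK.le (ha0 _))
    unfold GS
    rw [if_pos h1]
    calc p ≤ C * (a (d₁ + 1) * (a (d₂ + 1) * a (d₂ + 1))) := h
      _ ≤ C * (a (d₁ + 1) * ((K * a (y + 1)) * (K * a (y + 1)))) :=
          mul_le_mul_of_nonneg_left (mul_le_mul_of_nonneg_left h5 (ha0 _)) hC.le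
      _ = _ := by ring
  have hCK : 0 ≤ C * K ^ 2 := by positivity
  -- termwise
  have hterm : ∀ f ∈ tSites N, ∀ g ∈ (tSites N).erase f, Pr q (Joint (DT N i) f g) ≤
      C * K ^ 2 * (GS a (dT N (src f) e) (dT N (src g) e) +
        GS a (dT N (src g) e) (dT N (src f) e) +
        GS a (dT N (src g) (src f)) (dT N (src f) e)) := by
    intro f hf g hg
    have hgm : g ∈ tSites N := Finset.mem_of_mem_erase hg
    have hf2 := (mem_tSites.1 hf).2.2
    have hg2 := (mem_tSites.1 hgm).2.2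
    have sf : sv (src f) = f := sv_src hf2
    have sg : sv (src g) = g := sv_src hg2
    have hfg : src f ≠ src g := by
      intro h
      apply Finset.ne_of_mem_erase hg
      rw [← sf, ← sg, h]
    have hxf : sv (src f) ∈ tSites N := by rw [sf]; exact hf
    have hxg : sv (src g) ∈ tSites N := by rw [sg]; exact hgm
    have r1 := roleS_one hN hxf hxg hfg hi
    have r2 := roleS_two hN hxf hxg hfg hi
    have r3 := roleS_three hN hxf hxg hfg hi
    rw [sf, sg, ← he] at r1 r2 r3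
    obtain ⟨x, hx⟩ : ∃ x, x = dT N (src f) e := ⟨_, rfl⟩
    obtain ⟨y, hy⟩ : ∃ y, y = dT N (src g) e := ⟨_, rfl⟩
    obtain ⟨z, hz⟩ : ∃ z, z = dT N (src g) (src f) := ⟨_, rfl⟩
    have t1 := dT_tri hN (src f) (src g) e
    have t2 := dT_tri hN (src g) (src f) e
    have t3 := dT_tri hN (src g) e (src f)
    have c1 := dT_comm hN (src f) (src g)
    have c2 := dT_comm hN e (src f)
    have c3 := dT_comm hN e (src g)
    have l1 := dT_le_half hN (src f) e
    have l2 := dT_le_half hN (src g) e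
    have g1 := GS_nonneg ha0 x y
    have g2 := GS_nonneg ha0 y x
    have g3 := GS_nonneg ha0 z x
    rw [← hx, ← hy, ← hz]
    rw [mul_add, mul_add]
    have k1 := mul_nonneg hCK g1
    have k2 := mul_nonneg hCK g2
    have k3 := mul_nonneg hCK g3
    have hcase : (x ≤ y ∧ x ≤ z) ∨ (y ≤ x ∧ y ≤ z) ∨ (z ≤ x ∧ z ≤ y) := by omega
    rcases hcase with ⟨m1, m2⟩ | ⟨m1, m2⟩ | ⟨m1, m2⟩
    · have h1 := hest N q _ e (src f) (src g) x (min y z) hN hR r2 (by omega) (by omega)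
        (by omega) (by omega)
      have h2 := hbd _ x (min y z) y m1 (by omega) (by omega) h1
      linarith
    · have h1 := hest N q _ e (src g) (src f) y (min x z) hN hR r3 (by omega) (by omega)
        (by omega) (by omega)
      have h2 := hbd _ y (min x z) x m1 (by omega) (by omega) h1
      linarith
    · have h1 := hest N q _ (src f) (src g) e z (min x y) hN hR r1 (by omega) (by omega)
        (by omega) (by omega)
      have h2 := hbd _ z (min x y) x m1 (by omega) (by omega) h1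
      linarith
  -- the three sums
  obtain ⟨T, hT⟩ : ∃ T : ℝ, T = ∑ t ∈ Finset.Icc 1 (N + 1), (t : ℝ) ^ 3 * a t ^ 3 := ⟨_, rfl⟩
  have hG := sum_GS ha0 (N := N) (C := M) (fun n h1 h2 => by
    rw [ha]
    exact hsum n q h1 (hreg n h2))
  rw [← hT] at hG
  have hin : ∀ (c' : Vert) (y : ℕ), ∑ g ∈ tSites N, GS a (dT N (src g) c') y ≤
      ∑ x ∈ Finset.range (N + 1), 16 * ((x : ℝ) + 1) * GS a x y :=
    fun c' y => sum_by_dTS hN c' (fun x => GS a x y) fun x => GS_nonneg ha0 x y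
  have hout : ∑ f ∈ tSites N, ∑ x ∈ Finset.range (N + 1), 16 * ((x : ℝ) + 1) *
      GS a x (dT N (src f) e) ≤ 256 * M * T := by
    refine le_trans (sum_by_dTS hN e
      (fun y => ∑ x ∈ Finset.range (N + 1), 16 * ((x : ℝ) + 1) * GS a x y) fun y => ?_) hG
    exact Finset.sum_nonneg fun x _ => mul_nonneg (by positivity) (GS_nonneg ha0 x y)
  have s1 : ∑ f ∈ tSites N, ∑ g ∈ tSites N,
      GS a (dT N (src f) e) (dT N (src g) e) ≤ 256 * M * T := by
    rw [Finset.sum_comm]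
    exact (Finset.sum_le_sum fun g _ => hin e _).trans hout
  have s2 : ∑ f ∈ tSites N, ∑ g ∈ tSites N,
      GS a (dT N (src g) e) (dT N (src f) e) ≤ 256 * M * T :=
    (Finset.sum_le_sum fun f _ => hin e _).trans hout
  have s3 : ∑ f ∈ tSites N, ∑ g ∈ tSites N,
      GS a (dT N (src g) (src f)) (dT N (src f) e) ≤ 256 * M * T :=
    (Finset.sum_le_sum fun f _ => hin (src f) _).trans hout
  have hT' : ∑ t ∈ Finset.Icc 1 (N + 1), (t : ℝ) ^ 3 * a4 q t ^ 3 = T := by
    rw [hT, ha]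
  rw [hT']
  calc ∑ f ∈ tSites N, ∑ g ∈ (tSites N).erase f, Pr q (Joint (DT N i) f g)
      ≤ ∑ f ∈ tSites N, ∑ g ∈ tSites N,
        C * K ^ 2 * (GS a (dT N (src f) e) (dT N (src g) e) +
          GS a (dT N (src g) e) (dT N (src f) e) +
          GS a (dT N (src g) (src f)) (dT N (src f) e)) := by
        refine Finset.sum_le_sum fun f hf => ?_
        refine (Finset.sum_le_sum fun g hg => hterm f hf g hg).trans ?_
        refine Finset.sum_le_sum_of_subset_of_nonneg (Finset.erase_subset _ _) fun g _ _ => ?_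
        have g1 := GS_nonneg ha0 (dT N (src f) e) (dT N (src g) e)
        have g2 := GS_nonneg ha0 (dT N (src g) e) (dT N (src f) e)
        have g3 := GS_nonneg ha0 (dT N (src g) (src f)) (dT N (src f) e)
        exact mul_nonneg hCK (by linarith)
    _ = C * K ^ 2 * (∑ f ∈ tSites N, ∑ g ∈ tSites N, GS a (dT N (src f) e) (dT N (src g) e) +
        ∑ f ∈ tSites N, ∑ g ∈ tSites N, GS a (dT N (src g) e) (dT N (src f) e) +
        ∑ f ∈ tSites N, ∑ g ∈ tSites N, GS a (dT N (src g) (src f)) (dT N (src f) e)) := by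
        rw [← Finset.sum_add_distrib, ← Finset.sum_add_distrib, Finset.mul_sum]
        refine Finset.sum_congr rfl fun f _ => ?_
        rw [← Finset.sum_add_distrib, ← Finset.sum_add_distrib, Finset.mul_sum]
    _ ≤ C * K ^ 2 * (3 * (256 * M)) * T := by
        rw [mul_assoc (C * K ^ 2)]
        refine mul_le_mul_of_nonneg_left ?_ hCK
        linarith

end Pool.Agent.H92.SN
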