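import Pool.Agent.H92.SN.Pair
import Pool.Agent.H61.NC.Sum

/-!
# The sum over pairs of sites
-/

set_option autoImplicit false

open MeasureTheory ProbabilityTheory unitInterval

namespace Pool.Agent.H92.SN

open Pool.Agent.H89.Perc
open Pool.Agent.H61.NC (fill mid upd Joint PrR' dist0 Sum_rpow Sum_eight)
open Pool.Agent.H83.SK (sv sit)

theorem Sum_card_sBall (v : Vert) (s : ℕ) : (sBall v s).card = (2 * s + 1) ^ 2 := by
  unfold sBall
  rw [Finset.card_product, Finset.card_product, Int.card_Icc, Int.card_Icc,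
    Finset.card_singleton]
  have h : (v.1 + (s : ℤ) + 1 - (v.1 - s)).toNat = 2 * s + 1 := by omega
  have h' : (v.2 + (s : ℤ) + 1 - (v.2 - s)).toNat = 2 * s + 1 := by omega
  rw [h, h']
  ring

/-- Number of sites of the torus at a given distance from the middle. -/
theorem card_dist0 (N t : ℕ) (ht : 1 ≤ t) :
    (((tSites N).filter fun f => dist0 N f = t).card : ℝ) ≤ 8 * t := by
  classical
  obtain ⟨s, rfl⟩ : ∃ s, t = s + 1 := ⟨t - 1, by omega⟩
  have hsub : ((tSites N).filter fun f => dist0 N f = s + 1) ⊆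
      sBall (cV N) (s + 1) \ sBall (cV N) s := by
    intro f hf
    rw [Finset.mem_filter] at hf
    have h1 := hf.2
    have h2 := (mem_tSites.1 hf.1).2.2
    unfold dist0 at h1
    rw [Finset.mem_sdiff, mem_sBall, mem_sBall, Pool.Agent.H89.Perc.mem_ball,
      Pool.Agent.H89.Perc.mem_ball]
    simp only [cV, src, h2, and_true]
    push_cast
    omega
  have hsub2 : sBall (cV N) s ⊆ sBall (cV N) (s + 1) := by
    intro f hf
    rw [mem_sBall, Pool.Agent.H89.Perc.mem_ball] at hf ⊢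
    refine ⟨?_, hf.2⟩
    have := hf.1
    push_cast
    omega
  have h1 := Finset.card_le_card hsub
  rw [Finset.card_sdiff_of_subset hsub2, Sum_card_sBall, Sum_card_sBall] at h1
  have h2 : (2 * (s + 1) + 1) ^ 2 - (2 * s + 1) ^ 2 = 8 * (s + 1) := by
    have : (2 * (s + 1) + 1) ^ 2 = (2 * s + 1) ^ 2 + 8 * (s + 1) := by ring
    omega
  rw [h2] at h1
  exact_mod_cast h1

/-- The influences at scale `N` are comparable to the four-arm probability at scale `N / 64`. -/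
theorem a4_le_sT (hGL : GLTorus) (hBL : BlockLow) : ∀ c : ℝ, 0 < c → ∃ C : ℝ, 0 < C ∧
    ∀ (N : ℕ) (q : I), 64 ≤ N → SReg c N q → a4 q (N / 64) ≤ C * sT q N := by
  intro c hc
  obtain ⟨C1, hC1, h1⟩ := hGL c hc
  obtain ⟨C2, δ, hC2, hδ, h2⟩ := hBL c hc
  refine ⟨64 * C1 * C2, by positivity, fun N q hN hR => ?_⟩
  obtain ⟨r, hr⟩ : ∃ r, r = N / 64 := ⟨_, rfl⟩
  rw [← hr]
  have hr1 : 1 ≤ r := by omega
  have hrN : 64 * r ≤ N := by omega
  have hrN' : N ≤ 128 * r := by omega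
  have k1 := h1 N r q hr1 hrN hR
  have k2 := h2 N (16 * r) q (by omega) (by omega) hR
  have hNpos : (0 : ℝ) < N := by exact_mod_cast (by omega : 0 < N)
  have hx1 : (1 / 8 : ℝ) ≤ ((16 * r : ℕ) : ℝ) / N := by
    rw [le_div_iff₀ hNpos]
    have : (N : ℝ) ≤ 128 * r := by exact_mod_cast hrN'
    push_cast
    linarith
  have hx2 : ((16 * r : ℕ) : ℝ) / N ≤ 1 := by
    rw [div_le_one hNpos]
    exact_mod_cast (by omega : 16 * r ≤ N)
  have hx0 : 0 < ((16 * r : ℕ) : ℝ) / N := by linarith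
  have k3 : (1 / 64 : ℝ) ≤ (((16 * r : ℕ) : ℝ) / N) ^ (2 - δ) := by
    calc (1 / 64 : ℝ) = (1 / 8 : ℝ) ^ 2 := by norm_num
      _ ≤ (((16 * r : ℕ) : ℝ) / N) ^ 2 := by gcongr
      _ = (((16 * r : ℕ) : ℝ) / N) ^ (2 : ℝ) := (Real.rpow_two _).symm
      _ ≤ _ := Real.rpow_le_rpow_of_exponent_ge hx0 hx2 (by linarith)
  have k4 : 1 ≤ 64 * C2 * Pr q (BlockPiv N (16 * r)) := by linarith
  have ha := a4_nonneg q r
  calc a4 q r = a4 q r * 1 := (mul_one _).symm
    _ ≤ a4 q r * (64 * C2 * Pr q (BlockPiv N (16 * r))) := mul_le_mul_of_nonneg_left k4 ha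
    _ = 64 * C2 * (a4 q r * Pr q (BlockPiv N (16 * r))) := by ring
    _ ≤ 64 * C2 * (C1 * sT q N) := mul_le_mul_of_nonneg_left k1 (by positivity)
    _ = _ := by ring


theorem sum_a4 (hGL : GLTorus) (hBL : BlockLow) : ∀ c : ℝ, 0 < c → ∃ C : ℝ, 0 < C ∧
    ∀ (N : ℕ) (q : I), 64 ≤ N → SReg c N q →
      ∑ t ∈ Finset.Icc 1 N, (t : ℝ) * a4 q t ≤ C * ((N : ℝ) ^ 2 * sT q N) := by
  intro c hc
  obtain ⟨C3, hC3, h3⟩ := a4_le_sT hGL hBL c hc
  obtain ⟨C1, hC1, h1⟩ := hGL c hc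
  obtain ⟨C2, δ0, hC2, hδ0, h2⟩ := hBL c hc
  obtain ⟨δ, hδ⟩ : ∃ δ, δ = min δ0 1 := ⟨_, rfl⟩
  have hδpos : 0 < δ := by rw [hδ]; exact lt_min hδ0 one_pos
  have hδ1 : δ ≤ 1 := by rw [hδ]; exact min_le_right _ _
  have hδle : δ ≤ δ0 := by rw [hδ]; exact min_le_left _ _
  refine ⟨C1 * C2 / δ + C3, by positivity, fun N q hN hR => ?_⟩
  have hs := sT_nonneg q N
  have hNpos : (0 : ℝ) < N := by exact_mod_cast (by omega : 0 < N)
  have hterm : ∀ t ∈ Finset.Icc 1 N, (t : ℝ) * a4 q t ≤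
      C1 * C2 * sT q N * (N : ℝ) ^ (2 - δ) * (t : ℝ) ^ (δ - 1) + N * (C3 * sT q N) := by
    intro t ht
    rw [Finset.mem_Icc] at ht
    have htpos : (0 : ℝ) < t := by exact_mod_cast (by omega : 0 < t)
    have ha := a4_nonneg q t
    by_cases h64 : 64 * t ≤ N
    · have k1 := h1 N t q ht.1 h64 hR
      have k2 := h2 N (16 * t) q (by omega) (by omega) hR
      have hx : (t : ℝ) / N ≤ ((16 * t : ℕ) : ℝ) / N := by
        apply div_le_div_of_nonneg_right _ hNpos.le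
        push_cast
        linarith
      have hx1 : ((16 * t : ℕ) : ℝ) / N ≤ 1 := by
        rw [div_le_one hNpos]
        exact_mod_cast (by omega : 16 * t ≤ N)
      have hx0 : 0 < (t : ℝ) / N := by positivity
      have k3 : ((t : ℝ) / N) ^ (2 - δ) ≤ C2 * Pr q (BlockPiv N (16 * t)) := by
        calc ((t : ℝ) / N) ^ (2 - δ) ≤ (((16 * t : ℕ) : ℝ) / N) ^ (2 - δ) :=
              Real.rpow_le_rpow hx0.le hx (by linarith)
          _ ≤ (((16 * t : ℕ) : ℝ) / N) ^ (2 - δ0) :=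
              Real.rpow_le_rpow_of_exponent_ge (hx0.trans_le hx) hx1 (by linarith)
          _ ≤ _ := k2
      have k4 : a4 q t * ((t : ℝ) / N) ^ (2 - δ) ≤ C1 * C2 * sT q N := by
        calc a4 q t * ((t : ℝ) / N) ^ (2 - δ) ≤ a4 q t * (C2 * Pr q (BlockPiv N (16 * t))) :=
              mul_le_mul_of_nonneg_left k3 ha
          _ = C2 * (a4 q t * Pr q (BlockPiv N (16 * t))) := by ring
          _ ≤ C2 * (C1 * sT q N) := mul_le_mul_of_nonneg_left k1 hC2.le
          _ = _ := by ring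
      have hN2 : 0 < (N : ℝ) ^ (2 - δ) := by positivity
      have ht2 : 0 < (t : ℝ) ^ (δ - 1) := by positivity
      have k5 : (t : ℝ) * a4 q t =
          a4 q t * ((t : ℝ) / N) ^ (2 - δ) * (N : ℝ) ^ (2 - δ) * (t : ℝ) ^ (δ - 1) := by
        rw [Real.div_rpow htpos.le hNpos.le]
        have e1 : (t : ℝ) ^ (2 - δ) * (t : ℝ) ^ (δ - 1) = t := by
          rw [← Real.rpow_add htpos]
          have : 2 - δ + (δ - 1) = 1 := by ring
          rw [this, Real.rpow_one]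
        calc (t : ℝ) * a4 q t = a4 q t * ((t : ℝ) ^ (2 - δ) * (t : ℝ) ^ (δ - 1)) := by
              rw [e1]; ring
          _ = _ := by
              field_simp
      rw [k5]
      have k6 : a4 q t * ((t : ℝ) / N) ^ (2 - δ) * (N : ℝ) ^ (2 - δ) * (t : ℝ) ^ (δ - 1) ≤
          C1 * C2 * sT q N * (N : ℝ) ^ (2 - δ) * (t : ℝ) ^ (δ - 1) := by
        gcongr
      have k7 : 0 ≤ N * (C3 * sT q N) := by positivity
      linarith
    · have k1 := h3 N q hN hR
      have k2 := a4_anti q (by omega : 1 ≤ N / 64) (by omega : N / 64 ≤ t)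
      have k3 : (t : ℝ) * a4 q t ≤ N * (C3 * sT q N) := by
        have ht' : (t : ℝ) ≤ N := by exact_mod_cast ht.2
        exact mul_le_mul ht' (k2.trans k1) ha hNpos.le
      have k4 : 0 ≤ C1 * C2 * sT q N * (N : ℝ) ^ (2 - δ) * (t : ℝ) ^ (δ - 1) := by positivity
      linarith
  calc ∑ t ∈ Finset.Icc 1 N, (t : ℝ) * a4 q t
      ≤ ∑ t ∈ Finset.Icc 1 N, (C1 * C2 * sT q N * (N : ℝ) ^ (2 - δ) * (t : ℝ) ^ (δ - 1) +
          N * (C3 * sT q N)) := Finset.sum_le_sum hterm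
    _ = C1 * C2 * sT q N * (N : ℝ) ^ (2 - δ) * ∑ t ∈ Finset.Icc 1 N, (t : ℝ) ^ (δ - 1) +
          N * (N * (C3 * sT q N)) := by
        rw [Finset.sum_add_distrib, ← Finset.mul_sum, Finset.sum_const, Nat.card_Icc,
          Nat.add_sub_cancel, nsmul_eq_mul]
    _ ≤ C1 * C2 * sT q N * (N : ℝ) ^ (2 - δ) * ((N : ℝ) ^ δ / δ) +
          N * (N * (C3 * sT q N)) := by
        gcongr
        exact Sum_rpow δ hδpos hδ1 N
    _ = (C1 * C2 / δ + C3) * ((N : ℝ) ^ 2 * sT q N) := by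
        have e : (N : ℝ) ^ (2 - δ) * (N : ℝ) ^ δ = (N : ℝ) ^ 2 := by
          rw [← Real.rpow_add hNpos, sub_add_cancel, Real.rpow_two]
        calc C1 * C2 * sT q N * (N : ℝ) ^ (2 - δ) * ((N : ℝ) ^ δ / δ) +
            N * (N * (C3 * sT q N)) = C1 * C2 * sT q N * ((N : ℝ) ^ (2 - δ) * (N : ℝ) ^ δ) / δ +
            N * (N * (C3 * sT q N)) := by ring
          _ = _ := by rw [e]; ring


theorem Sum_card_small (N : ℕ) :
    (((tSites N).filter fun f => dist0 N f < 8).card : ℝ) ≤ 225 := by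
  classical
  have hsub : ((tSites N).filter fun f => dist0 N f < 8) ⊆ sBall (cV N) 7 := by
    intro f hf
    rw [Finset.mem_filter] at hf
    have h1 := hf.2
    have h2 := (mem_tSites.1 hf.1).2.2
    unfold dist0 at h1
    rw [mem_sBall, Pool.Agent.H89.Perc.mem_ball]
    simp only [cV, src, h2, and_true]
    push_cast
    omega
  have h1 := Finset.card_le_card hsub
  rw [Sum_card_sBall] at h1
  have h2 : (2 * 7 + 1) ^ 2 = 225 := by norm_num
  rw [h2] at h1
  exact_mod_cast h1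

theorem Sum_dist0_le {N : ℕ} {f : Edge} (hf : f ∈ tSites N) : dist0 N f ≤ N := by
  rw [mem_tSites] at hf
  unfold dist0 mid
  omega

/-- Sum over the edges by distance. -/
theorem Sum_by_dist (N : ℕ) (h : ℕ → ℝ) (hh : ∀ t, 0 ≤ h t) :
    ∑ f ∈ (tSites N).filter (fun f => 8 ≤ dist0 N f), h (dist0 N f) ≤
      ∑ t ∈ Finset.Icc 8 N, 8 * t * h t := by
  classical
  have hmaps : ∀ f ∈ (tSites N).filter (fun f => 8 ≤ dist0 N f), dist0 N f ∈ Finset.Icc 8 N := by
    intro f hf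
    rw [Finset.mem_filter] at hf
    rw [Finset.mem_Icc]
    exact ⟨hf.2, Sum_dist0_le hf.1⟩
  rw [← Finset.sum_fiberwise_of_maps_to hmaps]
  refine Finset.sum_le_sum fun t ht => ?_
  rw [Finset.mem_Icc] at ht
  have h1 : ∑ f ∈ ((tSites N).filter (fun f => 8 ≤ dist0 N f)).filter (fun f => dist0 N f = t),
      h (dist0 N f) = (((tSites N).filter (fun f => 8 ≤ dist0 N f)).filter
        (fun f => dist0 N f = t)).card * h t := by
    rw [← nsmul_eq_mul]
    refine Finset.sum_eq_card_nsmul fun f hf => ?_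
    rw [(Finset.mem_filter.1 hf).2]
  rw [h1]
  refine mul_le_mul_of_nonneg_right ?_ (hh t)
  refine le_trans ?_ (card_dist0 N t (by omega))
  have h2 : ((tSites N).filter (fun f => 8 ≤ dist0 N f)).filter (fun f => dist0 N f = t) ⊆
      (tSites N).filter (fun f => dist0 N f = t) :=
    Finset.filter_subset_filter _ (Finset.filter_subset _ _)
  exact_mod_cast Finset.card_le_card h2


theorem sum_joint_ctr (hGL : GLTorus) (hBL : BlockLow) : ∀ c : ℝ, 0 < c → ∃ C : ℝ, 0 < C ∧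
    ∀ (N : ℕ) (q : I), 64 ≤ N → SReg c N q →
      ∑ f ∈ (tSites N).erase (cE N), Pr q (Joint (WindS N) (cE N) f) ≤
        C * ((N : ℝ) ^ 2 * sT q N ^ 2) := by
  classical
  intro c hc
  obtain ⟨C3, hC3, h3⟩ := a4_le_sT hGL hBL c hc
  obtain ⟨C4, hC4, h4⟩ := sum_a4 hGL hBL c hc
  obtain ⟨C1, hC1, h1⟩ := hGL c hc
  obtain ⟨m, hmdef⟩ : ∃ m : ℝ, m = c / 10 := ⟨_, rfl⟩
  have hm : 0 < m := by rw [hmdef]; positivity
  refine ⟨225 * (1 / m) * ((1 / m) ^ 9 * C4) + 960 * C1 * C4 + C3 ^ 2, by positivity,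
    fun N q hN hR => ?_⟩
  obtain ⟨hq1, hq2⟩ := sreg_mem hc (by omega) hR
  rw [← hmdef] at hq1 hq2
  have hs := sT_nonneg q N
  have hNpos : (0 : ℝ) < N := by exact_mod_cast (by omega : 0 < N)
  have hN1 : 1 ≤ N := by omega
  have hsum := h4 N q hN hR
  -- lower bound of the influence
  have hlow : 1 ≤ (1 / m) ^ 9 * C4 * ((N : ℝ) ^ 2 * sT q N) := by
    have k1 := a4_one q hm.le hq2
    have k2 : a4 q 1 ≤ ∑ t ∈ Finset.Icc 1 N, (t : ℝ) * a4 q t := by
      have k3 := Finset.single_le_sum (f := fun t : ℕ => (t : ℝ) * a4 q t)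
        (fun t _ => mul_nonneg (Nat.cast_nonneg t) (a4_nonneg q t))
        (Finset.mem_Icc.2 ⟨le_rfl, hN1⟩ : 1 ∈ Finset.Icc 1 N)
      simpa using k3
    have k4 : m ^ 9 ≤ C4 * ((N : ℝ) ^ 2 * sT q N) := k1.trans (k2.trans hsum)
    calc (1 : ℝ) = (1 / m) ^ 9 * m ^ 9 := by rw [← mul_pow, one_div_mul_cancel hm.ne', one_pow]
      _ ≤ (1 / m) ^ 9 * (C4 * ((N : ℝ) ^ 2 * sT q N)) :=
          mul_le_mul_of_nonneg_left k4 (by positivity)
      _ = _ := by ring
  -- bound of one term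
  have hterm : ∀ f ∈ (tSites N).erase (cE N), Pr q (Joint (WindS N) (cE N) f) ≤
      (if dist0 N f < 8 then 1 / m * sT q N else 0) +
      (if 8 ≤ dist0 N f then C1 * sT q N * a4 q (dist0 N f / 8) else 0) +
        C3 ^ 2 * sT q N ^ 2 := by
    intro f hf
    rw [Finset.mem_erase] at hf
    have ha := a4_nonneg q (dist0 N f / 8)
    have hC3s : 0 ≤ C3 ^ 2 * sT q N ^ 2 := by positivity
    by_cases h8 : dist0 N f < 8
    · rw [if_pos h8, if_neg (by omega)]
      have k1 := Pr_Joint_le (localOn_WindS hN1) (incr_WindS N) (Ne.symm hf.1) q hm hq1 hq2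
      have k2 : pivot q (WindS N) (cE N) = sT q N := rfl
      rw [k2] at k1
      linarith
    · rw [if_neg h8, if_pos (by omega)]
      obtain ⟨r, hr⟩ : ∃ r, r = dist0 N f / 8 := ⟨_, rfl⟩
      rw [← hr] at ha ⊢
      by_cases h64 : 64 * r ≤ N
      · have k1 := Pr_joint_near q hf.2 (by omega : 1 ≤ r)
          (by omega : 2 * r < dist0 N f) (by omega : dist0 N f + r ≤ 16 * r) (by omega)
        have k2 := h1 N r q (by omega) h64 hR
        have k3 : a4 q r ^ 2 * Pr q (BlockPiv N (16 * r)) ≤ C1 * sT q N * a4 q r := by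
          calc a4 q r ^ 2 * Pr q (BlockPiv N (16 * r))
              = a4 q r * (a4 q r * Pr q (BlockPiv N (16 * r))) := by ring
            _ ≤ a4 q r * (C1 * sT q N) := mul_le_mul_of_nonneg_left k2 ha
            _ = _ := by ring
        linarith
      · have k1 := Pr_joint_far q hf.2 (by omega : 1 ≤ N / 64)
          (by omega : 2 * (N / 64) < dist0 N f) (by omega)
        have k2 := h3 N q hN hR
        have k3 := a4_nonneg q (N / 64)
        have k4 : a4 q (N / 64) ^ 2 ≤ (C3 * sT q N) ^ 2 := pow_le_pow_left₀ k3 k2 2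
        have k5 : 0 ≤ C1 * sT q N * a4 q r := by positivity
        rw [mul_pow] at k4
        linarith
  have hsub : (tSites N).erase (cE N) ⊆ tSites N := Finset.erase_subset _ _
  have hg0 : ∀ f ∈ tSites N, f ∉ (tSites N).erase (cE N) → 0 ≤
      (if dist0 N f < 8 then 1 / m * sT q N else 0) +
      (if 8 ≤ dist0 N f then C1 * sT q N * a4 q (dist0 N f / 8) else 0) +
        C3 ^ 2 * sT q N ^ 2 := by
    intro f _ _
    have ha := a4_nonneg q (dist0 N f / 8)
    split_ifs <;> positivity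
  have p1 : ∑ f ∈ tSites N, (if dist0 N f < 8 then 1 / m * sT q N else 0) ≤
      225 * (1 / m * sT q N) := by
    rw [← Finset.sum_filter, Finset.sum_const, nsmul_eq_mul]
    exact mul_le_mul_of_nonneg_right (Sum_card_small N) (by positivity)
  have p2 : ∑ f ∈ tSites N, (if 8 ≤ dist0 N f then C1 * sT q N * a4 q (dist0 N f / 8) else 0) ≤
      960 * C1 * C4 * ((N : ℝ) ^ 2 * sT q N ^ 2) := by
    rw [← Finset.sum_filter, ← Finset.mul_sum]
    have k1 := Sum_by_dist N (fun t => a4 q (t / 8)) (fun t => a4_nonneg q _)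
    have k2 := Sum_eight N (fun t => a4 q t) (fun t => a4_nonneg q _)
    have k3 : ∑ t ∈ Finset.Icc 8 N, 8 * (t : ℝ) * a4 q (t / 8) =
        8 * ∑ t ∈ Finset.Icc 8 N, (t : ℝ) * a4 q (t / 8) := by
      rw [Finset.mul_sum]
      exact Finset.sum_congr rfl fun t _ => by ring
    have k4 : ∑ f ∈ (tSites N).filter (fun f => 8 ≤ dist0 N f), a4 q (dist0 N f / 8) ≤
        960 * (C4 * ((N : ℝ) ^ 2 * sT q N)) := by
      refine k1.trans ?_
      rw [k3]
      linarith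
    calc C1 * sT q N * ∑ f ∈ (tSites N).filter (fun f => 8 ≤ dist0 N f), a4 q (dist0 N f / 8)
        ≤ C1 * sT q N * (960 * (C4 * ((N : ℝ) ^ 2 * sT q N))) :=
          mul_le_mul_of_nonneg_left k4 (by positivity)
      _ = _ := by ring
  have p3 : ∑ _f ∈ tSites N, C3 ^ 2 * sT q N ^ 2 = C3 ^ 2 * ((N : ℝ) ^ 2 * sT q N ^ 2) := by
    rw [Finset.sum_const, nsmul_eq_mul, card_tSites]
    ring
  have p4 : 225 * (1 / m * sT q N) ≤
      225 * (1 / m) * ((1 / m) ^ 9 * C4) * ((N : ℝ) ^ 2 * sT q N ^ 2) := by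
    calc 225 * (1 / m * sT q N) = 225 * (1 / m * sT q N) * 1 := (mul_one _).symm
      _ ≤ 225 * (1 / m * sT q N) * ((1 / m) ^ 9 * C4 * ((N : ℝ) ^ 2 * sT q N)) :=
          mul_le_mul_of_nonneg_left hlow (by positivity)
      _ = _ := by ring
  calc ∑ f ∈ (tSites N).erase (cE N), Pr q (Joint (WindS N) (cE N) f)
      ≤ ∑ f ∈ (tSites N).erase (cE N), ((if dist0 N f < 8 then 1 / m * sT q N else 0) +
        (if 8 ≤ dist0 N f then C1 * sT q N * a4 q (dist0 N f / 8) else 0) +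
        C3 ^ 2 * sT q N ^ 2) := Finset.sum_le_sum hterm
    _ ≤ ∑ f ∈ tSites N, ((if dist0 N f < 8 then 1 / m * sT q N else 0) +
        (if 8 ≤ dist0 N f then C1 * sT q N * a4 q (dist0 N f / 8) else 0) +
        C3 ^ 2 * sT q N ^ 2) := Finset.sum_le_sum_of_subset_of_nonneg hsub hg0
    _ = ∑ f ∈ tSites N, (if dist0 N f < 8 then 1 / m * sT q N else 0) +
        ∑ f ∈ tSites N, (if 8 ≤ dist0 N f then C1 * sT q N * a4 q (dist0 N f / 8) else 0) +
        ∑ _f ∈ tSites N, C3 ^ 2 * sT q N ^ 2 := by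
        rw [Finset.sum_add_distrib, Finset.sum_add_distrib]
    _ ≤ 225 * (1 / m) * ((1 / m) ^ 9 * C4) * ((N : ℝ) ^ 2 * sT q N ^ 2) +
        960 * C1 * C4 * ((N : ℝ) ^ 2 * sT q N ^ 2) +
        C3 ^ 2 * ((N : ℝ) ^ 2 * sT q N ^ 2) := by
        rw [p3]
        linarith
    _ = _ := by ring


end Pool.Agent.H92.SN
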