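import Pool.Agent.H92.SN.Second
import Pool.Agent.H31.AL.Dyadic
import Pool.Agent.H13.SK.Dyad

/-!
# Linear approximation of `tau` in the window of scale `2 ^ k`
-/

set_option autoImplicit false

open MeasureTheory ProbabilityTheory unitInterval Filter Topology

namespace Pool.Agent.H92.SN

open Pool.Agent.H89.Perc
open Pool.Agent.H61.NC (fill mid upd Joint PrR' dist0 PrR'_eq hasDerivAt_PrR_eq hasDerivAt_PrR'
  abs_second_le)
open Pool.Agent.H83.SK (sv sit)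
open Pool.Agent.H13.SK (SumB uu SumB_nonneg)

/-- Comparison with the dyadic sum. -/
theorem sum_Ico_two_pow {a : ℕ → ℝ} (h0 : ∀ t, 0 ≤ a t)
    (hanti : ∀ m n, 1 ≤ m → m ≤ n → a n ≤ a m) (m : ℕ) :
    ∑ t ∈ Finset.Ico (1 : ℕ) (2 ^ m), (t : ℝ) ^ 3 * a t ^ 3 ≤
      8 * ∑ j ∈ Finset.range m, ((2 : ℝ) ^ j) ^ 4 * a (2 ^ j) ^ 3 := by
  induction m with
  | zero => simp
  | succ m ih =>
    have h1 : 2 ^ m ≤ 2 ^ (m + 1) := Nat.pow_le_pow_right (by norm_num) (by omega)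
    rw [← Finset.sum_Ico_consecutive _ (Nat.one_le_two_pow : 1 ≤ 2 ^ m) h1,
      Finset.sum_range_succ, mul_add]
    refine add_le_add ih ?_
    have h2 : ∀ t ∈ Finset.Ico ((2 : ℕ) ^ m) (2 ^ (m + 1)), (t : ℝ) ^ 3 * a t ^ 3 ≤
        ((2 : ℝ) ^ (m + 1)) ^ 3 * a (2 ^ m) ^ 3 := by
      intro t ht
      rw [Finset.mem_Ico] at ht
      have h3 : (t : ℝ) ≤ (2 : ℝ) ^ (m + 1) := by exact_mod_cast ht.2.le
      have h4 : a t ≤ a (2 ^ m) := hanti _ _ Nat.one_le_two_pow ht.1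
      have h5 := h0 t
      gcongr
    refine (Finset.sum_le_sum h2).trans (le_of_eq ?_)
    rw [Finset.sum_const, Nat.card_Ico, nsmul_eq_mul]
    have h6 : ((2 ^ (m + 1) - 2 ^ m : ℕ) : ℝ) = (2 : ℝ) ^ m := by
      have : 2 ^ (m + 1) - 2 ^ m = 2 ^ m := by rw [pow_succ]; omega
      rw [this]
      push_cast
      ring
    rw [h6]
    ring

theorem sum_Icc_le_SumB {a : ℕ → ℝ} (h0 : ∀ t, 0 ≤ a t)
    (hanti : ∀ m n, 1 ≤ m → m ≤ n → a n ≤ a m) (k : ℕ) :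
    ∑ t ∈ Finset.Icc (1 : ℕ) (4 * 2 ^ k + 1), (t : ℝ) ^ 3 * a t ^ 3 ≤ 2184 * SumB a (2 ^ k) := by
  have hk : 1 ≤ 2 ^ k := Nat.one_le_two_pow
  have h1 : Finset.Icc 1 (4 * 2 ^ k + 1) ⊆ Finset.Ico 1 (2 ^ (k + 3)) := by
    intro t ht
    rw [Finset.mem_Icc] at ht
    rw [Finset.mem_Ico, pow_add]
    omega
  refine (Finset.sum_le_sum_of_subset_of_nonneg h1 fun t _ _ =>
    mul_nonneg (by positivity) (pow_nonneg (h0 t) 3)).trans ?_
  refine (sum_Ico_two_pow h0 hanti (k + 3)).trans ?_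
  unfold SumB
  rw [Nat.log_pow (by norm_num), Finset.sum_range_succ, Finset.sum_range_succ]
  obtain ⟨S, hS⟩ : ∃ S, S = ∑ j ∈ Finset.range (k + 1), ((2 : ℝ) ^ j) ^ 4 * a (2 ^ j) ^ 3 :=
    ⟨_, rfl⟩
  rw [← hS]
  have h2 : ((2 : ℝ) ^ k) ^ 4 * a (2 ^ k) ^ 3 ≤ S := by
    rw [hS]
    exact Finset.single_le_sum (f := fun j : ℕ => ((2 : ℝ) ^ j) ^ 4 * a (2 ^ j) ^ 3)
      (fun j _ => mul_nonneg (by positivity) (pow_nonneg (h0 _) 3))
      (Finset.mem_range.2 (by omega))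
  have h3 : a (2 ^ (k + 1)) ≤ a (2 ^ k) :=
    hanti _ _ hk (Nat.pow_le_pow_right (by norm_num) (by omega))
  have h4 : a (2 ^ (k + 2)) ≤ a (2 ^ k) :=
    hanti _ _ hk (Nat.pow_le_pow_right (by norm_num) (by omega))
  have h5 := h0 (2 ^ (k + 1))
  have h6 := h0 (2 ^ (k + 2))
  have h7 := h0 (2 ^ k)
  have h8 : ((2 : ℝ) ^ (k + 1)) ^ 4 * a (2 ^ (k + 1)) ^ 3 ≤ 16 * S := by
    calc ((2 : ℝ) ^ (k + 1)) ^ 4 * a (2 ^ (k + 1)) ^ 3
        ≤ ((2 : ℝ) ^ (k + 1)) ^ 4 * a (2 ^ k) ^ 3 := by gcongr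
      _ = 16 * (((2 : ℝ) ^ k) ^ 4 * a (2 ^ k) ^ 3) := by ring
      _ ≤ 16 * S := by linarith
  have h9 : ((2 : ℝ) ^ (k + 2)) ^ 4 * a (2 ^ (k + 2)) ^ 3 ≤ 256 * S := by
    calc ((2 : ℝ) ^ (k + 2)) ^ 4 * a (2 ^ (k + 2)) ^ 3
        ≤ ((2 : ℝ) ^ (k + 2)) ^ 4 * a (2 ^ k) ^ 3 := by gcongr
      _ = 256 * (((2 : ℝ) ^ k) ^ 4 * a (2 ^ k) ^ 3) := by ring
      _ ≤ 256 * S := by linarith
  linarith

/-- Linear approximation of one term on the torus. -/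
theorem taylor_DT {N i : ℕ} (hN : 1 ≤ N) {p : I} {r B : ℝ} (hr0 : 0 ≤ (p : ℝ) - r)
    (hr1 : (p : ℝ) + r ≤ 1)
    (hB : ∀ q : I, |(q : ℝ) - p| ≤ r →
      ∑ f ∈ tSites N, ∑ g ∈ (tSites N).erase f, Pr q (Joint (DT N i) f g) ≤ B)
    {q : I} (hq : |(q : ℝ) - p| ≤ r) :
    |Pr q (DT N i) - Pr p (DT N i) - PrR' (tSites N) (DT N i) p * ((q : ℝ) - p)| ≤
      B * |(q : ℝ) - p| ^ 2 := by
  classical
  have hloc := localOn_DT hN i
  have hmem : ∀ x : ℝ, |x - p| ≤ r → ∃ q : I, (q : ℝ) = x := by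
    intro x hx
    rw [abs_le] at hx
    exact ⟨⟨x, by linarith, by linarith⟩, rfl⟩
  have hB0 : 0 ≤ B := le_trans (Finset.sum_nonneg fun _ _ => Finset.sum_nonneg fun _ _ => Pr_nonneg)
    (hB q hq)
  have key := Pool.Agent.H31.AL.taylor_one (F := PrR (tSites N) (DT N i))
    (F' := PrR' (tSites N) (DT N i))
    (F'' := fun x => if hx : x ∈ I then
      ∑ e ∈ tSites N, ∑ f ∈ tSites N, (pivot ⟨x, hx⟩ (upd (DT N i) e true) f -
        pivot ⟨x, hx⟩ (upd (DT N i) e false) f) else 0)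
    (x₀ := (p : ℝ)) (r := r) (B := B) hB0 ?_ ?_ ?_ hq
  · rw [Pr_eq_PrR hloc, Pr_eq_PrR hloc]
    exact key
  · intro x hx
    obtain ⟨q, rfl⟩ := hmem x hx
    exact hasDerivAt_PrR_eq hloc q
  · intro x hx
    obtain ⟨q, rfl⟩ := hmem x hx
    have := hasDerivAt_PrR' hloc q
    simp only [Subtype.coe_prop, dite_true, Subtype.coe_eta]
    exact this
  · intro x hx
    obtain ⟨q, rfl⟩ := hmem x hx
    simp only [Subtype.coe_prop, dite_true, Subtype.coe_eta]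
    exact (abs_second_le hloc (incr_DT N i) q).trans (hB q hx)

/-- **The linear approximation of `tau` in the window of scale `2 ^ k`.** -/
theorem window_tau (hGL : GLTorus) (hBL : BlockLow) (hQM : QMann) {p : I} (hp0 : 0 < (p : ℝ))
    (hp1 : (p : ℝ) < 1)
    (hreg : ∃ c > (0 : ℝ), ∃ c' > (0 : ℝ), ∀ (n : ℕ) (q : I), 1 ≤ n →
      |(q : ℝ) - p| * ((n : ℝ) ^ 2 * a4 p n) ≤ c' → SReg c (512 * n) q)
    (hu : Tendsto (fun k => uu (a4 p) k) atTop atTop) (hpos : ∀ n, 1 ≤ n → 0 < a4 p n) :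
    ∃ c > (0 : ℝ), ∃ C > (0 : ℝ), ∃ (k₀ : ℕ) (b : ℕ → ℝ), ∀ k, k₀ ≤ k → ∀ t : ℝ,
      |t| ≤ c * (1 / uu (a4 p) k) →
        |(tauR (p + t) - tauR p) - b k * t| ≤
          C * (a4 p (2 ^ k) + t ^ 2 * SumB (a4 p) (2 ^ k)) := by
  obtain ⟨c, hc, c', hc', hR⟩ := hreg
  obtain ⟨C₂, hC₂, h2⟩ := second_DT hGL hBL hQM c hc
  obtain ⟨C₃, hC₃, h3⟩ := a4_near hGL hBL c hc
  have hm : 0 < min (p : ℝ) (1 - p) := lt_min hp0 (by linarith)
  obtain ⟨k₀, hk₀⟩ := (hu.eventually_ge_atTop (c' / min (p : ℝ) (1 - p))).exists_forall_of_atTop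
  refine ⟨c', hc', 3 * (C₃ + 1) + 3 * (C₂ * (C₃ ^ 3 * 2184)), by positivity, k₀,
    fun k => ∑ i ∈ Finset.Icc 1 3, PrR' (tSites (4 * 2 ^ k)) (DT (4 * 2 ^ k) i) p,
    fun k hk t ht => ?_⟩
  have hk1 : 1 ≤ 2 ^ k := Nat.one_le_two_pow
  obtain ⟨N, hN⟩ : ∃ N, N = 4 * 2 ^ k := ⟨_, rfl⟩
  have hN1 : 1 ≤ N := by omega
  have huk : 0 < uu (a4 p) k := Pool.Agent.H13.SK.uu_pos hpos k
  have hb : c' * (1 / uu (a4 p) k) ≤ min (p : ℝ) (1 - p) := by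
    have h4 := hk₀ k hk
    rw [div_le_iff₀ hm] at h4
    rw [mul_one_div, div_le_iff₀ huk, mul_comm]
    exact h4
  have ht0 : |t| ≤ p := ht.trans (hb.trans (min_le_left _ _))
  have ht1 : |t| ≤ 1 - p := ht.trans (hb.trans (min_le_right _ _))
  have hreg : ∀ q : I, |(q : ℝ) - p| ≤ |t| → SReg c (512 * 2 ^ k) q := by
    intro q hq
    refine hR (2 ^ k) q hk1 ?_
    have h5 : |(q : ℝ) - p| ≤ c' * (1 / uu (a4 p) k) := hq.trans ht
    rw [mul_one_div, le_div_iff₀ huk] at h5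
    unfold uu at h5
    push_cast
    exact h5
  have hcmp : ∀ q : I, |(q : ℝ) - p| ≤ |t| → ∀ s : ℕ, 1 ≤ s → s ≤ 8 * 2 ^ k →
      a4 q s ≤ C₃ * a4 p s := by
    intro q hq s hs1 hs2
    rcases le_total p q with hpq | hpq
    · refine (h3 (8 * 2 ^ k) p q hpq (fun q' h6 h7 => ?_) s hs1 hs2).1
      have h8 : |(q' : ℝ) - p| ≤ |t| := by
        refine le_trans ?_ hq
        have h6' : (p : ℝ) ≤ q' := h6
        have h7' : (q' : ℝ) ≤ q := h7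
        rw [abs_of_nonneg (by linarith), abs_of_nonneg (by linarith)]
        linarith
      have h9 := hreg q' h8
      rw [show 64 * (8 * 2 ^ k) = 512 * 2 ^ k by ring]
      exact h9
    · refine (h3 (8 * 2 ^ k) q p hpq (fun q' h6 h7 => ?_) s hs1 hs2).2
      have h8 : |(q' : ℝ) - p| ≤ |t| := by
        refine le_trans ?_ hq
        have h6' : (q : ℝ) ≤ q' := h6
        have h7' : (q' : ℝ) ≤ p := h7
        rw [abs_of_nonpos (by linarith), abs_of_nonpos (by linarith)]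
        linarith
      have h9 := hreg q' h8
      rw [show 64 * (8 * 2 ^ k) = 512 * 2 ^ k by ring]
      exact h9
  have hanti : ∀ m n, 1 ≤ m → m ≤ n → a4 p n ≤ a4 p m := fun m n h6 h7 => a4_anti p h6 h7
  obtain ⟨S, hS⟩ : ∃ S, S = SumB (a4 p) (2 ^ k) := ⟨_, rfl⟩
  have hS0 : 0 ≤ S := by rw [hS]; exact SumB_nonneg hpos _
  have hsec : ∀ (i : ℕ) (q : I), |(q : ℝ) - p| ≤ |t| →
      ∑ f ∈ tSites N, ∑ g ∈ (tSites N).erase f, Pr q (Joint (DT N i) f g) ≤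
        C₂ * (C₃ ^ 3 * 2184) * S := by
    intro i q hq
    have h4 := h2 N i q hN1 (by
      have h9 := hreg q hq
      rw [show 128 * N = 512 * 2 ^ k by rw [hN]; ring]
      exact h9)
    refine h4.trans ?_
    rw [mul_assoc]
    refine mul_le_mul_of_nonneg_left ?_ hC₂.le
    calc ∑ s ∈ Finset.Icc 1 (N + 1), (s : ℝ) ^ 3 * a4 q s ^ 3
        ≤ ∑ s ∈ Finset.Icc 1 (N + 1), C₃ ^ 3 * ((s : ℝ) ^ 3 * a4 p s ^ 3) := by
          refine Finset.sum_le_sum fun s hs => ?_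
          rw [Finset.mem_Icc] at hs
          have h5 := hcmp q hq s hs.1 (by omega)
          have h6 := a4_nonneg q s
          calc (s : ℝ) ^ 3 * a4 q s ^ 3 ≤ (s : ℝ) ^ 3 * (C₃ * a4 p s) ^ 3 := by gcongr
            _ = _ := by ring
      _ = C₃ ^ 3 * ∑ s ∈ Finset.Icc 1 (N + 1), (s : ℝ) ^ 3 * a4 p s ^ 3 := by
          rw [Finset.mul_sum]
      _ ≤ C₃ ^ 3 * (2184 * S) := by
          refine mul_le_mul_of_nonneg_left ?_ (by positivity)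
          rw [hN, hS]
          exact sum_Icc_le_SumB (fun t => a4_nonneg p t) hanti k
      _ = C₃ ^ 3 * 2184 * S := by ring
  -- the point
  have hmem : (p : ℝ) + t ∈ I := by
    have h4 := abs_le.1 ht0
    have h5 := abs_le.1 ht1
    exact ⟨by linarith, by linarith⟩
  obtain ⟨q, hq⟩ : ∃ q : I, q = ⟨(p : ℝ) + t, hmem⟩ := ⟨_, rfl⟩
  have hqt : (q : ℝ) - p = t := by rw [hq]; simp
  have hqt' : |(q : ℝ) - p| ≤ |t| := by rw [hqt]
  have e1 : tauR ((p : ℝ) + t) = tau q := by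
    unfold tauR
    rw [dif_pos hmem, hq]
  have e2 : tauR (p : ℝ) = tau p := by
    unfold tauR
    rw [dif_pos p.2]
  have hT : ∀ i, |Pr q (DT N i) - Pr p (DT N i) - PrR' (tSites N) (DT N i) p * t| ≤
      C₂ * (C₃ ^ 3 * 2184) * S * t ^ 2 := by
    intro i
    have h4 := taylor_DT (i := i) hN1 (r := |t|) (by linarith) (by linarith) (hsec i) hqt'
    rw [hqt, sq_abs] at h4
    exact h4
  have hTT : |tauT N q - tauT N p -
      (∑ i ∈ Finset.Icc 1 3, PrR' (tSites N) (DT N i) p) * t| ≤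
      3 * (C₂ * (C₃ ^ 3 * 2184) * S * t ^ 2) := by
    unfold tauT
    rw [Finset.sum_mul, ← Finset.sum_sub_distrib, ← Finset.sum_sub_distrib]
    refine (Finset.abs_sum_le_sum_abs _ _).trans ?_
    refine (Finset.sum_le_sum fun i _ => hT i).trans (le_of_eq ?_)
    rw [Finset.sum_const, Nat.card_Icc]
    simp
  have h6 := tauT_near q (N := N) (r := 2 ^ k) hk1 (by omega)
  have h7 := tauT_near p (N := N) (r := 2 ^ k) hk1 (by omega)
  have h8 := hcmp q hqt' (2 ^ k) hk1 (by omega)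
  have h9 := a4_nonneg p (2 ^ k)
  have e3 : tauR ((p : ℝ) + t) - tauR p -
      (∑ i ∈ Finset.Icc 1 3, PrR' (tSites N) (DT N i) p) * t =
      (tauT N q - tauT N p - (∑ i ∈ Finset.Icc 1 3, PrR' (tSites N) (DT N i) p) * t) +
        (-(tauT N q - tau q) + (tauT N p - tau p)) := by
    rw [e1, e2]
    ring
  beta_reduce
  rw [← hN, e3, ← hS]
  refine (abs_add_le _ _).trans ?_
  have h10 := abs_add_le (-(tauT N q - tau q)) (tauT N p - tau p)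
  rw [abs_neg] at h10
  have h11 : 0 ≤ C₂ * (C₃ ^ 3 * 2184) * a4 p (2 ^ k) := by positivity
  have h12 : 0 ≤ (C₃ + 1) * (t ^ 2 * S) := by positivity
  calc |tauT N q - tauT N p - (∑ i ∈ Finset.Icc 1 3, PrR' (tSites N) (DT N i) p) * t| +
        |-(tauT N q - tau q) + (tauT N p - tau p)|
      ≤ 3 * (C₂ * (C₃ ^ 3 * 2184) * S * t ^ 2) + (3 * (C₃ * a4 p (2 ^ k)) + 3 * a4 p (2 ^ k)) := by
        linarith
    _ ≤ (3 * (C₃ + 1) + 3 * (C₂ * (C₃ ^ 3 * 2184))) * (a4 p (2 ^ k) + t ^ 2 * S) := by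
        nlinarith

end Pool.Agent.H92.SN
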