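import Pool.Agent.H92.SN.Win
import Pool.Agent.H13.SK.Inst

/-!
# The window at the critical density
-/

set_option autoImplicit false

open MeasureTheory ProbabilityTheory unitInterval Filter Topology

namespace Pool.Agent.H92.SN

open Pool.Agent.H83.Site (pc pc_pos pc_lt_one)
open Pool.Agent.H13.SK (SumB uu uu_grow nc_holds window_reg' blockLow)

/-- The windows at the critical density shrink. -/
theorem uu_tendsto (hGL : GLTorus) : Tendsto (fun k => uu (a4 pc) k) atTop atTop := by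
  have H := nc_holds hGL
  obtain ⟨c₀, hc₀, δ₀, hδ₀, -, hG⟩ := H.growth1
  have h0 : 0 < uu (a4 pc) 0 := Pool.Agent.H13.SK.uu_pos H.pos_pc 0
  have h1 : Tendsto (fun i : ℕ => c₀ * ((2 : ℝ) ^ δ₀) ^ i * uu (a4 pc) 0) atTop atTop :=
    ((tendsto_pow_atTop_atTop_of_one_lt
      (Real.one_lt_rpow (by norm_num) hδ₀)).const_mul_atTop hc₀).atTop_mul_const h0
  refine tendsto_atTop_mono (fun i => ?_) h1
  have h2 := uu_grow hG 0 i
  rwa [zero_add] at h2

/-- **The linear approximation of `tau` in the windows at the critical density.** -/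
theorem window_tau_pc (hGL : GLTorus) (hQM : QMann) :
    ∃ c > (0 : ℝ), ∃ C > (0 : ℝ), ∃ (k₀ : ℕ) (b : ℕ → ℝ), ∀ k, k₀ ≤ k → ∀ t : ℝ,
      |t| ≤ c * (1 / uu (a4 pc) k) →
        |(tauR (pc + t) - tauR pc) - b k * t| ≤
          C * (a4 pc (2 ^ k) + t ^ 2 * SumB (a4 pc) (2 ^ k)) :=
  window_tau hGL blockLow hQM pc_pos pc_lt_one (window_reg' (nc_holds hGL) 512) (uu_tendsto hGL)
    (nc_holds hGL).pos_pc

end Pool.Agent.H92.SN
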